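import Mathlib

/-!
The abelian group `γ₂` of a two-generator 2-group of class four, as a module.
-/

set_option autoImplicit false

namespace Pool.Agent.W372.AC

variable {A : Type} [AddCommGroup A]

/-- `(X^{n-1} + ⋯ + X + 1) u` -/
def Sm (X : A →+ A) (u : A) : ℕ → A
  | 0 => 0
  | n + 1 => X (Sm X u n) + u

structure Dat (X Y : A →+ A) (B : AddSubgroup A) (u w : A) : Prop where
  comm : ∀ a, X (Y a) = Y (X a)
  Xw : X w = w
  Yw : Y w = w
  w2 : w + w = 0
  w1 : w ≠ 0
  sq : ∀ a : A, a + a = 0 ∨ a + a = w
  wB : w ∈ B
  XB : ∀ a, X a - a ∈ B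
  YB : ∀ a, Y a - a ∈ B
  X4 : ∀ d ∈ B, X d - d = 0 ∨ X d - d = w
  Y4 : ∀ d ∈ B, Y d - d = 0 ∨ Y d - d = w
  uB : u ∉ B
  nc : ¬ (X (X u - u) = X u - u ∧ Y (X u - u) = X u - u ∧ X (Y u - u) = Y u - u ∧
    Y (Y u - u) = Y u - u)
  gen : ∀ K : AddSubgroup A, u ∈ K → (∀ c ∈ K, X c ∈ K) → (∀ c ∈ K, Y c ∈ K) → K = ⊤
  H1 : ∀ c : A, ∃ (a : ℕ) (e : A), c = Sm X u a + (e - Y e)
  H2 : ∀ e : A, ∃ a b : ℕ, u + (e - Y e) = X^[a] (Y^[b] u)
  H3 : ∀ e : A, ∃ (a b : ℕ) (f : A), Y (Y (u + (e - Y e)))
    = (Sm X u a + Y (Sm X u a)) + Y (Y (X^[a] (Y^[b] u))) + (f - Y (Y f))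

section

variable {X Y : A →+ A} {B : AddSubgroup A} {u w : A}

lemma Dat.u4 (D : Dat X Y B u w) : u + u + u + u = 0 := by
  rcases D.sq u with h | h
  · have : u + u + u + u = (u + u) + (u + u) := by abel
    rw [this, h, add_zero]
  · have : u + u + u + u = (u + u) + (u + u) := by abel
    rw [this, h, D.w2]

lemma Dat.s2 (D : Dat X Y B u w) (a : A) : (X a - a) + (X a - a) = 0 := by
  have h1 : X (a + a) = a + a := by
    rcases D.sq a with h | h
    · rw [h, map_zero]
    · rw [h, D.Xw]
  rw [map_add] at h1
  have : (X a - a) + (X a - a) = (X a + X a) - (a + a) := by abel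
  rw [this, h1, sub_self]

lemma Dat.t2 (D : Dat X Y B u w) (a : A) : (Y a - a) + (Y a - a) = 0 := by
  have h1 : Y (a + a) = a + a := by
    rcases D.sq a with h | h
    · rw [h, map_zero]
    · rw [h, D.Yw]
  rw [map_add] at h1
  have : (Y a - a) + (Y a - a) = (Y a + Y a) - (a + a) := by abel
  rw [this, h1, sub_self]

lemma Dat.u3B (D : Dat X Y B u w) : u + u + u ∉ B := by
  intro h
  apply D.uB
  have e : u = (u + u + u + u) - (u + u + u) := by abel
  rw [e, D.u4, zero_sub]
  exact B.neg_mem h

/-- periodicity of `Sm` -/
lemma Dat.Sm_cases (D : Dat X Y B u w) (a : ℕ) :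
    Sm X u a = 0 ∨ Sm X u a = u ∨ Sm X u a = u + u + (X u - u) ∨
      Sm X u a = u + u + u + (X u - u) + (X (X u - u) - (X u - u)) := by
  have hn2 := D.s2 (X u - u)
  have hs2 := D.s2 u
  have hn := D.X4 _ (D.XB u)
  have hXn : X (X (X u - u) - (X u - u)) = X (X u - u) - (X u - u) := by
    rcases hn with h | h
    · rw [h, map_zero]
    · rw [h, D.Xw]
  have hXs : X (X u - u) = (X u - u) + (X (X u - u) - (X u - u)) := by abel
  have hXu : X u = u + (X u - u) := by abel
  generalize X (X u - u) - (X u - u) = n at *
  generalize X u - u = s at *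
  have hu4 := D.u4
  induction a with
  | zero => left; rfl
  | succ a ih =>
    have e : Sm X u (a + 1) = X (Sm X u a) + u := rfl
    rcases ih with h | h | h | h
    · right; left
      rw [e, h, map_zero, zero_add]
    · right; right; left
      rw [e, h, hXu]; abel
    · right; right; right
      rw [e, h, map_add, map_add, hXs, hXu]
      have : u + s + (u + s) + (s + n) + u = u + u + u + s + n + (s + s) := by abel
      rw [this, hs2, add_zero]
    · left
      rw [e, h, map_add, map_add, map_add, map_add, hXs, hXu, hXn]
      have : u + s + (u + s) + (u + s) + (s + n) + n + u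
          = (u + u + u + u) + (s + s) + (s + s) + (n + n) := by abel
      rw [this, hs2, hn2, hu4]; abel

/-- `[y, u] = 0` is impossible -/
theorem Dat.X0a (D : Dat X Y B u w) : Y u - u ≠ 0 := by
  intro ht
  have hY : ∀ c, Y c = c := by
    intro c
    let K : AddSubgroup A :=
      { carrier := {c | Y c = c}
        zero_mem' := map_zero _
        add_mem' := fun {a b} ha hb => by
          change Y (a + b) = a + b
          rw [map_add, ha, hb]
        neg_mem' := fun {a} ha => by
          change Y (-a) = -a
          rw [map_neg, ha] }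
    have h1 := D.gen K (sub_eq_zero.mp ht) (fun c hc => by
      change Y (X c) = X c
      rw [← D.comm, hc]) (fun c hc => by
      change Y (Y c) = Y c
      rw [hc, hc])
    have : c ∈ K := by rw [h1]; trivial
    exact this
  obtain ⟨a, e, hae⟩ := D.H1 w
  rw [hY, sub_self, add_zero] at hae
  have hs : ¬ (X u - u = 0 ∨ X u - u = w) := by
    intro h
    apply D.nc
    rw [hY, hY, hY]
    have h2 : Y u - u = 0 := ht
    rw [hY] at h2
    rw [sub_self, map_zero]
    refine ⟨?_, rfl, rfl, rfl⟩
    rcases h with h | h
    · rw [h, map_zero]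
    · rw [h, D.Xw]
  rcases D.Sm_cases a with h | h | h | h
  · exact D.w1 (by rw [hae, h])
  · exact D.uB (by rw [← h, ← hae]; exact D.wB)
  · rw [h] at hae
    apply hs
    have e1 : X u - u = w - (u + u) := by rw [hae]; abel
    rcases D.sq u with h2 | h2
    · right; rw [e1, h2, sub_zero]
    · left; rw [e1, h2, sub_self]
  · rw [h] at hae
    apply D.u3B
    have e1 : u + u + u = w - (X u - u) - (X (X u - u) - (X u - u)) := by
      rw [hae]; abel
    rw [e1]
    exact B.sub_mem (B.sub_mem D.wB (D.XB u)) (D.XB _)

/-- `[y, u] = w` is impossible -/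
theorem Dat.X0b (D : Dat X Y B u w) {Y' : A →+ A} {u' : A}
    (D' : Dat X Y' B u' w) (hY' : ∀ a, Y' a = X (X (Y a))) (hu' : u' = X (X u)) :
    Y u - u ≠ 0 ∧ Y u - u ≠ w := by
  refine ⟨D.X0a, fun ht => ?_⟩
  have hYu : Y u = u + w := by rw [← ht]; abel
  have hs2 := D.s2 u
  have hn := D.X4 _ (D.XB u)
  have hYs : Y (X u - u) = X u - u := by
    rw [map_sub, ← D.comm, hYu, map_add, D.Xw]; abel
  have hn1 : X (X u - u) - (X u - u) = w := by
    rcases hn with h | h
    · exfalso
      apply D.nc
      rw [hYs, ht, D.Xw, D.Yw]
      exact ⟨sub_eq_zero.mp h, rfl, rfl, rfl⟩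
    · exact h
  have hXX : X (X u) = u + w := by
    have e1 : X (X u) = (X (X u - u) - (X u - u)) + ((X u - u) + (X u - u)) + u := by
      rw [map_sub]; abel
    rw [e1, hn1, hs2]; abel
  apply D'.X0a
  rw [hY', hu', hXX, map_add, hYu, D.Yw, map_add, map_add, map_add, map_add, D.Xw, D.Xw, hXX]
  have : u + w + w + w - (u + w) = w + w := by abel
  rw [this, D.w2]

/-- `[y, [y, u]] = 0` is impossible -/
theorem Dat.X1 (D : Dat X Y B u w) (hq : Y (Y u - u) - (Y u - u) = 0)
    (ht : Y u - u ≠ 0 ∧ Y u - u ≠ w) (hs : X u - u ≠ 0 ∧ X u - u ≠ w)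
    (hst : X (Y (X u)) - X u ≠ 0 ∧ X (Y (X u)) - X u ≠ w) : False := by
  have hs2 := D.s2 u
  have ht2 := D.t2 u
  have hn2 := D.s2 (X u - u)
  have hu4 := D.u4
  have hw2 := D.w2
  have hn := D.X4 _ (D.XB u)
  have hm := D.X4 _ (D.YB u)
  have hYs : Y (X u - u) - (X u - u) = X (Y u - u) - (Y u - u) := by
    rw [map_sub, map_sub, ← D.comm]; abel
  have hSm := D.Sm_cases
  have hsB := D.XB u
  have hnB := D.XB (X u - u)
  have htB := D.YB u
  have hXn : X (X (X u - u) - (X u - u)) = X (X u - u) - (X u - u) := by
    rcases hn with h | h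
    · rw [h, map_zero]
    · rw [h, D.Xw]
  have hXu : X u = u + (X u - u) := by abel
  have hYu : Y u = u + (Y u - u) := by abel
  have hXs : X (X u - u) = (X u - u) + (X (X u - u) - (X u - u)) := by abel
  have hXt : X (Y u - u) = (Y u - u) + (X (Y u - u) - (Y u - u)) := by abel
  have hYt : Y (Y u - u) = Y u - u := sub_eq_zero.mp hq
  have hYs' : Y (X u - u) = (X u - u) + (X (Y u - u) - (Y u - u)) := by rw [← hYs]; abel
  generalize X (X u - u) - (X u - u) = n at *
  generalize X (Y u - u) - (Y u - u) = m at *
  generalize X u - u = s at *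
  generalize Y u - u = t at *
  have hXYX : X (Y (X u)) - X u = s + t + n + X m + m := by
    rw [hXu, map_add, hYu, hYs', map_add, map_add, map_add, hXu, hXt, hXs]
    have : u + s + (t + m) + (s + n + X m) - (u + s) = t + m + (s + n + X m) := by abel
    rw [this]; abel
  rcases hm with hm | hm
  · -- `m = 0`
    rw [hm, map_zero, add_zero, add_zero] at hXYX
    rw [hm, add_zero] at hXt hYs'
    have hK : ∀ e, e - Y e = 0 ∨ e - Y e = t := by
      intro e
      let K : AddSubgroup A :=
        { carrier := {e | e - Y e = 0 ∨ e - Y e = t}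
          zero_mem' := by left; rw [map_zero, sub_zero]
          add_mem' := fun {a b} ha hb => by
            change a + b - Y (a + b) = 0 ∨ a + b - Y (a + b) = t
            have e1 : a + b - Y (a + b) = (a - Y a) + (b - Y b) := by rw [map_add]; abel
            rw [e1]
            rcases ha with ha | ha <;> rcases hb with hb | hb <;> rw [ha, hb]
            · left; rw [add_zero]
            · right; rw [zero_add]
            · right; rw [add_zero]
            · left; exact ht2
          neg_mem' := fun {a} ha => by
            change -a - Y (-a) = 0 ∨ -a - Y (-a) = t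
            have e1 : -a - Y (-a) = -(a - Y a) := by rw [map_neg]; abel
            rw [e1]
            rcases ha with ha | ha <;> rw [ha]
            · left; rw [neg_zero]
            · right; exact (eq_neg_of_add_eq_zero_left ht2).symm }
      have h1 := D.gen K (by
        change u - Y u = 0 ∨ u - Y u = t
        right
        rw [hYu]
        have : u - (u + t) = -t := by abel
        rw [this]
        exact (eq_neg_of_add_eq_zero_left ht2).symm) (fun c hc => by
        change X c - Y (X c) = 0 ∨ X c - Y (X c) = t
        rw [← D.comm, ← map_sub]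
        rcases hc with hc | hc <;> rw [hc]
        · left; rw [map_zero]
        · right; exact hXt) (fun c hc => by
        change Y c - Y (Y c) = 0 ∨ Y c - Y (Y c) = t
        rw [← map_sub]
        rcases hc with hc | hc <;> rw [hc]
        · left; rw [map_zero]
        · right; exact hYt)
      have : e ∈ K := by rw [h1]; trivial
      exact this
    obtain ⟨a, e, hae⟩ := D.H1 w
    have hε : e - Y e ∈ B := by
      rcases hK e with h | h <;> rw [h]
      · exact B.zero_mem
      · exact htB
    rcases hSm a with h | h | h | h
    · rw [h, zero_add] at hae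
      rcases hK e with h' | h'
      · exact D.w1 (by rw [hae, h'])
      · exact ht.2 (by rw [hae, h'])
    · rw [h] at hae
      apply D.uB
      have : u = w - (e - Y e) := by rw [hae]; abel
      rw [this]
      exact B.sub_mem D.wB hε
    · rw [h] at hae
      rcases hK e with h' | h'
      · rw [h', add_zero] at hae
        have e1 : s = w - (u + u) := by rw [hae]; abel
        rcases D.sq u with h2 | h2
        · exact hs.2 (by rw [e1, h2, sub_zero])
        · exact hs.1 (by rw [e1, h2, sub_self])
      · rw [h'] at hae
        have e1 : s + t = w - (u + u) := by rw [hae]; abel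
        have e2 : s + t = 0 ∨ s + t = w := by
          rcases D.sq u with h2 | h2
          · right; rw [e1, h2, sub_zero]
          · left; rw [e1, h2, sub_self]
        rcases e2 with e2 | e2 <;> rcases hn with hn | hn
        · exact hst.1 (by rw [hXYX, e2, hn, add_zero])
        · exact hst.2 (by rw [hXYX, e2, hn, zero_add])
        · exact hst.2 (by rw [hXYX, e2, hn, add_zero])
        · exact hst.1 (by rw [hXYX, e2, hn, hw2])
    · rw [h] at hae
      apply D.u3B
      have e1 : u + u + u = w - s - n - (e - Y e) := by rw [hae]; abel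
      rw [e1]
      exact B.sub_mem (B.sub_mem (B.sub_mem D.wB hsB) hnB) hε
  · -- `m = w`
    rw [hm] at hXt hYs'
    have hst' : s + t ≠ 0 ∧ s + t ≠ w := by
      have key : Y (s + t) ≠ s + t := by
        intro h
        rw [map_add, hYs', hYt] at h
        apply D.w1
        have : w = s + w + t - (s + t) := by abel
        rw [this, h, sub_self]
      refine ⟨fun h => key (by rw [h, map_zero]), fun h => key (by rw [h, D.Yw])⟩
    have hYb : ∀ b : ℕ, Y^[b] u = u ∨ Y^[b] u = u + t := by
      intro b
      induction b with
      | zero => left; rfl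
      | succ b ih =>
        rw [Function.iterate_succ_apply']
        rcases ih with h | h <;> rw [h]
        · right; exact hYu
        · left
          rw [map_add, hYu, hYt, add_assoc, ht2, add_zero]
    have hP : ∀ a : ℕ, (Sm X u a = 0 ∧ X^[a] u = u ∧ X^[a] t = t) ∨
        (Sm X u a = u ∧ X^[a] u = u + s ∧ X^[a] t = t + w) ∨
        (Sm X u a = u + u + s ∧ X^[a] u = u + n ∧ X^[a] t = t) ∨
        (Sm X u a = u + u + u + s + n ∧ X^[a] u = u + s + n ∧ X^[a] t = t + w) := by
      intro a
      induction a with
      | zero => left; exact ⟨rfl, rfl, rfl⟩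
      | succ a ih =>
        rw [Function.iterate_succ_apply', Function.iterate_succ_apply']
        have e : Sm X u (a + 1) = X (Sm X u a) + u := rfl
        rw [e]
        rcases ih with ⟨h1, h2, h3⟩ | ⟨h1, h2, h3⟩ | ⟨h1, h2, h3⟩ | ⟨h1, h2, h3⟩
        · right; left
          rw [h1, h2, h3, map_zero, zero_add]
          exact ⟨rfl, hXu, hXt⟩
        · right; right; left
          rw [h1, h2, h3, map_add, map_add, hXs, hXu, hXt, D.Xw]
          refine ⟨by abel, ?_, ?_⟩
          · have : u + s + (s + n) = u + n + (s + s) := by abel
            rw [this, hs2, add_zero]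
          · rw [add_assoc, hw2, add_zero]
        · right; right; right
          rw [h1, h2, h3, map_add, map_add, map_add, hXs, hXu, hXt, hXn]
          refine ⟨?_, rfl, rfl⟩
          have : u + s + (u + s) + (s + n) + u = u + u + u + s + n + (s + s) := by abel
          rw [this, hs2, add_zero]
        · left
          rw [h1, h2, h3, map_add, map_add, map_add, map_add, map_add, map_add, map_add, hXs, hXu,
            hXt, hXn, D.Xw]
          refine ⟨?_, ?_, ?_⟩
          · have : u + s + (u + s) + (u + s) + (s + n) + n + u
                = (u + u + u + u) + (s + s) + (s + s) + (n + n) := by abel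
            rw [this, hs2, hn2, hu4]; abel
          · have : u + s + (s + n) + n = u + (s + s) + (n + n) := by abel
            rw [this, hs2, hn2]; abel
          · rw [add_assoc, hw2, add_zero]
    have hsY : s - Y s = w := by
      rw [hYs']
      have : s - (s + w) = -w := by abel
      rw [this]
      exact (eq_neg_of_add_eq_zero_left hw2).symm
    have hXa : ∀ (a : ℕ) (v v' : A), X^[a] (v + v') = X^[a] v + X^[a] v' := by
      intro a v v'
      induction a with
      | zero => rfl
      | succ a ih =>
        rw [Function.iterate_succ_apply', Function.iterate_succ_apply',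
          Function.iterate_succ_apply', ih, map_add]
    have hnw : n = w := by
      obtain ⟨a, b, hab⟩ := D.H2 s
      rw [hsY] at hab
      rcases hYb b with h | h <;> rw [h] at hab
      · rcases hP a with ⟨h1, h2, h3⟩ | ⟨h1, h2, h3⟩ | ⟨h1, h2, h3⟩ | ⟨h1, h2, h3⟩ <;>
          rw [h2] at hab
        · exact absurd (add_eq_left.mp hab) D.w1
        · exact absurd (add_left_cancel hab).symm hs.2
        · exact (add_left_cancel hab).symm
        · exfalso
          rw [add_assoc] at hab
          have h4 := add_left_cancel hab
          rcases hn with hn | hn <;> rw [hn] at h4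
          · exact hs.2 (by rw [h4, add_zero])
          · exact hs.1 (add_eq_right.mp h4.symm)
      · rw [hXa] at hab
        rcases hP a with ⟨h1, h2, h3⟩ | ⟨h1, h2, h3⟩ | ⟨h1, h2, h3⟩ | ⟨h1, h2, h3⟩ <;>
          rw [h2, h3] at hab
        · exact absurd (add_left_cancel hab).symm ht.2
        · exfalso
          have h4 : u + w = u + (s + t + w) := by rw [hab]; abel
          have h5 := add_left_cancel h4
          exact hst'.1 (add_eq_right.mp h5.symm)
        · exfalso
          have h4 : u + w = u + (n + t) := by rw [hab]; abel
          have h5 := add_left_cancel h4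
          rcases hn with hn | hn <;> rw [hn] at h5
          · exact ht.2 (by rw [h5, zero_add])
          · exact ht.1 (add_eq_left.mp h5.symm)
        · exfalso
          have h4 : u + w = u + (s + t + n + w) := by rw [hab]; abel
          have h5 := add_eq_right.mp (add_left_cancel h4).symm
          rcases hn with hn | hn <;> rw [hn] at h5
          · exact hst'.1 (by rw [← h5, add_zero])
          · apply hst'.2
            have : s + t = s + t + w - w := by abel
            rw [this, h5, zero_sub]
            exact (eq_neg_of_add_eq_zero_left hw2).symm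
    have hYY : ∀ e, Y (Y e) = e := by
      intro e
      let K : AddSubgroup A :=
        { carrier := {e | Y (Y e) = e}
          zero_mem' := by
            change Y (Y 0) = 0
            rw [map_zero, map_zero]
          add_mem' := fun {a b} ha hb => by
            change Y (Y (a + b)) = a + b
            rw [map_add, map_add, ha, hb]
          neg_mem' := fun {a} ha => by
            change Y (Y (-a)) = -a
            rw [map_neg, map_neg, ha] }
      have h1 := D.gen K (by
        change Y (Y u) = u
        rw [hYu, map_add, hYu, hYt, add_assoc, ht2, add_zero]) (fun c hc => by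
        change Y (Y (X c)) = X c
        rw [← D.comm, ← D.comm, hc]) (fun c hc => by
        change Y (Y (Y c)) = Y c
        rw [hc])
      have : e ∈ K := by rw [h1]; trivial
      exact this
    obtain ⟨a, b, f, hab⟩ := D.H3 s
    rw [hYY, hYY, hYY, sub_self, add_zero, hsY] at hab
    have h2u : ∀ v : A, u + u + v = w ∨ u + u + v = 0 → v = 0 ∨ v = w := by
      intro v hv
      have e1 : v = (u + u + v) - (u + u) := by abel
      rcases hv with hv | hv <;> rcases D.sq u with h2 | h2 <;> rw [hv, h2] at e1
      · right; rw [e1, sub_zero]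
      · left; rw [e1, sub_self]
      · left; rw [e1, sub_zero]
      · right; rw [e1, zero_sub]; exact (eq_neg_of_add_eq_zero_left hw2).symm
    rw [hnw] at hP
    rcases hYb b with h | h <;> rw [h] at hab
    · rcases hP a with ⟨h1, h2, h3⟩ | ⟨h1, h2, h3⟩ | ⟨h1, h2, h3⟩ | ⟨h1, h2, h3⟩ <;>
          rw [h1, h2] at hab
      · rw [map_zero] at hab
        apply D.w1
        have : w = (u + w) - u := by abel
        rw [this, hab]; abel
      · have h4 : u + w = u + (u + u + (s + t)) := by rw [hab, hYu]; abel
        have h5 := h2u _ (Or.inl (add_left_cancel h4).symm)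
        rcases h5 with h5 | h5
        · exact hst'.1 h5
        · exact hst'.2 h5
      · rw [map_add, map_add, hYs', hYu] at hab
        have h4 : u + w = u + (u + u + u + u) + (s + s) + (t + t) + (w + w) := by
          rw [hab]; abel
        rw [hu4, hs2, ht2, hw2, add_zero, add_zero, add_zero, add_zero] at h4
        exact D.w1 (add_eq_left.mp h4)
      · rw [map_add, map_add, map_add, map_add, hYs', hYu, D.Yw] at hab
        have h4 : u + w = u + (u + u + (s + t)) + (u + u + u + u) + (s + s) + (t + t)
            + (w + w) + (w + w) := by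
          rw [hab]; abel
        rw [hu4, hs2, ht2, hw2, add_zero, add_zero, add_zero, add_zero, add_zero] at h4
        have h5 := h2u _ (Or.inl (add_left_cancel h4).symm)
        rcases h5 with h5 | h5
        · exact hst'.1 h5
        · exact hst'.2 h5
    · rw [hXa] at hab
      rcases hP a with ⟨h1, h2, h3⟩ | ⟨h1, h2, h3⟩ | ⟨h1, h2, h3⟩ | ⟨h1, h2, h3⟩ <;>
          rw [h1, h2, h3] at hab
      · rw [map_zero] at hab
        have h4 : u + w = u + t := by rw [hab]; abel
        exact ht.2 (add_left_cancel h4).symm
      · have h4 : u + w = u + (u + u + (s + w)) + (t + t) := by rw [hab, hYu]; abel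
        rw [ht2, add_zero] at h4
        have h5 := (add_left_cancel h4).symm
        have h6 := h2u s (by
          right
          have : u + u + s = u + u + (s + w) - w := by abel
          rw [this, h5, sub_self])
        rcases h6 with h6 | h6
        · exact hs.1 h6
        · exact hs.2 h6
      · rw [map_add, map_add, hYs', hYu] at hab
        have h4 : u + w = u + (u + u + u + u) + (s + s) + (t + t) + (w + w) + t := by
          rw [hab]; abel
        rw [hu4, hs2, ht2, hw2, add_zero, add_zero, add_zero, add_zero] at h4
        exact ht.2 (add_left_cancel h4).symm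
      · rw [map_add, map_add, map_add, map_add, hYs', hYu, D.Yw] at hab
        have h4 : u + w = u + (u + u + (s + w)) + (u + u + u + u) + (s + s) + (t + t) + (t + t)
            + (w + w) + (w + w) := by
          rw [hab]; abel
        rw [hu4, hs2, ht2, hw2, add_zero, add_zero, add_zero, add_zero, add_zero, add_zero] at h4
        have h5 := (add_left_cancel h4).symm
        have h6 := h2u s (by
          right
          have : u + u + s = u + u + (s + w) - w := by abel
          rw [this, h5, sub_self])
        rcases h6 with h6 | h6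
        · exact hs.1 h6
        · exact hs.2 h6

end

end Pool.Agent.W372.AC
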