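import Mathlib
import Pool.Agent.Helper832.AutC.Local

/-!
Class-preserving automorphisms and the bound `|γ₂(G)|^d`: basic facts.
-/

set_option autoImplicit false

open scoped commutatorElement

namespace Pool.Agent.W372.AC

open Pool.Agent.Helper832.AutC

variable {G : Type} [Group G]

/-- every choice of `c i ∈ γ₂` is realised by a class-preserving automorphism -/
def Full {d : ℕ} (x : Fin d → G) : Prop :=
  ∀ c : Fin d → G, (∀ i, c i ∈ commutator G) → ∃ α ∈ AutC G, ∀ i, α (x i) = c i * x i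

lemma comm_mem (a b : G) : ⁅a, b⁆ ∈ commutator G :=
  Subgroup.commutator_mem_commutator (Subgroup.mem_top _) (Subgroup.mem_top _)

lemma conj_eq (a b : G) : a * b * a⁻¹ = ⁅a, b⁆ * b := by
  rw [commutatorElement_def]; group

lemma ratio_mem {α : MulAut G} (hα : α ∈ AutC G) (g : G) : α g * g⁻¹ ∈ commutator G := by
  obtain ⟨c, hc⟩ := isConj_iff.mp (hα g)
  rw [← hc, conj_eq, mul_inv_cancel_right]
  exact comm_mem _ _

theorem card_iff [Finite G] {d : ℕ} (x : Fin d → G)
    (hx : Subgroup.closure (Set.range x) = ⊤) :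
    Nat.card (AutC G) = Nat.card (commutator G) ^ d ↔ Full x := by
  classical
  let Φ : AutC G → (Fin d → commutator G) :=
    fun α i => ⟨α.1 (x i) * (x i)⁻¹, ratio_mem α.2 (x i)⟩
  have hinj : Function.Injective Φ := by
    intro α β h
    apply Subtype.ext
    have h1 : (α.1 : G →* G) = (β.1 : G →* G) := by
      refine MonoidHom.eq_of_eqOn_dense hx ?_
      rintro _ ⟨i, rfl⟩
      have h2 := congrArg Subtype.val (congrFun h i)
      exact mul_right_cancel h2
    exact MulEquiv.ext (fun g => DFunLike.congr_fun h1 g)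
  have hfin : Finite (Fin d → commutator G) := inferInstance
  have hcard : Nat.card (Fin d → commutator G) = Nat.card (commutator G) ^ d := by
    rw [Nat.card_fun, Nat.card_eq_fintype_card (α := Fin d), Fintype.card_fin]
  constructor
  · intro h c hc
    have h1 : Nat.card (Fin d → commutator G) ≤ Nat.card (AutC G) := by
      rw [hcard]; exact h.ge
    have hbij : Function.Bijective Φ := hinj.bijective_of_nat_card_le h1
    obtain ⟨α, hα⟩ := hbij.2 (fun i => ⟨c i, hc i⟩)
    refine ⟨α.1, α.2, fun i => ?_⟩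
    have h2 := congrArg Subtype.val (congrFun hα i)
    exact mul_inv_eq_iff_eq_mul.mp h2
  · intro h
    have hbij : Function.Bijective Φ := by
      refine ⟨hinj, fun y => ?_⟩
      obtain ⟨α, hα, hα'⟩ := h (fun i => (y i).1) (fun i => (y i).2)
      refine ⟨⟨α, hα⟩, funext (fun i => Subtype.ext ?_)⟩
      exact mul_inv_eq_iff_eq_mul.mpr (hα' i)
    rw [← hcard]
    exact Nat.card_eq_of_bijective Φ hbij

/-- the property that is inherited by quotients -/
structure Att (G : Type) [Group G] (d : ℕ) : Prop where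
  card : Nat.card (AutC G) = Nat.card (commutator G) ^ d
  gen : ∃ x : Fin d → G, Subgroup.closure (Set.range x) = ⊤

theorem Att.full [Finite G] {d : ℕ} (h : Att G d) (x : Fin d → G)
    (hx : Subgroup.closure (Set.range x) = ⊤) : Full x := (card_iff x hx).mp h.card

theorem Att.quot [Finite G] {d : ℕ} (h : Att G d) (N : Subgroup G) [N.Normal] :
    Att (G ⧸ N) d := by
  obtain ⟨x, hx⟩ := h.gen
  have hg : Subgroup.closure (Set.range (fun i => (x i : G ⧸ N))) = ⊤ := gen_quot x hx N
  refine ⟨(card_iff _ hg).mpr ?_, ⟨_, hg⟩⟩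
  intro c hc
  have hc' : ∀ i, ∃ e : G, e ∈ commutator G ∧ (e : G ⧸ N) = c i := by
    intro i
    have h1 := hc i
    rw [← map_comm (QuotientGroup.mk' N) (QuotientGroup.mk'_surjective N)] at h1
    obtain ⟨e, he, hee⟩ := h1
    exact ⟨e, he, hee⟩
  choose e he hee using hc'
  obtain ⟨α, hα, hαx⟩ := h.full x hx e he
  have hle : ∀ β ∈ AutC G, ∀ n ∈ N, β n ∈ N := by
    intro β hβ n hn
    obtain ⟨c, hc⟩ := isConj_iff.mp (hβ n)
    rw [← hc]
    exact Subgroup.Normal.conj_mem inferInstance n hn c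
  have hmap : N.map α.toMonoidHom = N := by
    ext n
    constructor
    · rintro ⟨m, hm, rfl⟩
      exact hle α hα m hm
    · intro hn
      refine ⟨α⁻¹ n, hle α⁻¹ ((AutC G).inv_mem hα) n hn, ?_⟩
      exact MulAut.apply_inv_self G α n
  let β : (G ⧸ N) ≃* (G ⧸ N) := QuotientGroup.congr N N α hmap
  refine ⟨β, ?_, ?_⟩
  · intro q
    obtain ⟨g, rfl⟩ := QuotientGroup.mk_surjective q
    obtain ⟨c, hc⟩ := isConj_iff.mp (hα g)
    refine isConj_iff.mpr ⟨(c : G ⧸ N), ?_⟩
    show ((c * g * c⁻¹ : G) : G ⧸ N) = ((α g : G) : G ⧸ N)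
    rw [hc]
  · intro i
    show ((α (x i) : G) : G ⧸ N) = c i * (x i : G ⧸ N)
    rw [hαx, ← hee i]
    rfl

/-- every element of `γ₂` is a commutator with a given member of a generating family -/
theorem Full.surj {d : ℕ} {x : Fin d → G} (h : Full x) (i : Fin d) (c : G)
    (hc : c ∈ commutator G) : ∃ g : G, ⁅g, x i⁆ = c := by
  classical
  obtain ⟨α, hα, hαx⟩ := h (fun j => if j = i then c else 1) (by
    intro j
    by_cases hj : j = i
    · simp only [hj, if_true]; exact hc
    · simp only [hj, if_false]; exact one_mem _)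
  obtain ⟨g, hg⟩ := isConj_iff.mp (hα (x i))
  refine ⟨g, ?_⟩
  have h1 := hαx i
  simp only [if_true] at h1
  rw [h1, conj_eq] at hg
  exact mul_right_cancel hg

/-- two-generator form -/
theorem Att.two [Finite G] (h : Att G 2) (x y : G) (hxy : Subgroup.closure {x, y} = ⊤)
    (c e : G) (hc : c ∈ commutator G) (he : e ∈ commutator G) :
    ∃ α ∈ AutC G, α x = c * x ∧ α y = e * y := by
  have hr : Set.range ![x, y] = {x, y} := by
    ext q
    constructor
    · rintro ⟨i, rfl⟩
      fin_cases i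
      · exact Or.inl rfl
      · exact Or.inr rfl
    · rintro (h | h)
      · exact ⟨0, h.symm⟩
      · exact ⟨1, h.symm⟩
  have hf := h.full ![x, y] (by rw [hr, hxy])
  obtain ⟨α, hα, hαx⟩ := hf ![c, e] (by
    intro i
    fin_cases i
    · exact hc
    · exact he)
  exact ⟨α, hα, hαx 0, hαx 1⟩

theorem Att.surj_right [Finite G] (h : Att G 2) (x y : G) (hxy : Subgroup.closure {x, y} = ⊤)
    (c : G) (hc : c ∈ commutator G) : ∃ g : G, g * y * g⁻¹ = c * y := by
  obtain ⟨α, hα, -, hy⟩ := h.two x y hxy 1 c (one_mem _) hc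
  obtain ⟨g, hg⟩ := isConj_iff.mp (hα y)
  exact ⟨g, by rw [hg, hy]⟩

theorem Att.pair (h : Att G 2) : ∃ x y : G, Subgroup.closure {x, y} = ⊤ := by
  obtain ⟨x, hx⟩ := h.gen
  refine ⟨x 0, x 1, ?_⟩
  rw [← hx]
  congr 1
  ext q
  constructor
  · rintro (h | h)
    · exact ⟨0, h.symm⟩
    · exact ⟨1, h.symm⟩
  · rintro ⟨i, rfl⟩
    fin_cases i
    · exact Or.inl rfl
    · exact Or.inr rfl

end Pool.Agent.W372.AC
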