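import Mathlib
import Pool.Agent.W372.AC.Base

/-!
Equality `|Aut_c(G)| = |γ₂(G)|^d` and class at least three force `d ≤ 2`.
-/

set_option autoImplicit false

open scoped commutatorElement

namespace Pool.Agent.W372.AC

open Pool.Agent.Helper832.AutC

variable {G : Type} [Group G]

/-- class at most three, in the form `[γ₂, G] ≤ Z(G)` -/
def C3 (G : Type) [Group G] : Prop :=
  ∀ c ∈ commutator G, ∀ g : G, ⁅c, g⁆ ∈ Subgroup.center G

lemma cen_comm {z : G} (hz : z ∈ Subgroup.center G) (g : G) : z * g = g * z :=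
  (Subgroup.mem_center_iff.mp hz g).symm

/-- the pairing `γ₂ × G → Z(G)` of a group of class at most three -/
def br (h : C3 G) (c : commutator G) : G →* Subgroup.center G :=
  MonoidHom.mk' (fun g => ⟨⁅(c : G), g⁆, h c.1 c.2 g⟩) (by
    intro g k
    apply Subtype.ext
    show ⁅(c : G), g * k⁆ = ⁅(c : G), g⁆ * ⁅(c : G), k⁆
    have h1 : ⁅(c : G), g * k⁆ = ⁅(c : G), g⁆ * (g * ⁅(c : G), k⁆ * g⁻¹) := by
      simp only [commutatorElement_def]; group
    rw [h1, ← cen_comm (h c.1 c.2 k) g, mul_inv_cancel_right])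

lemma br_mul_right (h : C3 G) {c : G} (hc : c ∈ commutator G) (g k : G) :
    ⁅c, g * k⁆ = ⁅c, g⁆ * ⁅c, k⁆ :=
  congrArg Subtype.val (map_mul (br h ⟨c, hc⟩) g k)

lemma br_zpow_right (h : C3 G) {c : G} (hc : c ∈ commutator G) (g : G) (n : ℤ) :
    ⁅c, g ^ n⁆ = ⁅c, g⁆ ^ n := by
  exact (congrArg Subtype.val (map_zpow (br h ⟨c, hc⟩) g n)).trans (Subgroup.coe_zpow _ _ _)

lemma br_inv_right (h : C3 G) {c : G} (hc : c ∈ commutator G) (g : G) :
    ⁅c, g⁻¹⁆ = ⁅c, g⁆⁻¹ := by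
  exact (congrArg Subtype.val (map_inv (br h ⟨c, hc⟩) g)).trans (Subgroup.coe_inv _ _)

/-- `γ₂` is abelian -/
lemma ab3 (h : C3 G) {c d : G} (hc : c ∈ commutator G) (hd : d ∈ commutator G) :
    c * d = d * c := by
  have h1 : commutator G ≤ (br h ⟨c, hc⟩).ker := Abelianization.commutator_subset_ker _
  have h2 : ⁅c, d⁆ = 1 := congrArg Subtype.val (MonoidHom.mem_ker.mp (h1 hd))
  exact commutatorElement_eq_one_iff_mul_comm.mp h2

lemma br_mul_left (h : C3 G) {c d : G} (hd : d ∈ commutator G) (g : G) :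
    ⁅c * d, g⁆ = ⁅c, g⁆ * ⁅d, g⁆ := by
  have h1 : ⁅c * d, g⁆ = (c * ⁅d, g⁆ * c⁻¹) * ⁅c, g⁆ := by
    simp only [commutatorElement_def]; group
  rw [h1, ← cen_comm (h d hd g) c, mul_inv_cancel_right, cen_comm (h d hd g)]

lemma br_inv_left (h : C3 G) {c : G} (hc : c ∈ commutator G) (g : G) :
    ⁅c⁻¹, g⁆ = ⁅c, g⁆⁻¹ := by
  have h1 := br_mul_left h (inv_mem hc) g (c := c)
  rw [mul_inv_cancel, commutatorElement_one_left] at h1
  exact (inv_eq_of_mul_eq_one_right h1.symm).symm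

lemma br_conj_left (h : C3 G) {c : G} (hc : c ∈ commutator G) (k g : G) :
    ⁅k * c * k⁻¹, g⁆ = ⁅c, g⁆ := by
  have h1 : k * c * k⁻¹ = ⁅k, c⁆ * c := conj_eq k c
  have h2 : ⁅k, c⁆ ∈ Subgroup.center G := by
    rw [← commutatorElement_inv]
    exact inv_mem (h c hc k)
  rw [h1, br_mul_left h hc]
  have h3 : ⁅⁅k, c⁆, g⁆ = 1 :=
    commutatorElement_eq_one_iff_mul_comm.mpr (cen_comm h2 g)
  rw [h3, one_mul]

/-- the exponent of `x i` in `g`, seen through `[·, y]` -/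
lemma exists_exponent (h : C3 G) {d : ℕ} (x : Fin d → G)
    (hx : Subgroup.closure (Set.range x) = ⊤) (i : Fin d) (y : G) (g : G) :
    ∃ a : ℤ, ∀ c ∈ commutator G, ∀ α ∈ AutC G, α (x i) = c * x i →
      (∀ j, j ≠ i → α (x j) = x j) → ⁅α g * g⁻¹, y⁆ = ⁅c, y⁆ ^ a := by
  have hg : g ∈ Subgroup.closure (Set.range x) := by rw [hx]; trivial
  induction hg using Subgroup.closure_induction with
  | mem v hv =>
    obtain ⟨j, rfl⟩ := hv
    by_cases hj : j = i
    · subst hj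
      refine ⟨1, fun c hc α hα h1 h2 => ?_⟩
      rw [h1, mul_inv_cancel_right, zpow_one]
    · refine ⟨0, fun c hc α hα h1 h2 => ?_⟩
      rw [h2 j hj, mul_inv_cancel, commutatorElement_one_left, zpow_zero]
  | one =>
    refine ⟨0, fun c hc α hα h1 h2 => ?_⟩
    rw [map_one, mul_inv_cancel, commutatorElement_one_left, zpow_zero]
  | mul v w _ _ hv hw =>
    obtain ⟨a, ha⟩ := hv
    obtain ⟨b, hb⟩ := hw
    refine ⟨a + b, fun c hc α hα h1 h2 => ?_⟩
    have e1 : α (v * w) * (v * w)⁻¹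
        = (α v * v⁻¹) * (v * (α w * w⁻¹) * v⁻¹) := by
      rw [map_mul]; group
    have m1 : v * (α w * w⁻¹) * v⁻¹ ∈ commutator G :=
      Subgroup.Normal.conj_mem inferInstance _ (ratio_mem hα w) v
    rw [e1, br_mul_left h m1, br_conj_left h (ratio_mem hα w), ha c hc α hα h1 h2,
      hb c hc α hα h1 h2, zpow_add]
  | inv v _ hv =>
    obtain ⟨a, ha⟩ := hv
    refine ⟨-a, fun c hc α hα h1 h2 => ?_⟩
    have e1 : α v⁻¹ * (v⁻¹)⁻¹ = v⁻¹ * (v * (α v)⁻¹) * (v⁻¹)⁻¹ := by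
      rw [map_inv]; group
    have e2 : v * (α v)⁻¹ = (α v * v⁻¹)⁻¹ := by group
    have m1 : v * (α v)⁻¹ ∈ commutator G := by
      rw [e2]; exact inv_mem (ratio_mem hα v)
    rw [e1, br_conj_left h m1, e2, br_inv_left h (ratio_mem hα v), ha c hc α hα h1 h2, zpow_neg]

/-- class exactly three and equality: at most two generators -/
theorem le_two_of_C3 [Finite G] (h : C3 G) {d : ℕ} (hA : Att G d)
    (hne : ∃ c ∈ commutator G, ∃ g : G, ⁅c, g⁆ ≠ 1) : d ≤ 2 := by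
  classical
  by_contra hd
  push Not at hd
  obtain ⟨x, hx⟩ := hA.gen
  -- a generator that does not centralise `γ₂`
  obtain ⟨i1, hi1⟩ : ∃ i, ∃ c ∈ commutator G, ⁅c, x i⁆ ≠ 1 := by
    by_contra hcon
    push Not at hcon
    obtain ⟨c, hc, g, hg⟩ := hne
    apply hg
    have h1 : Subgroup.closure (Set.range x) ≤ Subgroup.centralizer {c} := by
      rw [Subgroup.closure_le]
      rintro _ ⟨i, rfl⟩
      rw [SetLike.mem_coe, Subgroup.mem_centralizer_iff]
      rintro _ rfl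
      exact commutatorElement_eq_one_iff_mul_comm.mp (hcon i _ hc)
    have h2 : g ∈ Subgroup.centralizer {c} := h1 (by rw [hx]; trivial)
    exact commutatorElement_eq_one_iff_mul_comm.mpr
      (Subgroup.mem_centralizer_iff.mp h2 c rfl)
  obtain ⟨i2, hi2⟩ : ∃ i : Fin d, i ≠ i1 := by
    haveI : Nontrivial (Fin d) := Fin.nontrivial_iff_two_le.mpr (by omega)
    exact exists_ne i1
  obtain ⟨i3, hi31, hi32⟩ : ∃ i : Fin d, i ≠ i1 ∧ i ≠ i2 := by
    have h1 : ({i1, i2} : Finset (Fin d)).card ≤ 2 := Finset.card_le_two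
    have h2 : ∃ i ∈ (Finset.univ : Finset (Fin d)), i ∉ ({i1, i2} : Finset (Fin d)) := by
      apply Finset.exists_mem_notMem_of_card_lt_card
      rw [Finset.card_univ, Fintype.card_fin]
      omega
    obtain ⟨i, _, hi⟩ := h2
    simp only [Finset.mem_insert, Finset.mem_singleton, not_or] at hi
    exact ⟨i, hi.1, hi.2⟩
  have upd : ∀ (y : Fin d → G) (i : Fin d), Full y → ∀ c ∈ commutator G,
      ∃ α ∈ AutC G, α (y i) = c * y i ∧ ∀ j, j ≠ i → α (y j) = y j := by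
    intro y i hy c hc
    obtain ⟨α, hα, hαy⟩ := hy (fun j => if j = i then c else 1) (by
      intro j
      by_cases hj : j = i
      · simp only [hj, if_true]; exact hc
      · simp only [hj, if_false]; exact one_mem _)
    refine ⟨α, hα, ?_, fun j hj => ?_⟩
    · have := hαy i
      simpa using this
    · have := hαy j
      simpa [hj] using this
  have hF := hA.full x hx
  -- first relation
  obtain ⟨g, hg⟩ := hF.surj i1 ⁅x i2, x i3⁆ (comm_mem _ _)
  obtain ⟨a, ha⟩ := exists_exponent h x hx i2 (x i1) g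
  have key1 : ∀ c ∈ commutator G, ⁅c, x i3⁆ = ⁅c, x i1⁆ ^ a := by
    intro c hc
    obtain ⟨α, hα, h1, h2⟩ := upd x i2 hF c hc
    have e1 := congrArg α hg
    rw [map_commutatorElement, map_commutatorElement, h1, h2 i1 hi2.symm, h2 i3 hi32] at e1
    have e2 : ⁅α g, x i1⁆ = ⁅α g * g⁻¹, x i1⁆ * ⁅g, x i1⁆ := by
      have m1 := ratio_mem hα g
      have m2 : ⁅α g * g⁻¹ * g, x i1⁆
          = (α g * g⁻¹) * ⁅g, x i1⁆ * (α g * g⁻¹)⁻¹ * ⁅α g * g⁻¹, x i1⁆ := by
        simp only [commutatorElement_def]; group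
      rw [inv_mul_cancel_right] at m2
      rw [m2, ab3 h m1 (comm_mem g (x i1)), mul_inv_cancel_right,
        cen_comm (h _ m1 (x i1))]
    have e3 : ⁅c * x i2, x i3⁆ = ⁅c, x i3⁆ * ⁅x i2, x i3⁆ := by
      have m2 : ⁅c * x i2, x i3⁆ = c * ⁅x i2, x i3⁆ * c⁻¹ * ⁅c, x i3⁆ := by
        simp only [commutatorElement_def]; group
      rw [m2, ab3 h hc (comm_mem (x i2) (x i3)), mul_inv_cancel_right, cen_comm (h _ hc (x i3))]
    rw [e2, e3, hg] at e1
    have e4 := mul_right_cancel e1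
    rw [← e4, ha c hc α hα h1 h2]
  -- replace `x i3`
  let y : Fin d → G := Function.update x i3 (x i3 * (x i1) ^ (-a))
  have hy3 : y i3 = x i3 * (x i1) ^ (-a) := Function.update_self _ _ _
  have hyj : ∀ j, j ≠ i3 → y j = x j := fun j hj => Function.update_of_ne hj _ _
  have hy : Subgroup.closure (Set.range y) = ⊤ := by
    rw [eq_top_iff, ← hx, Subgroup.closure_le]
    have hm : ∀ j, y j ∈ Subgroup.closure (Set.range y) := fun j =>
      Subgroup.subset_closure ⟨j, rfl⟩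
    rintro _ ⟨j, rfl⟩
    by_cases hj : j = i3
    · subst hj
      have e1 : x j = y j * (y i1) ^ a := by
        rw [hy3, hyj i1 hi31.symm]; group
      rw [SetLike.mem_coe, e1]
      exact mul_mem (hm j) (zpow_mem (hm i1) a)
    · rw [SetLike.mem_coe, ← hyj j hj]
      exact hm j
  have hcen : ∀ c ∈ commutator G, ⁅c, y i3⁆ = 1 := by
    intro c hc
    rw [hy3, br_mul_right h hc, br_zpow_right h hc, key1 c hc, ← zpow_add, add_neg_cancel,
      zpow_zero]
  have hFy := hA.full y hy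
  obtain ⟨k, hk⟩ := hFy.surj i3 ⁅y i1, y i2⁆ (comm_mem _ _)
  obtain ⟨c, hc, hcne⟩ := hi1
  apply hcne
  obtain ⟨α, hα, h1, h2⟩ := upd y i2 hFy c hc
  have e1 := congrArg α hk
  rw [map_commutatorElement, map_commutatorElement, h1, h2 i1 hi2.symm, h2 i3 hi32] at e1
  have e2 : ⁅α k, y i3⁆ = ⁅k, y i3⁆ := by
    have m1 := ratio_mem hα k
    have m2 : ⁅α k * k⁻¹ * k, y i3⁆
        = (α k * k⁻¹) * ⁅k, y i3⁆ * (α k * k⁻¹)⁻¹ * ⁅α k * k⁻¹, y i3⁆ := by
      simp only [commutatorElement_def]; group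
    rw [inv_mul_cancel_right] at m2
    rw [m2, ab3 h m1 (comm_mem k (y i3)), mul_inv_cancel_right, hcen _ m1, mul_one]
  have e3 : ⁅y i1, c * y i2⁆ = ⁅y i1, c⁆ * ⁅y i1, y i2⁆ := by
    have m2 : ⁅y i1, c * y i2⁆ = ⁅y i1, c⁆ * (c * ⁅y i1, y i2⁆ * c⁻¹) := by
      simp only [commutatorElement_def]; group
    rw [m2, ab3 h hc (comm_mem (y i1) (y i2)), mul_inv_cancel_right]
  rw [e2, e3, hk] at e1
  have e4 : ⁅y i1, c⁆ = 1 := by
    have : 1 * ⁅y i1, y i2⁆ = ⁅y i1, c⁆ * ⁅y i1, y i2⁆ := by rw [one_mul]; exact e1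
    exact (mul_right_cancel this).symm
  rw [← commutatorElement_inv, inv_eq_one, hyj i1 hi31.symm] at e4
  exact e4

end Pool.Agent.W372.AC
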