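import Mathlib
import Pool.Agent.W372.AC.Rank

/-!
Tools: suitable normal subgroups, conjugates of a generator that centralises `γ₂`.
-/

set_option autoImplicit false

open scoped commutatorElement

namespace Pool.Agent.W372.AC

open Pool.Agent.Helper832.AutC

variable {G : Type} [Group G]

/-- `γ₃` -/
abbrev g3 (G : Type) [Group G] : Subgroup G := ⁅commutator G, (⊤ : Subgroup G)⁆

/-- `γ₄` -/
abbrev g4 (G : Type) [Group G] : Subgroup G := ⁅g3 G, (⊤ : Subgroup G)⁆

lemma g3_le : g3 G ≤ commutator G := Subgroup.commutator_le_left _ _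

lemma g4_le : g4 G ≤ g3 G := Subgroup.commutator_le_left _ _

lemma mem_g3 {c : G} (hc : c ∈ commutator G) (g : G) : ⁅c, g⁆ ∈ g3 G :=
  Subgroup.commutator_mem_commutator hc (Subgroup.mem_top _)

lemma mem_g3' {c : G} (hc : c ∈ commutator G) (g : G) : ⁅g, c⁆ ∈ g3 G := by
  rw [← commutatorElement_inv]
  exact inv_mem (mem_g3 hc g)

lemma mem_g4 {c : G} (hc : c ∈ g3 G) (g : G) : ⁅c, g⁆ ∈ g4 G :=
  Subgroup.commutator_mem_commutator hc (Subgroup.mem_top _)

lemma mem_g4' {c : G} (hc : c ∈ g3 G) (g : G) : ⁅g, c⁆ ∈ g4 G := by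
  rw [← commutatorElement_inv]
  exact inv_mem (mem_g4 hc g)

lemma map_g3 {H : Type} [Group H] (f : G →* H) (hf : Function.Surjective f) :
    (g3 G).map f = g3 H := by
  rw [g3, Subgroup.map_commutator, map_comm f hf, Subgroup.map_top_of_surjective _ hf]

lemma map_g4 {H : Type} [Group H] (f : G →* H) (hf : Function.Surjective f) :
    (g4 G).map f = g4 H := by
  rw [g4, Subgroup.map_commutator, map_g3 f hf, Subgroup.map_top_of_surjective _ hf]

/-- maximal subgroup of a central elementary section avoiding a given element -/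
theorem exists_max {p : ℕ} [hp : Fact p.Prime] [Finite G] (L H : Subgroup G)
    (hLH : L ≤ H) (hcen : ∀ h ∈ H, ∀ k : G, ⁅h, k⁆ ∈ L) (hexp : ∀ h ∈ H, h ^ p ∈ L) (g : G)
    (hgH : g ∈ H) (hgL : g ∉ L) :
    ∃ N : Subgroup G, N.Normal ∧ L ≤ N ∧ N ≤ H ∧ g ∉ N ∧ ∀ h ∈ H, ∃ i : ℤ, h * g ^ i ∈ N := by
  classical
  let S : Set (Subgroup G) := {N | L ≤ N ∧ N ≤ H ∧ g ∉ N}
  obtain ⟨N, hN⟩ := (Set.toFinite S).exists_maximal ⟨L, le_refl _, hLH, hgL⟩
  obtain ⟨hLN, hNH, hgN⟩ := hN.prop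
  have hnorm : N.Normal := by
    refine ⟨fun n hn k => ?_⟩
    rw [conj_eq]
    refine mul_mem (hLN ?_) hn
    rw [← commutatorElement_inv]
    exact inv_mem (hcen n (hNH hn) k)
  refine ⟨N, hnorm, hLN, hNH, hgN, fun h hh => ?_⟩
  by_cases hhN : h ∈ N
  · exact ⟨0, by rw [zpow_zero, mul_one]; exact hhN⟩
  have h1 : g ∈ N ⊔ Subgroup.zpowers h := by
    by_contra hcon
    have h2 : N ⊔ Subgroup.zpowers h ∈ S := by
      refine ⟨hLN.trans le_sup_left, ?_, hcon⟩
      rw [sup_le_iff, Subgroup.zpowers_le]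
      exact ⟨hNH, hh⟩
    have h3 := hN.le_of_ge h2 le_sup_left
    exact hhN (h3 ((le_sup_right : _ ≤ N ⊔ Subgroup.zpowers h) (Subgroup.mem_zpowers h)))
  obtain ⟨n, hn, z, ⟨j, hj⟩, hz⟩ := Subgroup.mem_sup_of_normal_left.mp h1
  have hj' : h ^ j = z := hj
  let π := QuotientGroup.mk' N
  have hπ : ∀ a : G, π a = 1 ↔ a ∈ N := fun a => QuotientGroup.eq_one_iff a
  have e1 : π g = π h ^ j := by
    rw [← hz, map_mul, (hπ n).mpr hn, one_mul, ← hj', map_zpow]
  have e2 : π h ^ (p : ℤ) = 1 := by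
    rw [zpow_natCast, ← map_pow]
    exact (hπ _).mpr (hLN (hexp h hh))
  have hpj : ¬ (p : ℤ) ∣ j := by
    rintro ⟨k, rfl⟩
    apply hgN
    rw [← hπ, e1, zpow_mul, e2, one_zpow]
  have hco : IsCoprime j (p : ℤ) := by
    rw [isCoprime_comm]
    exact (Prime.coprime_iff_not_dvd (Nat.prime_iff_prime_int.mp hp.out)).mpr hpj
  obtain ⟨r, s, hrs⟩ := hco
  refine ⟨-r, ?_⟩
  rw [← hπ, map_mul, map_zpow, e1, ← zpow_mul]
  have e3 : j * -r = -1 + (p : ℤ) * s := by linarith
  rw [e3, zpow_add, zpow_mul, e2, one_zpow, mul_one, zpow_neg_one, mul_inv_cancel]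

/-- nilpotent groups: `H ≤ N [H, G]` implies `H ≤ N` -/
theorem le_of_le_sup_comm (hnil : Group.IsNilpotent G) (H N : Subgroup G) [N.Normal]
    (h : H ≤ N ⊔ ⁅H, (⊤ : Subgroup G)⁆) : H ≤ N := by
  let π := QuotientGroup.mk' N
  have hs : Function.Surjective π := QuotientGroup.mk'_surjective N
  haveI : Group.IsNilpotent (G ⧸ N) := Group.nilpotent_of_surjective π hs
  have h1 : H.map π ≤ ⁅H.map π, (⊤ : Subgroup (G ⧸ N))⁆ := by
    have h2 := Subgroup.map_mono (f := π) h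
    rw [Subgroup.map_sup, Subgroup.map_commutator, Subgroup.map_top_of_surjective _ hs] at h2
    have h3 : N.map π = ⊥ := by
      rw [Subgroup.map_eq_bot_iff, QuotientGroup.ker_mk']
    rwa [h3, bot_sup_eq] at h2
  have h2 : ∀ k : ℕ, H.map π ≤ (⊤ : Subgroup (G ⧸ N)).lowerCentralSeries k := by
    intro k
    induction k with
    | zero => exact le_top
    | succ k ih =>
      exact h1.trans (Subgroup.commutator_mono ih le_rfl)
  obtain ⟨k, hk⟩ := nilpotent_iff_lowerCentralSeries.mp ‹Group.IsNilpotent (G ⧸ N)›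
  have h3 := h2 k
  rw [hk, le_bot_iff, Subgroup.map_eq_bot_iff, QuotientGroup.ker_mk'] at h3
  exact h3

/-- a normal subgroup containing the commutator of two generators contains `γ₂` -/
theorem comm_le_of_normal (x y : G) (hxy : Subgroup.closure {x, y} = ⊤) (K : Subgroup G)
    [K.Normal] (hK : ⁅x, y⁆ ∈ K) : commutator G ≤ K := by
  let π := QuotientGroup.mk' K
  have hs : Function.Surjective π := QuotientGroup.mk'_surjective K
  have hπ : ∀ a : G, π a = 1 ↔ a ∈ K := fun a => QuotientGroup.eq_one_iff a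
  have hg : Subgroup.closure ({π x, π y} : Set (G ⧸ K)) = ⊤ := by
    have e1 : ({π x, π y} : Set _) = π '' {x, y} := by rw [Set.image_pair]
    rw [e1, ← MonoidHom.map_closure, hxy, Subgroup.map_top_of_surjective _ hs]
  have hc : π x * π y = π y * π x := by
    rw [← commutatorElement_eq_one_iff_mul_comm, ← map_commutatorElement]
    exact (hπ _).mpr hK
  have h1 : (⊤ : Subgroup (G ⧸ K)) ≤ Subgroup.centralizer {π x, π y} := by
    rw [← hg, Subgroup.closure_le]
    rintro _ (rfl | rfl)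
    · rw [SetLike.mem_coe, Subgroup.mem_centralizer_iff]
      rintro _ (rfl | rfl)
      · rfl
      · exact hc.symm
    · rw [SetLike.mem_coe, Subgroup.mem_centralizer_iff]
      rintro _ (rfl | rfl)
      · exact hc
      · rfl
  have h2 : (⊤ : Subgroup (G ⧸ K)) ≤ Subgroup.center (G ⧸ K) := by
    rw [← hg, Subgroup.closure_le]
    rintro a ha
    rw [SetLike.mem_coe, Subgroup.mem_center_iff]
    intro b
    exact (Subgroup.mem_centralizer_iff.mp (h1 (Subgroup.mem_top b)) a ha).symm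
  rw [commutator_def, Subgroup.commutator_le]
  intro a _ b _
  rw [← hπ, map_commutatorElement, commutatorElement_eq_one_iff_mul_comm]
  exact (Subgroup.mem_center_iff.mp (h2 (Subgroup.mem_top (π a))) (π b)).symm

/-- `γ₂ = ⟨u⟩ γ₃` -/
theorem comm_form (x y : G) (hxy : Subgroup.closure {x, y} = ⊤) (c : G)
    (hc : c ∈ commutator G) : ∃ (i : ℤ), ∃ h ∈ g3 G, c = ⁅x, y⁆ ^ i * h := by
  let K : Subgroup G := Subgroup.zpowers ⁅x, y⁆ ⊔ g3 G
  have hKc : K ≤ commutator G := by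
    rw [sup_le_iff, Subgroup.zpowers_le]
    exact ⟨comm_mem x y, g3_le⟩
  haveI : K.Normal := by
    refine ⟨fun n hn k => ?_⟩
    rw [conj_eq]
    exact mul_mem ((le_sup_right : _ ≤ K) (mem_g3' (hKc hn) k)) hn
  have h1 := comm_le_of_normal x y hxy K
    ((le_sup_left : _ ≤ K) (Subgroup.mem_zpowers _)) hc
  obtain ⟨a, ⟨i, hi⟩, b, hb, hab⟩ := Subgroup.mem_sup_of_normal_right.mp h1
  have hi' : ⁅x, y⁆ ^ i = a := hi
  exact ⟨i, b, hb, by rw [hi', hab]⟩

lemma to_nat [Finite G] (x : G) (n : ℤ) : ∃ m : ℕ, x ^ m = x ^ n := by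
  have : x ^ n ∈ Submonoid.powers x := by
    rw [mem_powers_iff_mem_zpowers]; exact ⟨n, rfl⟩
  exact this

/-- if `y` centralises `γ₂`, its conjugates are those under powers of `x` -/
theorem conj_of_cent [Finite G] (x y : G) (hxy : Subgroup.closure {x, y} = ⊤)
    (hy : ∀ c ∈ commutator G, ⁅c, y⁆ = 1) (g : G) :
    ∃ n : ℕ, g * y * g⁻¹ = x ^ n * y * (x ^ n)⁻¹ := by
  have hyc : ∀ k : G, y * (k * y * k⁻¹) * y⁻¹ = k * y * k⁻¹ := by
    intro k
    have h1 := commutatorElement_eq_one_iff_mul_comm.mp (hy _ (comm_mem k y))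
    have e : k * y * k⁻¹ = ⁅k, y⁆ * y := conj_eq k y
    rw [e]
    calc y * (⁅k, y⁆ * y) * y⁻¹ = y * ⁅k, y⁆ := by group
      _ = _ := by rw [← h1]
  have h : ∃ n : ℤ, g * y * g⁻¹ = x ^ n * y * (x ^ n)⁻¹ := by
    have hg : g ∈ Subgroup.closure {x, y} := by rw [hxy]; trivial
    induction hg using Subgroup.closure_induction_left with
    | one => exact ⟨0, by simp⟩
    | mul_left s hs k _ ih =>
      obtain ⟨n, hn⟩ := ih
      rcases hs with rfl | rfl
      · refine ⟨1 + n, ?_⟩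
        calc s * k * y * (s * k)⁻¹ = s * (k * y * k⁻¹) * s⁻¹ := by group
          _ = s * (s ^ n * y * (s ^ n)⁻¹) * s⁻¹ := by rw [hn]
          _ = _ := by group
      · refine ⟨n, ?_⟩
        calc s * k * s * (s * k)⁻¹ = s * (k * s * k⁻¹) * s⁻¹ := by group
          _ = k * s * k⁻¹ := hyc k
          _ = _ := hn
    | inv_mul_cancel s hs k _ ih =>
      obtain ⟨n, hn⟩ := ih
      rcases hs with rfl | rfl
      · refine ⟨-1 + n, ?_⟩
        calc s⁻¹ * k * y * (s⁻¹ * k)⁻¹ = s⁻¹ * (k * y * k⁻¹) * s := by group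
          _ = s⁻¹ * (s ^ n * y * (s ^ n)⁻¹) * s := by rw [hn]
          _ = _ := by group
      · refine ⟨n, ?_⟩
        have h1 : s⁻¹ * (k * s * k⁻¹) * s = k * s * k⁻¹ := by
          conv_lhs => rw [← hyc k]
          group
        calc s⁻¹ * k * s * (s⁻¹ * k)⁻¹ = s⁻¹ * (k * s * k⁻¹) * s := by group
          _ = _ := by rw [h1, hn]
  obtain ⟨n, hn⟩ := h
  obtain ⟨m, hm⟩ := to_nat x n
  exact ⟨m, by rw [hm, hn]⟩

/-- `x^n y x^{-n}` in class three -/
theorem conj_pow3 (x y u z : G) (hu : x * y * x⁻¹ = u * y) (hz : x * u * x⁻¹ = z * u)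
    (hzc : ∀ g, z * g = g * z) (n : ℕ) :
    x ^ n * y * (x ^ n)⁻¹ = u ^ n * z ^ (n.choose 2) * y := by
  have hzk : ∀ (k : ℕ) (g : G), z ^ k * g = g * z ^ k := fun k g => Commute.pow_left (hzc g) k
  induction n with
  | zero => simp
  | succ n ih =>
    have e1 : x * u ^ n * x⁻¹ = z ^ n * u ^ n := by
      rw [← conj_pow, hz]
      exact Commute.mul_pow (hzc u) n
    have e2 : x * z ^ (n.choose 2) * x⁻¹ = z ^ (n.choose 2) := by
      rw [← hzk, mul_inv_cancel_right]
    calc x ^ (n + 1) * y * (x ^ (n + 1))⁻¹ = x * (x ^ n * y * (x ^ n)⁻¹) * x⁻¹ := by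
          rw [pow_succ']; group
      _ = (x * u ^ n * x⁻¹) * (x * z ^ (n.choose 2) * x⁻¹) * (x * y * x⁻¹) := by
          rw [ih]; group
      _ = z ^ n * u ^ n * z ^ (n.choose 2) * (u * y) := by rw [e1, e2, hu]
      _ = u ^ (n + 1) * z ^ ((n + 1).choose 2) * y := by
          have e3 : (n + 1).choose 2 = n + n.choose 2 := by
            rw [Nat.choose_succ_succ' n 1, Nat.choose_one_right]
          rw [e3, pow_add, pow_succ]
          calc z ^ n * u ^ n * z ^ (n.choose 2) * (u * y)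
              = z ^ n * (u ^ n * (z ^ (n.choose 2) * u) * y) := by group
            _ = z ^ n * (u ^ n * (u * z ^ (n.choose 2)) * y) := by rw [hzk (n.choose 2) u]
            _ = z ^ n * (u ^ n * u) * (z ^ (n.choose 2) * y) := by group
            _ = (u ^ n * u) * z ^ n * (z ^ (n.choose 2) * y) := by rw [hzk n (u ^ n * u)]
            _ = _ := by group

end Pool.Agent.W372.AC
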