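import Mathlib
import Pool.Agent.W372.AC.Tools

/-!
Two generators, class at least three: `γ₂` is cyclic unless `p = 2` and `|γ₂ : γ₃| = 2`.
-/

set_option autoImplicit false

open scoped commutatorElement

namespace Pool.Agent.W372.AC

open Pool.Agent.Helper832.AutC

variable {G : Type} [Group G]

lemma g3_cen (h : C3 G) : g3 G ≤ Subgroup.center G := by
  rw [Subgroup.commutator_le]
  intro c hc g _
  exact h c hc g

lemma gen_swap {x y : G} (hxy : Subgroup.closure {x, y} = ⊤) :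
    Subgroup.closure {y, x} = ⊤ := by rw [Set.pair_comm]; exact hxy

lemma gen_shift {x y : G} (hxy : Subgroup.closure {x, y} = ⊤) (k : ℤ) :
    Subgroup.closure {y, x * y ^ k} = ⊤ := by
  rw [eq_top_iff, ← hxy, Subgroup.closure_le]
  have m1 : y ∈ Subgroup.closure ({y, x * y ^ k} : Set G) := Subgroup.subset_closure (Or.inl rfl)
  have m2 : x * y ^ k ∈ Subgroup.closure ({y, x * y ^ k} : Set G) :=
    Subgroup.subset_closure (Or.inr rfl)
  rintro q (hq | hq)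
  · have e : q = (x * y ^ k) * (y ^ k)⁻¹ := by rw [hq]; group
    rw [SetLike.mem_coe, e]
    exact mul_mem m2 (inv_mem (zpow_mem m1 k))
  · rw [SetLike.mem_coe, show q = y from hq]
    exact m1

lemma gen_shift' {x y : G} (hxy : Subgroup.closure {x, y} = ⊤) (k : ℕ) :
    Subgroup.closure {x, x ^ k * y} = ⊤ := by
  rw [eq_top_iff, ← hxy, Subgroup.closure_le]
  have m1 : x ∈ Subgroup.closure ({x, x ^ k * y} : Set G) := Subgroup.subset_closure (Or.inl rfl)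
  have m2 : x ^ k * y ∈ Subgroup.closure ({x, x ^ k * y} : Set G) :=
    Subgroup.subset_closure (Or.inr rfl)
  rintro q (hq | hq)
  · rw [SetLike.mem_coe, show q = x from hq]
    exact m1
  · have e : q = (x ^ k)⁻¹ * (x ^ k * y) := by rw [show q = y from hq]; group
    rw [SetLike.mem_coe, e]
    exact mul_mem (inv_mem (pow_mem m1 k)) m2

lemma cent_of_u (h : C3 G) {x y : G} (hxy : Subgroup.closure {x, y} = ⊤) {v : G}
    (hv : ⁅⁅x, y⁆, v⁆ = 1) : ∀ c ∈ commutator G, ⁅c, v⁆ = 1 := by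
  intro c hc
  obtain ⟨i, d, hd, rfl⟩ := comm_form x y hxy c hc
  have h1 : Commute ⁅x, y⁆ v := commutatorElement_eq_one_iff_mul_comm.mp hv
  have h2 : Commute d v := cen_comm (g3_cen h hd) v
  exact commutatorElement_eq_one_iff_mul_comm.mpr ((h1.zpow_left i).mul_left h2)

/-- a generating pair whose second member centralises `γ₂` -/
theorem adjust {p : ℕ} [hp : Fact p.Prime] (h : C3 G) {x y : G}
    (hxy : Subgroup.closure {x, y} = ⊤) (ζ : G) (hζ : ζ ^ p = 1)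
    (hg3 : ∀ d ∈ g3 G, ∃ i : ℤ, d = ζ ^ i) :
    ∃ x' y' : G, Subgroup.closure {x', y'} = ⊤ ∧ ∀ c ∈ commutator G, ⁅c, y'⁆ = 1 := by
  obtain ⟨i, hi⟩ := hg3 _ (mem_g3 (comm_mem x y) x)
  obtain ⟨j, hj⟩ := hg3 _ (mem_g3 (comm_mem x y) y)
  have hζp : ∀ k : ℤ, ζ ^ ((p : ℤ) * k) = 1 := fun k => by
    rw [zpow_mul, zpow_natCast, hζ, one_zpow]
  by_cases hpj : (p : ℤ) ∣ j
  · obtain ⟨k, rfl⟩ := hpj
    exact ⟨x, y, hxy, cent_of_u h hxy (by rw [hj, hζp])⟩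
  · have hco : IsCoprime j (p : ℤ) := by
      rw [isCoprime_comm]
      exact (Prime.coprime_iff_not_dvd (Nat.prime_iff_prime_int.mp hp.out)).mpr hpj
    obtain ⟨r, s, hrs⟩ := hco
    refine ⟨y, x * y ^ (-(i * r)), gen_shift hxy _, cent_of_u h hxy ?_⟩
    rw [br_mul_right h (comm_mem x y), br_zpow_right h (comm_mem x y), hi, hj, ← zpow_mul,
      ← zpow_add]
    have e : i + j * -(i * r) = (p : ℤ) * (i * s) := by
      have : i = i * (r * j + s * p) := by rw [hrs, mul_one]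
      linear_combination this
    rw [e, hζp]

/-- if `γ₂ ≤ ⟨u⟩ F` with `F` generated by `p`-th powers and commutators of `γ₂` then
`γ₂ = ⟨u⟩` -/
theorem cyclic_of_sup {p : ℕ} [Fact p.Prime] [Finite G] (hG : IsPGroup p G) (D : Subgroup G)
    (u : G) (hu : u ∈ D)
    (h : D ≤ Subgroup.zpowers u ⊔ (Subgroup.closure
      ({g | ∃ c ∈ D, g = c ^ p} ∪ {g | ∃ c ∈ D, ∃ d ∈ D, g = ⁅c, d⁆}))) :
    D = Subgroup.zpowers u := by
  classical
  by_contra hne
  let u' : D := ⟨u, hu⟩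
  have h1 : Subgroup.zpowers u' ≠ ⊤ := by
    intro h2
    apply hne
    apply le_antisymm
    · intro d hd
      have h3 : (⟨d, hd⟩ : D) ∈ Subgroup.zpowers u' := by rw [h2]; trivial
      obtain ⟨i, hi⟩ := h3
      exact ⟨i, congrArg Subtype.val hi⟩
    · rw [Subgroup.zpowers_le]; exact hu
  obtain ⟨M, hM, huM⟩ := (eq_top_or_exists_le_coatom (Subgroup.zpowers u')).resolve_left h1
  obtain ⟨hM1, hM2⟩ := coatom_facts (hG.to_subgroup D) M hM
  apply hM.1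
  rw [eq_top_iff]
  rintro ⟨d, hd⟩ _
  have h2 : Subgroup.zpowers u ⊔ (Subgroup.closure
      ({g | ∃ c ∈ D, g = c ^ p} ∪ {g | ∃ c ∈ D, ∃ d ∈ D, g = ⁅c, d⁆})) ≤ M.map D.subtype := by
    rw [sup_le_iff, Subgroup.zpowers_le, Subgroup.closure_le]
    refine ⟨⟨u', huM (Subgroup.mem_zpowers u'), rfl⟩, ?_⟩
    rintro g (⟨c, hc, rfl⟩ | ⟨c, hc, e, he, rfl⟩)
    · exact ⟨⟨c, hc⟩ ^ p, hM2 _, rfl⟩
    · exact ⟨⁅⟨c, hc⟩, ⟨e, he⟩⁆, hM1 _ _, rfl⟩
  obtain ⟨e, he, hee⟩ := h2 (h hd)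
  have : (⟨d, hd⟩ : D) = e := Subtype.ext hee.symm
  rw [this]; exact he

/-- class three in a quotient by a subgroup containing `γ₄` -/
lemma C3_quot (N : Subgroup G) [N.Normal] (h : g4 G ≤ N) : C3 (G ⧸ N) := by
  intro c hc q
  have hs := QuotientGroup.mk'_surjective N
  rw [← map_comm (QuotientGroup.mk' N) hs] at hc
  obtain ⟨c, hc, rfl⟩ := hc
  obtain ⟨q, rfl⟩ := hs q
  rw [Subgroup.mem_center_iff]
  intro k
  obtain ⟨k, rfl⟩ := hs k
  symm
  rw [← commutatorElement_eq_one_iff_mul_comm, ← map_commutatorElement, ← map_commutatorElement]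
  exact (QuotientGroup.eq_one_iff _).mpr (h (mem_g4 (mem_g3 hc q) k))

lemma gen_quot_pair {x y : G} (hxy : Subgroup.closure {x, y} = ⊤) (N : Subgroup G) [N.Normal] :
    Subgroup.closure ({QuotientGroup.mk' N x, QuotientGroup.mk' N y} : Set (G ⧸ N)) = ⊤ := by
  have e1 : ({QuotientGroup.mk' N x, QuotientGroup.mk' N y} : Set (G ⧸ N))
      = (QuotientGroup.mk' N) '' {x, y} := by rw [Set.image_pair]
  rw [e1, ← MonoidHom.map_closure, hxy,
    Subgroup.map_top_of_surjective _ (QuotientGroup.mk'_surjective N)]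

lemma not_mem_g3 {p : ℕ} [Fact p.Prime] [Finite G] (hG : IsPGroup p G) {x y : G}
    (hxy : Subgroup.closure {x, y} = ⊤) (hu : ⁅x, y⁆ ∈ g3 G) : commutator G = ⊥ := by
  have h1 : commutator G ≤ g3 G := by
    haveI : (g3 G).Normal := inferInstance
    exact comm_le_of_normal x y hxy _ hu
  have h2 := le_of_le_sup_comm hG.isNilpotent (commutator G) ⊥ (by rw [bot_sup_eq]; exact h1)
  exact le_bot_iff.mp h2

theorem nec_cyclic {p : ℕ} [hp : Fact p.Prime] [Finite G] (hG : IsPGroup p G) (hA : Att G 2)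
    {x y : G} (hxy : Subgroup.closure {x, y} = ⊤) (h : p ≠ 2 ∨ ⁅x, y⁆ ^ 2 ∉ g3 G) :
    commutator G = Subgroup.zpowers ⁅x, y⁆ := by
  classical
  let S : Set G := {g | ∃ c ∈ commutator G, g = c ^ p} ∪
    {g | ∃ c ∈ commutator G, ∃ d ∈ commutator G, g = ⁅c, d⁆}
  let F : Subgroup G := Subgroup.closure S
  have hFn : F.Normal := by
    refine ⟨fun n hn k => ?_⟩
    have h1 : F ≤ F.comap (MulAut.conj k).toMonoidHom := by
      rw [Subgroup.closure_le]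
      have hcj : ∀ c ∈ commutator G, k * c * k⁻¹ ∈ commutator G := fun c hc =>
        Subgroup.Normal.conj_mem inferInstance c hc k
      rintro g (⟨c, hc, rfl⟩ | ⟨c, hc, d, hd, rfl⟩)
      · refine Subgroup.subset_closure (Or.inl ⟨k * c * k⁻¹, hcj c hc, ?_⟩)
        show k * c ^ p * k⁻¹ = _
        rw [conj_pow]
      · refine Subgroup.subset_closure (Or.inr ⟨k * c * k⁻¹, hcj c hc, k * d * k⁻¹, hcj d hd, ?_⟩)
        show k * ⁅c, d⁆ * k⁻¹ = _
        simp only [commutatorElement_def]; group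
    exact h1 hn
  by_contra hne
  have hF3 : ¬ g3 G ≤ F := by
    intro h3
    apply hne
    refine cyclic_of_sup hG (commutator G) ⁅x, y⁆ (comm_mem x y) ?_
    intro c hc
    obtain ⟨i, d, hd, rfl⟩ := comm_form x y hxy c hc
    exact mul_mem ((le_sup_left : _ ≤ Subgroup.zpowers ⁅x, y⁆ ⊔ F) ⟨i, rfl⟩)
      ((le_sup_right : _ ≤ Subgroup.zpowers ⁅x, y⁆ ⊔ F) (h3 hd))
  have hF4 : ¬ g3 G ≤ F ⊔ g4 G := fun h4 =>
    hF3 (le_of_le_sup_comm hG.isNilpotent (g3 G) F h4)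
  obtain ⟨g, hg3, hgF⟩ := SetLike.not_le_iff_exists.mp hF4
  obtain ⟨N, hN, hLN, hNH, hgN, hNg⟩ := exists_max (p := p) ((F ⊔ g4 G) ⊓ g3 G) (g3 G) inf_le_right
    (fun h hh k => ⟨(le_sup_right : _ ≤ F ⊔ g4 G) (mem_g4 hh k), g4_le (mem_g4 hh k)⟩)
    (fun h hh => ⟨(le_sup_left : _ ≤ F ⊔ g4 G)
      (Subgroup.subset_closure (Or.inl ⟨h, g3_le hh, rfl⟩)), pow_mem hh p⟩) g hg3
    (fun h => hgF h.1)
  let π := QuotientGroup.mk' N
  have hs : Function.Surjective π := QuotientGroup.mk'_surjective N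
  have hπ : ∀ a : G, π a = 1 ↔ a ∈ N := fun a => QuotientGroup.eq_one_iff a
  have hQ : IsPGroup p (G ⧸ N) := hG.to_quotient N
  have hC : C3 (G ⧸ N) := C3_quot N (fun a ha => hLN ⟨(le_sup_right : _ ≤ F ⊔ g4 G) ha, g4_le ha⟩)
  have hAQ : Att (G ⧸ N) 2 := hA.quot N
  have hζp : (π g) ^ p = 1 := by
    rw [← map_pow, hπ]
    exact hLN ⟨(le_sup_left : _ ≤ F ⊔ g4 G)
      (Subgroup.subset_closure (Or.inl ⟨g, g3_le hg3, rfl⟩)), pow_mem hg3 p⟩
  have hζ1 : π g ≠ 1 := fun h => hgN ((hπ g).mp h)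
  have hg3Q : ∀ d ∈ g3 (G ⧸ N), ∃ i : ℤ, d = (π g) ^ i := by
    intro d hd
    rw [← map_g3 π hs] at hd
    obtain ⟨d, hd, rfl⟩ := hd
    obtain ⟨i, hi⟩ := hNg d hd
    refine ⟨-i, ?_⟩
    rw [← hπ, map_mul, map_zpow] at hi
    rw [zpow_neg]
    exact eq_inv_of_mul_eq_one_left hi
  have hdp : ∀ d ∈ g3 (G ⧸ N), d ^ p = 1 := by
    intro d hd
    obtain ⟨i, rfl⟩ := hg3Q d hd
    rw [← zpow_natCast, ← zpow_mul, mul_comm, zpow_mul, zpow_natCast, hζp, one_zpow]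
  obtain ⟨x', y', hxy', hy'⟩ := adjust hC (gen_quot_pair hxy N) (π g) hζp hg3Q
  have hζ3 : π g ∈ g3 (G ⧸ N) := by
    rw [← map_g3 π hs]; exact ⟨g, hg3, rfl⟩
  obtain ⟨k, hk⟩ := hAQ.surj_right x' y' hxy' (π g) (g3_le hζ3)
  obtain ⟨n, hn⟩ := conj_of_cent x' y' hxy' hy' k
  have hu'3 : ⁅x', y'⁆ ∉ g3 (G ⧸ N) := by
    intro h1
    have h2 := not_mem_g3 hQ hxy' h1
    have h3 : π g ∈ (⊥ : Subgroup (G ⧸ N)) := by rw [← h2]; exact g3_le hζ3
    exact hζ1 (Subgroup.mem_bot.mp h3)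
  have hz : ⁅x', ⁅x', y'⁆⁆ ∈ g3 (G ⧸ N) := mem_g3' (comm_mem _ _) _
  rw [hk, conj_pow3 x' y' ⁅x', y'⁆ ⁅x', ⁅x', y'⁆⁆ (conj_eq _ _) (conj_eq _ _)
    (cen_comm (g3_cen hC hz))] at hn
  have hn' := mul_right_cancel hn
  have hun : ⁅x', y'⁆ ^ n ∈ g3 (G ⧸ N) := by
    have e : ⁅x', y'⁆ ^ n = π g * (⁅x', ⁅x', y'⁆⁆ ^ (n.choose 2))⁻¹ := by rw [hn']; group
    rw [e]
    exact mul_mem hζ3 (inv_mem (pow_mem hz _))
  have hpn : p ∣ n := by
    by_contra hpn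
    apply hu'3
    refine mem_of_zpow_mem hQ _ _ (n : ℤ) (fun h => hpn (by exact_mod_cast h)) ?_
    rw [zpow_natCast]; exact hun
  have hch : p ∣ n.choose 2 := by
    by_cases hp2 : p = 2
    · subst hp2
      have hsq : ⁅x', y'⁆ ^ 2 ∉ g3 (G ⧸ N) := by
        intro h1
        rcases h with h | h
        · exact h rfl
        apply h
        obtain ⟨i, d, hd, hid⟩ := comm_form x' y' hxy' (π ⁅x, y⁆) (by
          rw [← map_comm π hs]; exact ⟨_, comm_mem x y, rfl⟩)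
        have h2 : π (⁅x, y⁆ ^ 2) ∈ g3 (G ⧸ N) := by
          rw [map_pow, hid]
          have hcd : Commute (⁅x', y'⁆ ^ i) d := (cen_comm (g3_cen hC hd) _).symm
          rw [hcd.mul_pow, ← zpow_natCast, ← zpow_mul, mul_comm, zpow_mul, zpow_natCast]
          exact mul_mem (zpow_mem h1 i) (pow_mem hd 2)
        rw [← map_g3 π hs] at h2
        obtain ⟨e, he, hee⟩ := h2
        have h3 : e⁻¹ * ⁅x, y⁆ ^ 2 ∈ N := by
          rw [← hπ, map_mul, map_inv, hee, inv_mul_cancel]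
        have h4 : ⁅x, y⁆ ^ 2 = e * (e⁻¹ * ⁅x, y⁆ ^ 2) := by group
        rw [h4]
        exact mul_mem he (hNH h3)
      obtain ⟨m, rfl⟩ := hpn
      have hm : 2 ∣ m := by
        by_contra hm
        apply hsq
        refine mem_of_zpow_mem hQ _ _ (m : ℤ) (fun h => hm (by exact_mod_cast h)) ?_
        rw [zpow_natCast, ← pow_mul]; exact hun
      obtain ⟨l, rfl⟩ := hm
      rw [Nat.choose_two_right]
      have e1 : 2 * (2 * l) * (2 * (2 * l) - 1) / 2 = 2 * (l * (2 * (2 * l) - 1)) := by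
        have : 2 * (2 * l) * (2 * (2 * l) - 1) = 2 * (2 * (l * (2 * (2 * l) - 1))) := by ring
        rw [this, Nat.mul_div_cancel_left _ (by norm_num)]
      rw [e1]
      exact dvd_mul_right _ _
    · exact dvd_choose_two hp.out hp2 hpn
  apply hζ1
  have e1 : ⁅x', ⁅x', y'⁆⁆ ^ (n.choose 2) = 1 := by
    obtain ⟨l, hl⟩ := hch
    rw [hl, pow_mul, hdp _ hz, one_pow]
  have e2 : ⁅x', y'⁆ ^ n = 1 := by
    obtain ⟨l, rfl⟩ := hpn
    obtain ⟨v, hv, hvu⟩ : ∃ v ∈ commutator G, π v = ⁅x', y'⁆ := by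
      have h1 : ⁅x', y'⁆ ∈ commutator (G ⧸ N) := comm_mem _ _
      rw [← map_comm π hs] at h1
      exact h1
    have h2 : v ^ (p * l) ∈ F := by
      have h20 : v ^ p ∈ F := Subgroup.subset_closure (Or.inl ⟨v, hv, rfl⟩)
      rw [pow_mul]
      exact pow_mem h20 l
    rw [← hvu, ← map_pow] at hun ⊢
    rw [← map_g3 π hs] at hun
    obtain ⟨e, he, hee⟩ := hun
    have h3 : e⁻¹ * v ^ (p * l) ∈ N := by
      rw [← hπ, map_mul, map_inv, hee, inv_mul_cancel]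
    have h4 : v ^ (p * l) ∈ g3 G := by
      have h5 : v ^ (p * l) = e * (e⁻¹ * v ^ (p * l)) := by group
      rw [h5]
      exact mul_mem he (hNH h3)
    rw [hπ]
    exact hLN ⟨(le_sup_left : _ ≤ F ⊔ g4 G) h2, h4⟩
  rw [hn', e1, e2, mul_one]

end Pool.Agent.W372.AC
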