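import Mathlib
import Pool.Agent.W372.AC.NecA

/-!
Two generators, `p = 2`: cyclic `γ₂` and class at most three.
-/

set_option autoImplicit false

open scoped commutatorElement

namespace Pool.Agent.W372.AC

open Pool.Agent.Helper832.AutC

variable {G : Type} [Group G]

lemma central_of_gen {x y v : G} (hxy : Subgroup.closure {x, y} = ⊤) (hx : Commute x v)
    (hy : Commute y v) : v ∈ Subgroup.center G := by
  have h1 : Subgroup.closure {x, y} ≤ Subgroup.centralizer {v} := by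
    rw [Subgroup.closure_le]
    rintro q (hq | hq)
    · rw [SetLike.mem_coe, Subgroup.mem_centralizer_iff]
      rintro _ rfl
      rw [show q = x from hq]; exact hx.symm
    · rw [SetLike.mem_coe, Subgroup.mem_centralizer_iff]
      rintro _ rfl
      rw [show q = y from hq]; exact hy.symm
  rw [Subgroup.mem_center_iff]
  intro g
  have h2 : g ∈ Subgroup.centralizer {v} := h1 (by rw [hxy]; trivial)
  exact (Subgroup.mem_centralizer_iff.mp h2 v rfl).symm

theorem nec_four [Finite G] (hA : Att G 2) (v : G) (hv : commutator G = Subgroup.zpowers v) :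
    ∀ c ∈ commutator G, ∀ g : G, ∃ b ∈ commutator G, ⁅c, g⁆ = b ^ 4 := by
  by_contra hcon
  push Not at hcon
  obtain ⟨c, hc, g, hcg⟩ := hcon
  have hconj : ∀ k : G, ∃ r : ℤ, k * v * k⁻¹ = v ^ r := by
    intro k
    have h1 : k * v * k⁻¹ ∈ commutator G :=
      Subgroup.Normal.conj_mem inferInstance v (by rw [hv]; exact Subgroup.mem_zpowers v) k
    rw [hv] at h1
    obtain ⟨r, hr⟩ := h1
    exact ⟨r, hr.symm⟩
  let N : Subgroup G := Subgroup.zpowers (v ^ 4)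
  have hN : N.Normal := by
    refine ⟨fun n hn k => ?_⟩
    obtain ⟨i, hi⟩ := hn
    have hi' : (v ^ 4) ^ i = n := hi
    obtain ⟨r, hr⟩ := hconj k
    refine ⟨r * i, ?_⟩
    show (v ^ 4) ^ (r * i) = k * n * k⁻¹
    rw [← hi', ← conj_zpow, ← conj_pow, hr]
    simp only [← zpow_natCast, ← zpow_mul]
    congr 1
    push_cast
    ring
  let π := QuotientGroup.mk' N
  have hs : Function.Surjective π := QuotientGroup.mk'_surjective N
  have hπ : ∀ a : G, π a = 1 ↔ a ∈ N := fun a => QuotientGroup.eq_one_iff a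
  have hAQ : Att (G ⧸ N) 2 := hA.quot N
  let w := π v
  have hw4 : w ^ 4 = 1 := by
    show π v ^ 4 = 1
    rw [← map_pow, hπ]; exact Subgroup.mem_zpowers _
  have hcQ : ∀ d ∈ commutator (G ⧸ N), ∃ i : ℤ, d = w ^ i := by
    intro d hd
    rw [← map_comm π hs, hv] at hd
    obtain ⟨d, ⟨i, hi⟩, rfl⟩ := hd
    have hi' : v ^ i = d := hi
    exact ⟨i, by rw [← hi', map_zpow]⟩
  have hne : ⁅π c, π g⁆ ≠ 1 := by
    rw [← map_commutatorElement]
    intro h
    rw [hπ] at h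
    obtain ⟨i, hi⟩ := h
    have hi' : (v ^ 4) ^ i = ⁅c, g⁆ := hi
    refine hcg (v ^ i) (by rw [hv]; exact ⟨i, rfl⟩) ?_
    rw [← hi', ← zpow_natCast, ← zpow_natCast, ← zpow_mul, ← zpow_mul, mul_comm]
  have hwnc : w ∉ Subgroup.center (G ⧸ N) := by
    intro h
    apply hne
    obtain ⟨i, hi⟩ := hcQ (π c) (by rw [← map_comm π hs]; exact ⟨c, hc, rfl⟩)
    rw [hi, commutatorElement_eq_one_iff_mul_comm]
    exact cen_comm (zpow_mem h i) _
  have hw1 : w ≠ 1 := fun h => hwnc (by rw [h]; exact one_mem _)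
  have hcj : ∀ q : G ⧸ N, ∃ r : ℤ, q * w * q⁻¹ = w ^ r := by
    intro q
    obtain ⟨q, rfl⟩ := hs q
    obtain ⟨r, hr⟩ := hconj q
    refine ⟨r, ?_⟩
    show π q * π v * (π q)⁻¹ = π v ^ r
    rw [← map_mul, ← map_inv, ← map_mul, hr, map_zpow]
  have hw2 : w ^ 2 ≠ 1 := by
    intro h
    apply hwnc
    rw [Subgroup.mem_center_iff]
    intro q
    obtain ⟨r, hr⟩ := hcj q
    rcases Int.even_or_odd r with ⟨k, hk⟩ | ⟨k, hk⟩
    · exfalso
      apply hw1
      have h1 : w ^ r = 1 := by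
        rw [hk, ← two_mul, zpow_mul]
        have : w ^ (2 : ℤ) = 1 := by rw [← h]; norm_cast
        rw [this, one_zpow]
      rw [h1] at hr
      have h2 : w = q⁻¹ * 1 * q := by rw [← hr]; group
      rw [h2]; group
    · have h1 : w ^ r = w := by
        rw [hk, zpow_add, zpow_mul, zpow_one]
        have : w ^ (2 : ℤ) = 1 := by rw [← h]; norm_cast
        rw [this, one_zpow, one_mul]
      rw [h1] at hr
      exact mul_inv_eq_iff_eq_mul.mp hr
  have hinv : ∀ q : G ⧸ N, q * w * q⁻¹ = w ∨ q * w * q⁻¹ = w⁻¹ := by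
    intro q
    obtain ⟨r, hr⟩ := hcj q
    have h4 : w ^ (4 : ℤ) = 1 := by rw [← hw4]; norm_cast
    have hr4 : w ^ r = w ^ (r % 4) := by
      conv_lhs => rw [← Int.emod_add_mul_ediv r 4]
      rw [zpow_add, zpow_mul, h4, one_zpow, mul_one]
    have h0 := Int.emod_nonneg r (by norm_num : (4 : ℤ) ≠ 0)
    have h1 := Int.emod_lt_of_pos r (by norm_num : (0 : ℤ) < 4)
    have h5 : (q * w * q⁻¹) ^ 2 ≠ 1 := by
      rw [conj_pow]
      intro h
      apply hw2
      have : w ^ 2 = q⁻¹ * (q * w ^ 2 * q⁻¹) * q := by group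
      rw [this, h]; group
    rw [hr, hr4] at h5 ⊢
    have h6 : r % 4 = 0 ∨ r % 4 = 1 ∨ r % 4 = 2 ∨ r % 4 = 3 := by omega
    rcases h6 with h | h | h | h
    · rw [h] at h5; simp at h5
    · left; rw [h, zpow_one]
    · exfalso
      rw [h] at h5
      apply h5
      rw [← zpow_natCast, ← zpow_mul]
      exact h4
    · right
      rw [h]
      have : w ^ (3 : ℤ) = w ^ (4 : ℤ) * w⁻¹ := by group
      rw [this, h4, one_mul]
  obtain ⟨X, Y, hXY⟩ := hAQ.pair
  have comm_of : ∀ q : G ⧸ N, q * w * q⁻¹ = w → Commute q w := fun q h =>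
    mul_inv_eq_iff_eq_mul.mp h
  obtain ⟨x', y', hg', hx', hy'⟩ : ∃ x' y' : G ⧸ N, Subgroup.closure {x', y'} = ⊤ ∧
      x' * w * x'⁻¹ = w⁻¹ ∧ y' * w * y'⁻¹ = w := by
    rcases hinv X with h1 | h1 <;> rcases hinv Y with h2 | h2
    · exact absurd (central_of_gen hXY (comm_of X h1) (comm_of Y h2)) hwnc
    · exact ⟨Y, X, gen_swap hXY, h2, h1⟩
    · exact ⟨X, Y, hXY, h1, h2⟩
    · refine ⟨X, X ^ 1 * Y, gen_shift' hXY 1, h1, ?_⟩
      calc X ^ 1 * Y * w * (X ^ 1 * Y)⁻¹ = X * (Y * w * Y⁻¹) * X⁻¹ := by group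
        _ = X * w⁻¹ * X⁻¹ := by rw [h2]
        _ = (X * w * X⁻¹)⁻¹ := by group
        _ = w := by rw [h1, inv_inv]
  have hyc : ∀ c ∈ commutator (G ⧸ N), ⁅c, y'⁆ = 1 := by
    intro c hc
    obtain ⟨i, rfl⟩ := hcQ c hc
    exact commutatorElement_eq_one_iff_mul_comm.mpr ((comm_of y' hy').symm.zpow_left i)
  have hxu : x' * ⁅x', y'⁆ * x'⁻¹ = ⁅x', y'⁆⁻¹ := by
    obtain ⟨i, hi⟩ := hcQ _ (comm_mem x' y')
    rw [hi, ← conj_zpow, hx', inv_zpow]
  have hall : ∀ n : ℕ, x' ^ n * y' * (x' ^ n)⁻¹ = y' ∨ x' ^ n * y' * (x' ^ n)⁻¹ = ⁅x', y'⁆ * y' := by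
    intro n
    induction n with
    | zero => left; simp
    | succ n ih =>
      have e : x' ^ (n + 1) * y' * (x' ^ (n + 1))⁻¹ = x' * (x' ^ n * y' * (x' ^ n)⁻¹) * x'⁻¹ := by
        rw [pow_succ']; group
      rcases ih with h | h
      · right; rw [e, h]; exact conj_eq x' y'
      · left
        rw [e, h]
        calc x' * (⁅x', y'⁆ * y') * x'⁻¹ = (x' * ⁅x', y'⁆ * x'⁻¹) * (x' * y' * x'⁻¹) := by group
          _ = ⁅x', y'⁆⁻¹ * (⁅x', y'⁆ * y') := by rw [hxu, conj_eq x' y']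
          _ = y' := by group
  have key : ∀ c ∈ commutator (G ⧸ N), c = 1 ∨ c = ⁅x', y'⁆ := by
    intro c hc
    obtain ⟨k, hk⟩ := hAQ.surj_right x' y' hg' c hc
    obtain ⟨n, hn⟩ := conj_of_cent x' y' hg' hyc k
    rw [hk] at hn
    rcases hall n with h | h
    · left
      rw [h] at hn
      exact mul_eq_right.mp hn
    · right
      rw [h] at hn
      exact mul_right_cancel hn
  have hwc : w ∈ commutator (G ⧸ N) := by
    rw [← map_comm π hs]
    exact ⟨v, by rw [hv]; exact Subgroup.mem_zpowers v, rfl⟩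
  have k1 : w = ⁅x', y'⁆ := (key w hwc).resolve_left hw1
  have k2 : w ^ 2 = ⁅x', y'⁆ := (key (w ^ 2) (pow_mem hwc 2)).resolve_left hw2
  apply hw1
  rw [← k1, pow_two] at k2
  exact mul_eq_left.mp k2

lemma g3_exp2 (hC : C3 G) {x y : G} (hxy : Subgroup.closure {x, y} = ⊤)
    (hu : ⁅x, y⁆ ^ 2 ∈ g3 G) : ∀ d ∈ g3 G, d ^ 2 = 1 := by
  have hsq : ∀ c ∈ commutator G, c * c ∈ Subgroup.center G := by
    intro c hc
    obtain ⟨i, d, hd, rfl⟩ := comm_form x y hxy c hc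
    have hdc := g3_cen hC hd
    have e : ⁅x, y⁆ ^ i * d * (⁅x, y⁆ ^ i * d) = (⁅x, y⁆ ^ 2) ^ i * (d * d) := by
      have h1 := cen_comm hdc (⁅x, y⁆ ^ i * d)
      calc ⁅x, y⁆ ^ i * d * (⁅x, y⁆ ^ i * d) = ⁅x, y⁆ ^ i * (d * (⁅x, y⁆ ^ i * d)) := by group
        _ = ⁅x, y⁆ ^ i * (⁅x, y⁆ ^ i * d * d) := by rw [h1]
        _ = _ := by
          rw [← zpow_natCast, ← zpow_mul]
          have : ((2 : ℕ) : ℤ) * i = i + i := by push_cast; ring
          rw [this, zpow_add]; group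
    rw [e]
    exact mul_mem (zpow_mem (g3_cen hC hu) i) (mul_mem hdc hdc)
  let K : Subgroup G :=
    { carrier := {d | d ∈ Subgroup.center G ∧ d ^ 2 = 1}
      one_mem' := ⟨one_mem _, one_pow 2⟩
      mul_mem' := by
        rintro a b ⟨ha, ha2⟩ ⟨hb, hb2⟩
        refine ⟨mul_mem ha hb, ?_⟩
        have hab : Commute a b := cen_comm ha b
        rw [hab.mul_pow, ha2, hb2, one_mul]
      inv_mem' := by
        rintro a ⟨ha, ha2⟩
        exact ⟨inv_mem ha, by rw [inv_pow, ha2, inv_one]⟩ }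
  have hK : g3 G ≤ K := by
    rw [Subgroup.commutator_le]
    intro c hc g _
    refine ⟨hC c hc g, ?_⟩
    rw [pow_two, ← br_mul_left hC hc, commutatorElement_eq_one_iff_mul_comm]
    exact cen_comm (hsq c hc) g
  exact fun d hd => (hK hd).2

theorem nec_exp2 [Finite G] (hG : IsPGroup 2 G) (hA : Att G 2) (hC : C3 G) {x y : G}
    (hxy : Subgroup.closure {x, y} = ⊤) (hu : ⁅x, y⁆ ^ 2 ∈ g3 G) :
    ∀ c ∈ commutator G, c ^ 2 = 1 := by
  haveI : Fact (Nat.Prime 2) := ⟨Nat.prime_two⟩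
  have h3 := g3_exp2 hC hxy hu
  have hu2 : ⁅x, y⁆ ^ 2 = 1 := by
    by_contra hne
    obtain ⟨N, hN, -, hNH, hgN, hNg⟩ := exists_max (p := 2) ⊥ (g3 G) bot_le
      (fun h hh k => by
        rw [Subgroup.mem_bot, commutatorElement_eq_one_iff_mul_comm]
        exact cen_comm (g3_cen hC hh) k)
      (fun h hh => by rw [Subgroup.mem_bot]; exact h3 h hh) (⁅x, y⁆ ^ 2) hu
      (fun h => hne (Subgroup.mem_bot.mp h))
    let π := QuotientGroup.mk' N
    have hs : Function.Surjective π := QuotientGroup.mk'_surjective N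
    have hπ : ∀ a : G, π a = 1 ↔ a ∈ N := fun a => QuotientGroup.eq_one_iff a
    have hQ : IsPGroup 2 (G ⧸ N) := hG.to_quotient N
    have hCQ : C3 (G ⧸ N) := C3_quot N (by
      rw [Subgroup.commutator_le]
      intro d hd k _
      have : ⁅d, k⁆ = 1 := commutatorElement_eq_one_iff_mul_comm.mpr (cen_comm (g3_cen hC hd) k)
      rw [this]; exact one_mem _)
    have hAQ : Att (G ⧸ N) 2 := hA.quot N
    let ζ := π (⁅x, y⁆ ^ 2)
    have hζp : ζ ^ 2 = 1 := by
      show (π (⁅x, y⁆ ^ 2)) ^ 2 = 1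
      rw [← map_pow, h3 _ hu, map_one]
    have hζ1 : ζ ≠ 1 := fun h => hgN ((hπ _).mp h)
    have hg3Q : ∀ d ∈ g3 (G ⧸ N), ∃ i : ℤ, d = ζ ^ i := by
      intro d hd
      rw [← map_g3 π hs] at hd
      obtain ⟨d, hd, rfl⟩ := hd
      obtain ⟨i, hi⟩ := hNg d hd
      refine ⟨-i, ?_⟩
      rw [← hπ, map_mul, map_zpow] at hi
      rw [zpow_neg]
      exact eq_inv_of_mul_eq_one_left hi
    have hζk : ∀ i : ℤ, ζ ^ i = 1 ∨ ζ ^ i = ζ := by
      intro i
      have h2 : ζ ^ (2 : ℤ) = 1 := by rw [← hζp]; norm_cast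
      rcases Int.even_or_odd i with ⟨k, hk⟩ | ⟨k, hk⟩
      · left; rw [hk, ← two_mul, zpow_mul, h2, one_zpow]
      · right; rw [hk, zpow_add, zpow_mul, h2, one_zpow, zpow_one, one_mul]
    have hdp : ∀ d ∈ g3 (G ⧸ N), d ^ 2 = 1 := by
      intro d hd
      obtain ⟨i, rfl⟩ := hg3Q d hd
      rcases hζk i with h | h
      · rw [h, one_pow]
      · rw [h, hζp]
    have hgenQ := gen_quot_pair hxy N
    obtain ⟨x', y', hxy', hy'⟩ := adjust (p := 2) hCQ hgenQ ζ hζp hg3Q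
    have hζ3 : ζ ∈ g3 (G ⧸ N) := by
      rw [← map_g3 π hs]; exact ⟨_, hu, rfl⟩
    have hform : ∀ (a b : G ⧸ N), Subgroup.closure {a, b} = ⊤ → ∀ c ∈ commutator (G ⧸ N),
        ∃ i : ℤ, c ^ 2 = (⁅a, b⁆ ^ 2) ^ i := by
      intro a b hab c hc
      obtain ⟨i, d, hd, rfl⟩ := comm_form a b hab c hc
      refine ⟨i, ?_⟩
      have hcd : Commute (⁅a, b⁆ ^ i) d := (cen_comm (g3_cen hCQ hd) _).symm
      rw [hcd.mul_pow, hdp d hd, mul_one, ← zpow_natCast, ← zpow_natCast, ← zpow_mul, ← zpow_mul,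
        mul_comm]
    have hu'2 : ⁅x', y'⁆ ^ 2 = ζ := by
      obtain ⟨i, hi⟩ := hform _ _ hgenQ ⁅x', y'⁆ (comm_mem _ _)
      obtain ⟨j, hj⟩ := hform _ _ hxy' (π ⁅x, y⁆) (by
        rw [← map_comm π hs]; exact ⟨_, comm_mem x y, rfl⟩)
      have e1 : ⁅QuotientGroup.mk' N x, QuotientGroup.mk' N y⁆ ^ 2 = ζ := by
        rw [← map_commutatorElement, ← map_pow]
      rw [e1] at hi
      rcases hζk i with h | h
      · exfalso
        apply hζ1
        rw [h] at hi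
        rw [hi, one_zpow, ← map_pow] at hj
        exact hj
      · rw [hi, h]
    have hu'4 : ⁅x', y'⁆ ^ 4 = 1 := by
      have : ⁅x', y'⁆ ^ 4 = (⁅x', y'⁆ ^ 2) ^ 2 := by rw [← pow_mul]
      rw [this, hu'2, hζp]
    have hz : ⁅x', ⁅x', y'⁆⁆ ∈ g3 (G ⧸ N) := mem_g3' (comm_mem _ _) _
    have hzζ : ⁅x', ⁅x', y'⁆⁆ = ζ := by
      obtain ⟨i, hi⟩ := hg3Q _ hz
      rcases hζk i with h | h
      · exfalso
        rw [h] at hi
        have h1 : ⁅x', y'⁆ ∈ Subgroup.center (G ⧸ N) :=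
          central_of_gen hxy' (commutatorElement_eq_one_iff_mul_comm.mp hi)
            (Commute.symm (commutatorElement_eq_one_iff_mul_comm.mp (hy' _ (comm_mem _ _))))
        have h2 := comm_le_of_normal x' y' hxy' (Subgroup.center (G ⧸ N)) h1
        have h4 : g3 (G ⧸ N) ≤ ⊥ := by
          rw [Subgroup.commutator_le]
          intro c hc k _
          rw [Subgroup.mem_bot, commutatorElement_eq_one_iff_mul_comm]
          exact cen_comm (h2 hc) k
        exact hζ1 (Subgroup.mem_bot.mp (h4 hζ3))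
      · rw [hi, h]
    obtain ⟨k, hk⟩ := hAQ.surj_right x' y' hxy' ζ (g3_le hζ3)
    obtain ⟨n, hn⟩ := conj_of_cent x' y' hxy' hy' k
    rw [hk, conj_pow3 x' y' ⁅x', y'⁆ ⁅x', ⁅x', y'⁆⁆ (conj_eq _ _) (conj_eq _ _)
      (cen_comm (g3_cen hCQ hz)), hzζ] at hn
    have hn' := mul_right_cancel hn
    rw [← hu'2, ← pow_mul, ← pow_add] at hn'
    have e1 : n + 2 * n.choose 2 = n * n := by
      have h2 : 2 * n.choose 2 = n * (n - 1) := by
        rw [Nat.choose_two_right, mul_comm, Nat.div_mul_cancel (Nat.even_mul_pred_self n).two_dvd]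
      rw [h2]
      cases n with
      | zero => rfl
      | succ m => simp only [Nat.add_sub_cancel]; ring
    rw [e1] at hn'
    have ho : orderOf ⁅x', y'⁆ = 4 := by
      have : orderOf ⁅x', y'⁆ = 2 ^ (1 + 1) := by
        apply orderOf_eq_prime_pow
        · rw [pow_one, hu'2]; exact hζ1
        · exact hu'4
      rw [this]; norm_num
    have hmod : 2 ≡ n * n [MOD 4] := by
      rw [← ho]; exact pow_eq_pow_iff_modEq.mp hn'
    have hn4 : n % 4 = 0 ∨ n % 4 = 1 ∨ n % 4 = 2 ∨ n % 4 = 3 := by omega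
    unfold Nat.ModEq at hmod
    rw [Nat.mul_mod] at hmod
    rcases hn4 with h | h | h | h <;> rw [h] at hmod <;> norm_num at hmod
  intro c hc
  obtain ⟨i, d, hd, rfl⟩ := comm_form x y hxy c hc
  have hcd : Commute (⁅x, y⁆ ^ i) d := (cen_comm (g3_cen hC hd) _).symm
  rw [hcd.mul_pow, h3 d hd, mul_one, ← zpow_natCast, ← zpow_mul, mul_comm, zpow_mul, zpow_natCast,
    hu2, one_zpow]

end Pool.Agent.W372.AC
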