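import Mathlib
import Pool.Agent.W372.AC.NecB
import Pool.Agent.W372.AC.Abs

/-!
Two generators, `p = 2`: class four is impossible.
-/

set_option autoImplicit false

open scoped commutatorElement

namespace Pool.Agent.W372.AC

open Pool.Agent.Helper832.AutC

variable {G : Type} [Group G]

/-- the situation of class four -/
structure Four (G : Type) [Group G] (w : G) : Prop where
  wc : w ∈ Subgroup.center G
  w1 : w ≠ 1
  w2 : w * w = 1
  sq : ∀ c ∈ commutator G, c * c = 1 ∨ c * c = w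
  h4 : ∀ d ∈ g3 G, ∀ g : G, ⁅g, d⁆ = 1 ∨ ⁅g, d⁆ = w
  nc : ¬ C3 G

lemma Four.wg3 {w : G} (F : Four G w) : w ∈ g3 G := by
  have h := F.nc
  unfold C3 at h
  push Not at h
  obtain ⟨c, hc, g, hg⟩ := h
  rw [Subgroup.mem_center_iff] at hg
  push Not at hg
  obtain ⟨k, hk⟩ := hg
  have h1 := mem_g3 hc g
  rcases F.h4 _ h1 k with h2 | h2
  · exact absurd (commutatorElement_eq_one_iff_mul_comm.mp h2) hk
  · rw [← h2]
    exact mem_g3' (g3_le h1) k

/-- `γ₂` is abelian -/
lemma Four.ab {w : G} (F : Four G w) {x y : G} (hxy : Subgroup.closure {x, y} = ⊤) :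
    ∀ c ∈ commutator G, ∀ d ∈ commutator G, c * d = d * c := by
  have h1 : ∀ d ∈ g3 G, ∀ c ∈ commutator G, c * d = d * c := by
    intro d hd c hc
    have hcen : ∀ g : G, ⁅g, d⁆ ∈ Subgroup.center G := by
      intro g
      rcases F.h4 d hd g with h | h <;> rw [h]
      · exact one_mem _
      · exact F.wc
    let f : G →* Subgroup.center G := MonoidHom.mk' (fun g => ⟨⁅g, d⁆, hcen g⟩) (by
      intro g k
      apply Subtype.ext
      show ⁅g * k, d⁆ = ⁅g, d⁆ * ⁅k, d⁆
      have e1 : ⁅g * k, d⁆ = (g * ⁅k, d⁆ * g⁻¹) * ⁅g, d⁆ := by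
        simp only [commutatorElement_def]; group
      rw [e1, ← cen_comm (hcen k) g, mul_inv_cancel_right, cen_comm (hcen k)])
    have h2 : commutator G ≤ f.ker := Abelianization.commutator_subset_ker _
    have h3 : ⁅c, d⁆ = 1 := congrArg Subtype.val (MonoidHom.mem_ker.mp (h2 hc))
    exact commutatorElement_eq_one_iff_mul_comm.mp h3
  intro c hc d hd
  obtain ⟨i, a, ha, rfl⟩ := comm_form x y hxy c hc
  obtain ⟨j, b, hb, rfl⟩ := comm_form x y hxy d hd
  have c1 : Commute (⁅x, y⁆ ^ i) b := (h1 b hb _ (zpow_mem (comm_mem x y) i))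
  have c2 : Commute a (⁅x, y⁆ ^ j) := (h1 a ha _ (zpow_mem (comm_mem x y) j)).symm
  have c3 : Commute a b := h1 b hb a (g3_le ha)
  have c4 : Commute (⁅x, y⁆ ^ i) (⁅x, y⁆ ^ j) := Commute.zpow_zpow_self _ i j
  exact (c4.mul_right c1).mul_left (c2.mul_right c3)

/-- `γ₂` as an additive module -/
structure Mod (G : Type) [Group G] (A : Type) [AddCommGroup A] where
  v : A → G
  inj : ∀ a b, v a = v b → a = b
  mem : ∀ a, v a ∈ commutator G
  sur : ∀ c ∈ commutator G, ∃ a, v a = c
  add : ∀ a b, v (a + b) = v a * v b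
  cj : G → (A →+ A)
  vcj : ∀ g a, v (cj g a) = g * v a * g⁻¹
  B : AddSubgroup A
  hB : ∀ a, a ∈ B ↔ v a ∈ g3 G

/-- existence of the module -/
theorem exists_mod (hab : ∀ c ∈ commutator G, ∀ d ∈ commutator G, c * d = d * c) :
    ∃ (A : Type) (_ : AddCommGroup A), Nonempty (Mod G A) := by
  letI inst : CommGroup (commutator G) :=
    { (inferInstance : Group (commutator G)) with
      mul_comm := fun a b => Subtype.ext (hab _ a.2 _ b.2) }
  refine ⟨Additive (commutator G), Additive.addCommGroup, ⟨?_⟩⟩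
  refine
    { v := fun a => ((Additive.toMul a : commutator G) : G)
      inj := fun a b h => Additive.toMul.injective (Subtype.ext h)
      mem := fun a => (Additive.toMul a).2
      sur := fun c hc => ⟨Additive.ofMul ⟨c, hc⟩, rfl⟩
      add := fun a b => rfl
      cj := fun g => AddMonoidHom.mk' (fun a => Additive.ofMul
        (⟨g * ((Additive.toMul a : commutator G) : G) * g⁻¹,
          Subgroup.Normal.conj_mem inferInstance _ (Additive.toMul a).2 g⟩ : commutator G)) ?_
      vcj := fun g a => rfl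
      B :=
        { carrier := {a | ((Additive.toMul a : commutator G) : G) ∈ g3 G}
          zero_mem' := one_mem (g3 G)
          add_mem' := fun {a b} ha hb => (g3 G).mul_mem ha hb
          neg_mem' := fun {a} ha => (g3 G).inv_mem ha }
      hB := fun a => Iff.rfl }
  intro a b
  apply Additive.toMul.injective
  apply Subtype.ext
  show g * (((Additive.toMul a : commutator G) : G) * ((Additive.toMul b : commutator G) : G)) * g⁻¹
    = g * ((Additive.toMul a : commutator G) : G) * g⁻¹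
      * (g * ((Additive.toMul b : commutator G) : G) * g⁻¹)
  group

/-- `g = e x^a y^b` -/
lemma form_xy [Finite G] {x y : G} (hxy : Subgroup.closure {x, y} = ⊤) (g : G) :
    ∃ e ∈ commutator G, ∃ a b : ℕ, g = e * (x ^ a * y ^ b) := by
  have h1 : Abelianization.of g ∈ Subgroup.closure {Abelianization.of x, Abelianization.of y} := by
    have e1 : ({Abelianization.of x, Abelianization.of y} : Set (Abelianization G))
        = Abelianization.of '' {x, y} := by rw [Set.image_pair]
    rw [e1, ← MonoidHom.map_closure, hxy]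
    exact ⟨g, trivial, rfl⟩
  rw [Subgroup.mem_closure_pair] at h1
  obtain ⟨m, n, hmn⟩ := h1
  obtain ⟨a, ha⟩ := to_nat x m
  obtain ⟨b, hb⟩ := to_nat y n
  refine ⟨g * (x ^ a * y ^ b)⁻¹, ?_, a, b, by group⟩
  have h2 : Abelianization.of (g * (x ^ a * y ^ b)⁻¹) = 1 := by
    rw [ha, hb, map_mul, map_inv, map_mul, map_zpow, map_zpow, hmn, mul_inv_cancel]
  have h3 : g * (x ^ a * y ^ b)⁻¹ ∈ (Abelianization.of : G →* Abelianization G).ker := h2
  rwa [Abelianization.ker_of] at h3

theorem Four.dat [Finite G] {w : G} (F : Four G w) (hG : IsPGroup 2 G) (hA : Att G 2)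
    {A : Type} [AddCommGroup A] (M : Mod G A) {x y : G} (hxy : Subgroup.closure {x, y} = ⊤)
    {U W : A} (vU : M.v U = ⁅x, y⁆) (vW : M.v W = w) :
    Dat (M.cj x) (M.cj y) M.B U W := by
  haveI : Fact (Nat.Prime 2) := ⟨Nat.prime_two⟩
  have hab := F.ab hxy
  obtain ⟨v, vinj, vmem, mkv, vadd, cjh, vcj, B, hB⟩ := M
  change v U = ⁅x, y⁆ at vU
  change v W = w at vW
  show Dat (cjh x) (cjh y) B U W
  have v0 : v 0 = 1 := by
    have h1 := vadd 0 0
    rw [add_zero] at h1
    exact (mul_eq_left.mp h1.symm)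
  have vneg : ∀ a, v (-a) = (v a)⁻¹ := by
    intro a
    have h1 := vadd (-a) a
    rw [neg_add_cancel, v0] at h1
    exact eq_inv_of_mul_eq_one_left h1.symm
  have vsub : ∀ a b, v (a - b) = v a * (v b)⁻¹ := fun a b => by
    rw [sub_eq_add_neg, vadd, vneg]
  have vcjs : ∀ g a, v (cjh g a - a) = ⁅g, v a⁆ := fun g a => by
    rw [vsub, vcj, commutatorElement_def]
  have hcomm : ∀ a, cjh x (cjh y a) = cjh y (cjh x a) := by
    intro a
    apply vinj
    rw [vcj, vcj, vcj, vcj]
    have h1 := hab _ (comm_mem x y) _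
      (Subgroup.Normal.conj_mem (inferInstance : (commutator G).Normal) _ (vmem a) (y * x))
    have e1 : x * (y * v a * y⁻¹) * x⁻¹ = ⁅x, y⁆ * (y * x * v a * (y * x)⁻¹) * ⁅x, y⁆⁻¹ := by
      rw [commutatorElement_def]; group
    rw [e1, h1]; group
  have iter : ∀ (g : G) (n : ℕ) a, v ((cjh g)^[n] a) = g ^ n * v a * (g ^ n)⁻¹ := by
    intro g n a
    induction n with
    | zero => simp
    | succ n ih =>
      rw [Function.iterate_succ_apply', vcj, ih, pow_succ']; group
  have hSm : ∀ n : ℕ, x ^ n * y * (x ^ n)⁻¹ = v (Sm (cjh x) U n) * y := by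
    intro n
    induction n with
    | zero => simp [Sm, v0]
    | succ n ih =>
      have e1 : v (Sm (cjh x) U (n + 1)) = (x * v (Sm (cjh x) U n) * x⁻¹) * ⁅x, y⁆ := by
        show v (cjh x (Sm (cjh x) U n) + U) = _
        rw [vadd, vcj, vU]
      calc x ^ (n + 1) * y * (x ^ (n + 1))⁻¹ = x * (x ^ n * y * (x ^ n)⁻¹) * x⁻¹ := by
            rw [pow_succ']; group
        _ = (x * v (Sm (cjh x) U n) * x⁻¹) * (x * y * x⁻¹) := by rw [ih]; group
        _ = _ := by rw [conj_eq x y, e1]; group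
  -- the automorphisms
  have haut : ∀ e, ∃ α ∈ AutC G, α x = v e * x ∧ α y = y ∧ α ⁅x, y⁆ = v (U + (e - cjh y e)) := by
    intro e
    obtain ⟨α, hα, h1, h2⟩ := hA.two x y hxy (v e) 1 (vmem e) (one_mem _)
    rw [one_mul] at h2
    refine ⟨α, hα, h1, h2, ?_⟩
    rw [map_commutatorElement, h1, h2, vadd, vsub, vcj, vU]
    have e1 : ⁅v e * x, y⁆ = (v e * ⁅x, y⁆ * (v e)⁻¹) * (v e * (y * v e * y⁻¹)⁻¹) := by
      simp only [commutatorElement_def]; group
    rw [e1, hab _ (vmem e) _ (comm_mem x y), mul_inv_cancel_right]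
  have hne3 : ⁅x, y⁆ ∉ g3 G := by
    intro h
    have h1 := not_mem_g3 hG hxy h
    apply F.nc
    intro c hc g
    rw [h1, Subgroup.mem_bot] at hc
    rw [hc, commutatorElement_one_left]
    exact one_mem _
  refine
    { comm := hcomm
      Xw := ?_
      Yw := ?_
      w2 := ?_
      w1 := ?_
      sq := ?_
      wB := (hB _).mpr (by rw [vW]; exact F.wg3)
      XB := ?_
      YB := ?_
      X4 := ?_
      Y4 := ?_
      uB := fun h => hne3 (by rw [← vU]; exact (hB _).mp h)
      nc := ?_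
      gen := ?_
      H1 := ?_
      H2 := ?_
      H3 := ?_ }
  · apply vinj
    rw [vcj, vW]
    rw [← cen_comm F.wc x, mul_inv_cancel_right]
  · apply vinj
    rw [vcj, vW]
    rw [← cen_comm F.wc y, mul_inv_cancel_right]
  · apply vinj
    rw [vadd, v0, vW]; exact F.w2
  · intro h
    have h1 := congrArg v h
    rw [v0, vW] at h1
    exact F.w1 h1
  · intro a
    rcases F.sq _ (vmem a) with h | h
    · left; apply vinj; rw [vadd, v0]; exact h
    · right; apply vinj; rw [vadd, vW]; exact h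
  · intro a
    rw [hB]
    have := vcjs x a
    change v (cjh x a - a) ∈ g3 G
    rw [this]
    exact mem_g3' (vmem a) x
  · intro a
    rw [hB]
    have := vcjs y a
    change v (cjh y a - a) ∈ g3 G
    rw [this]
    exact mem_g3' (vmem a) y
  · intro d hd
    rcases F.h4 _ ((hB d).mp hd) x with h | h
    · left; apply vinj; rw [vcjs, v0]; exact h
    · right; apply vinj; rw [vcjs, vW]; exact h
  · intro d hd
    rcases F.h4 _ ((hB d).mp hd) y with h | h
    · left; apply vinj; rw [vcjs, v0]; exact h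
    · right; apply vinj; rw [vcjs, vW]; exact h
  · rintro ⟨h1, h2, h3, h4⟩
    have cc : ∀ g a, cjh g a = a → Commute g (v a) := by
      intro g a h
      have := congrArg v h
      rw [vcj] at this
      exact mul_inv_eq_iff_eq_mul.mp this
    have hs : v (cjh x U - U) ∈ Subgroup.center G :=
      central_of_gen hxy (cc _ _ h1) (cc _ _ h2)
    have ht : v (cjh y U - U) ∈ Subgroup.center G :=
      central_of_gen hxy (cc _ _ h3) (cc _ _ h4)
    rw [vcjs, vU] at hs ht
    apply F.nc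
    let π := QuotientGroup.mk' (Subgroup.center G)
    have hπs : Function.Surjective π := QuotientGroup.mk'_surjective _
    have hπ : ∀ a : G, π a = 1 ↔ a ∈ Subgroup.center G := fun a => QuotientGroup.eq_one_iff a
    have hu : π ⁅x, y⁆ ∈ Subgroup.center (G ⧸ Subgroup.center G) := by
      refine central_of_gen (gen_quot_pair hxy (Subgroup.center G)) ?_ ?_
      · exact commutatorElement_eq_one_iff_mul_comm.mp (by
          rw [← map_commutatorElement]; exact (hπ _).mpr hs)
      · exact commutatorElement_eq_one_iff_mul_comm.mp (by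
          rw [← map_commutatorElement]; exact (hπ _).mpr ht)
    have hK := comm_le_of_normal x y hxy ((Subgroup.center (G ⧸ Subgroup.center G)).comap π) hu
    intro c hc g
    rw [← hπ, map_commutatorElement, commutatorElement_eq_one_iff_mul_comm]
    exact cen_comm (hK hc) (π g)
  · intro K hu hX hY
    -- translate to a normal subgroup of `G`
    let K' : Subgroup G :=
      { carrier := {c | ∃ a ∈ K, v a = c}
        one_mem' := ⟨0, K.zero_mem, v0⟩
        mul_mem' := by
          rintro _ _ ⟨a, ha, rfl⟩ ⟨b, hb, rfl⟩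
          exact ⟨a + b, K.add_mem ha hb, vadd a b⟩
        inv_mem' := by
          rintro _ ⟨a, ha, rfl⟩
          exact ⟨-a, K.neg_mem ha, vneg a⟩ }
    have stab : ∀ g : G, ∀ a ∈ K, cjh g a ∈ K := by
      intro g a ha
      obtain ⟨e, he, i, j, rfl⟩ := form_xy hxy g
      have hit : ∀ (f : A →+ A) (n : ℕ),
          (∀ c ∈ K, f c ∈ K) → ∀ c ∈ K, f^[n] c ∈ K := by
        intro f n hf c hc
        induction n with
        | zero => exact hc
        | succ n ih =>
          rw [Function.iterate_succ_apply']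
          exact hf _ ih
      have e1 : cjh (e * (x ^ i * y ^ j)) a = (cjh x)^[i] ((cjh y)^[j] a) := by
        apply vinj
        rw [vcj, iter, iter]
        have h1 := hab _ he _ (Subgroup.Normal.conj_mem (inferInstance : (commutator G).Normal) _
          (vmem a) (x ^ i * y ^ j))
        calc e * (x ^ i * y ^ j) * v a * (e * (x ^ i * y ^ j))⁻¹
            = e * ((x ^ i * y ^ j) * v a * (x ^ i * y ^ j)⁻¹) * e⁻¹ := by group
          _ = _ := by rw [h1]; group
      rw [e1]
      exact hit _ _ hX _ (hit _ _ hY _ ha)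
    haveI : K'.Normal := by
      refine ⟨?_⟩
      rintro _ ⟨a, ha, rfl⟩ g
      exact ⟨cjh g a, stab g a ha, vcj g a⟩
    have h1 := comm_le_of_normal x y hxy K' ⟨U, hu, vU⟩
    rw [eq_top_iff]
    intro a _
    obtain ⟨b, hb, hbv⟩ := h1 (vmem a)
    rw [← vinj b a hbv]
    exact hb
  · intro c
    obtain ⟨g, hg⟩ := hA.surj_right x y hxy (v c) (vmem c)
    obtain ⟨e, he, a, b, rfl⟩ := form_xy hxy g
    obtain ⟨E, hE⟩ := mkv e he
    refine ⟨a, E, ?_⟩
    apply vinj
    rw [vadd, vsub, vcj]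
    have e1 : e * (x ^ a * y ^ b) * y * (e * (x ^ a * y ^ b))⁻¹
        = e * (x ^ a * y * (x ^ a)⁻¹) * e⁻¹ := by group
    rw [e1, hSm a] at hg
    have e2 : v c = e * v (Sm (cjh x) U a) * (y * e⁻¹ * y⁻¹) := by
      have : v c = (v c * y) * y⁻¹ := by group
      rw [this, ← hg]; group
    rw [e2, hab _ he _ (vmem _), hE]; group
  · intro e
    obtain ⟨α, hα, h1, h2, h3⟩ := haut e
    obtain ⟨g, hg⟩ := isConj_iff.mp (hα ⁅x, y⁆)
    obtain ⟨k, hk, a, b, rfl⟩ := form_xy hxy g
    refine ⟨a, b, ?_⟩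
    apply vinj
    rw [iter, iter]
    show v (U + (e - cjh y e)) = _
    rw [← h3, ← hg]
    have h4 := hab _ hk _ (Subgroup.Normal.conj_mem (inferInstance : (commutator G).Normal) _
      (comm_mem x y) (x ^ a * y ^ b))
    calc k * (x ^ a * y ^ b) * ⁅x, y⁆ * (k * (x ^ a * y ^ b))⁻¹
        = k * ((x ^ a * y ^ b) * ⁅x, y⁆ * (x ^ a * y ^ b)⁻¹) * k⁻¹ := by group
      _ = (x ^ a * y ^ b) * ⁅x, y⁆ * (x ^ a * y ^ b)⁻¹ := by rw [h4, mul_inv_cancel_right]
      _ = x ^ a * (y ^ b * v U * (y ^ b)⁻¹) * (x ^ a)⁻¹ := by rw [vU]; group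
  · intro e
    obtain ⟨α, hα, h1, h2, h3⟩ := haut e
    obtain ⟨g, hg⟩ := isConj_iff.mp (hα (y * y * ⁅x, y⁆))
    obtain ⟨k, hk, a, b, rfl⟩ := form_xy hxy g
    obtain ⟨E, hE⟩ := mkv k hk
    refine ⟨a, b, E, ?_⟩
    apply vinj
    rw [map_mul, map_mul, h2, h3] at hg
    have e1 : k * (x ^ a * y ^ b) * (y * y * ⁅x, y⁆) * (k * (x ^ a * y ^ b))⁻¹
        = k * ((x ^ a * y * (x ^ a)⁻¹) * (x ^ a * y * (x ^ a)⁻¹)
          * (x ^ a * (y ^ b * v U * (y ^ b)⁻¹) * (x ^ a)⁻¹)) * k⁻¹ := by
      rw [vU]; group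
    rw [e1, hSm a] at hg
    have e2 : v (cjh y (cjh y (U + (e - cjh y e)))) = y * y * v (U + (e - cjh y e)) * (y * y)⁻¹ := by
      rw [vcj, vcj]; group
    show v (cjh y (cjh y (U + (e - cjh y e)))) = _
    rw [e2, ← hg]
    have e3 : v ((Sm (cjh x) U a + cjh y (Sm (cjh x) U a))
        + cjh y (cjh y ((cjh x)^[a] ((cjh y)^[b] U))) + (E - cjh y (cjh y E)))
        = (v (Sm (cjh x) U a) * (y * v (Sm (cjh x) U a) * y⁻¹))
          * (y * (y * (x ^ a * (y ^ b * v U * (y ^ b)⁻¹) * (x ^ a)⁻¹) * y⁻¹) * y⁻¹)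
          * (v E * (y * (y * v E * y⁻¹) * y⁻¹)⁻¹) := by
      rw [vadd, vadd, vadd, vsub, vcj, vcj, vcj, vcj, vcj, iter, iter]
    show _ = v ((Sm (cjh x) U a + cjh y (Sm (cjh x) U a))
        + cjh y (cjh y ((cjh x)^[a] ((cjh y)^[b] U))) + (E - cjh y (cjh y E)))
    rw [e3, hE]
    generalize hP : x ^ a * (y ^ b * v U * (y ^ b)⁻¹) * (x ^ a)⁻¹ = P
    have hPm : P ∈ commutator G := by
      rw [← hP]
      exact Subgroup.Normal.conj_mem inferInstance _
        (Subgroup.Normal.conj_mem inferInstance _ (vmem U) _) _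
    have hSmem := vmem (Sm (cjh x) U a)
    generalize v (Sm (cjh x) U a) = S at *
    have m1 : S * (y * S * y⁻¹) * (y * (y * P * y⁻¹) * y⁻¹) ∈ commutator G := by
      refine mul_mem (mul_mem hSmem (Subgroup.Normal.conj_mem inferInstance _ hSmem _)) ?_
      exact Subgroup.Normal.conj_mem inferInstance _
        (Subgroup.Normal.conj_mem inferInstance _ hPm _) _
    have h5 := hab _ hk _ m1
    calc k * (S * y * (S * y) * P) * k⁻¹ * (y * y)⁻¹
        = k * (S * (y * S * y⁻¹) * (y * (y * P * y⁻¹) * y⁻¹))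
          * (y * (y * k * y⁻¹) * y⁻¹)⁻¹ := by group
      _ = _ := by rw [h5]; group

end Pool.Agent.W372.AC
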