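import Mathlib
import Pool.Agent.W372.AC.NecC

/-!
Two generators, `p = 2`: class four is impossible (conclusion).
-/

set_option autoImplicit false

open scoped commutatorElement

namespace Pool.Agent.W372.AC

open Pool.Agent.Helper832.AutC

variable {G : Type} [Group G]

lemma gen_mul {x y : G} (hxy : Subgroup.closure {x, y} = ⊤) :
    Subgroup.closure {x, x * y} = ⊤ := by
  have h := gen_shift' hxy 1
  rwa [pow_one] at h

theorem Four.false [Finite G] {w : G} (F : Four G w) (hG : IsPGroup 2 G) (hA : Att G 2) :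
    False := by
  obtain ⟨x, y, hxy⟩ := hA.pair
  obtain ⟨A, inst, ⟨M⟩⟩ := exists_mod (F.ab hxy)
  obtain ⟨W, hW⟩ := M.sur w (g3_le F.wg3)
  have v0 : M.v 0 = 1 := by
    have h1 := M.add 0 0
    rw [add_zero] at h1
    exact (mul_eq_left.mp h1.symm)
  have vneg : ∀ a, M.v (-a) = (M.v a)⁻¹ := by
    intro a
    have h1 := M.add (-a) a
    rw [neg_add_cancel, v0] at h1
    exact eq_inv_of_mul_eq_one_left h1.symm
  have e3 : ∀ (a b : G) c, M.cj (a * b) c = M.cj a (M.cj b c) := by
    intro a b c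
    apply M.inj
    rw [M.vcj, M.vcj, M.vcj]; group
  have hsw : ∀ a b : G, ∀ U, M.v U = ⁅a, b⁆ → M.v (-U) = ⁅b, a⁆ := by
    intro a b U hU
    rw [vneg, hU, commutatorElement_inv]
  have hml : ∀ a b : G, ∀ U, M.v U = ⁅a, b⁆ → M.v (M.cj a U) = ⁅a, a * b⁆ := by
    intro a b U hU
    rw [M.vcj, hU, commutatorElement_def, commutatorElement_def]; group
  have hW2 : W + W = 0 := by
    apply M.inj
    rw [M.add, v0, hW, F.w2]
  have hWneg : -W = W := neg_eq_of_add_eq_zero_left hW2
  have nz : ∀ a b : G, Subgroup.closure {a, b} = ⊤ → ∀ U, M.v U = ⁅a, b⁆ →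
      M.cj b U - U ≠ 0 ∧ M.cj b U - U ≠ W := by
    intro a b hab U hU
    have D := F.dat hG hA M hab hU hW
    have D' := F.dat hG hA M (gen_shift' hab 2) (U := M.cj a (M.cj a U)) (by
      rw [M.vcj, M.vcj, hU, commutatorElement_def, commutatorElement_def, pow_two]; group) hW
    exact D.X0b D' (fun c => by
      apply M.inj
      rw [M.vcj, M.vcj, M.vcj, M.vcj, pow_two]; group) rfl
  have one : ∀ a b : G, Subgroup.closure {a, b} = ⊤ → ∀ U, M.v U = ⁅a, b⁆ →
      M.cj b (M.cj b U - U) - (M.cj b U - U) ≠ 0 := by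
    intro a b hab U hU hq
    have D := F.dat hG hA M hab hU hW
    have n1 := nz a b hab U hU
    have n2 := nz b a (gen_swap hab) (-U) (hsw a b U hU)
    have n3 := nz a (a * b) (gen_mul hab) (M.cj a U) (hml a b U hU)
    have e2 : M.cj a (-U) - (-U) = -(M.cj a U - U) := by rw [map_neg]; abel
    rw [e2] at n2
    have n2' : M.cj a U - U ≠ 0 ∧ M.cj a U - U ≠ W :=
      ⟨fun h => n2.1 (by rw [h, neg_zero]), fun h => n2.2 (by rw [h, hWneg])⟩
    rw [e3] at n3
    exact D.X1 hq n1 n2' n3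
  obtain ⟨U, hU⟩ := M.sur ⁅x, y⁆ (comm_mem x y)
  have D := F.dat hG hA M hxy hU hW
  have o1 := one x y hxy U hU
  have o2 := one y x (gen_swap hxy) (-U) (hsw x y U hU)
  have o3 := one x (x * y) (gen_mul hxy) (M.cj x U) (hml x y U hU)
  rw [e3, e3] at o3
  have e2 : M.cj x (M.cj x (-U) - (-U)) - (M.cj x (-U) - (-U))
      = -(M.cj x (M.cj x U - U) - (M.cj x U - U)) := by
    have e4 : M.cj x (-U) - (-U) = -(M.cj x U - U) := by rw [map_neg]; abel
    rw [e4, map_neg]; abel
  have o2' : M.cj x (M.cj x U - U) - (M.cj x U - U) ≠ 0 := fun h => o2 (by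
    rw [e2, h, neg_zero])
  have q1 := (D.Y4 _ (D.YB U)).resolve_left o1
  have q2 := (D.X4 _ (D.XB U)).resolve_left o2'
  have hs2 := D.s2 U
  have ht2 := D.t2 U
  have hm := D.X4 _ (D.YB U)
  have hYs : M.cj y (M.cj x U - U) - (M.cj x U - U)
      = M.cj x (M.cj y U - U) - (M.cj y U - U) := by
    rw [map_sub, map_sub, ← D.comm]; abel
  have hXU : M.cj x U = U + (M.cj x U - U) := by abel
  have hYU : M.cj y U = U + (M.cj y U - U) := by abel
  have hXs : M.cj x (M.cj x U - U) = (M.cj x U - U) + W := by rw [← q2]; abel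
  have hYt : M.cj y (M.cj y U - U) = (M.cj y U - U) + W := by rw [← q1]; abel
  have hXt : M.cj x (M.cj y U - U)
      = (M.cj y U - U) + (M.cj x (M.cj y U - U) - (M.cj y U - U)) := by abel
  have hYs' : M.cj y (M.cj x U - U)
      = (M.cj x U - U) + (M.cj x (M.cj y U - U) - (M.cj y U - U)) := by rw [← hYs]; abel
  have hXW := D.Xw
  have hYW := D.Yw
  clear hYs q1 q2 o1 o2 o2' e2 nz one
  generalize M.cj x (M.cj y U - U) - (M.cj y U - U) = m at *
  generalize hs : M.cj x U - U = s at *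
  generalize ht : M.cj y U - U = t at *
  have hXm : M.cj x m = m := by
    rcases hm with h | h
    · rw [h, map_zero]
    · rw [h, hXW]
  have hm2 : m + m = 0 := by
    rcases hm with h | h
    · rw [h, add_zero]
    · rw [h, hW2]
  have hr : M.cj x (M.cj y (M.cj x U)) - M.cj x U = s + t + W := by
    rw [hXU, map_add, hYU, hYs', map_add, map_add, map_add, hXU, hXt, hXs, hXm]
    have : U + s + (t + m) + (s + W + m) - (U + s) = s + t + W + (m + m) := by abel
    rw [this, hm2, add_zero]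
  apply o3
  rw [hr]
  have e5 : M.cj y (s + t + W) = s + m + (t + W) + W := by
    rw [map_add, map_add, hYs', hYt, hYW]
  rw [e5]
  have e6 : M.cj x (s + m + (t + W) + W) = s + W + m + (t + m + W) + W := by
    rw [map_add, map_add, map_add, map_add, hXs, hXt, hXW, hXm]
  rw [e6]
  have : s + W + m + (t + m + W) + W - (s + t + W) = (W + W) + (m + m) := by abel
  rw [this, hW2, hm2, add_zero]

/-- squares of `γ₂` lie in `γ₄` -/
lemma sq_g4 [Finite G] (hG : IsPGroup 2 G) (hA : Att G 2) {x y : G}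
    (hxy : Subgroup.closure {x, y} = ⊤) (hu : ⁅x, y⁆ ^ 2 ∈ g3 G) :
    ∀ c ∈ commutator G, c ^ 2 ∈ g4 G := by
  intro c hc
  let π := QuotientGroup.mk' (g4 G)
  have hs : Function.Surjective π := QuotientGroup.mk'_surjective _
  have h1 := nec_exp2 (hG.to_quotient (g4 G)) (hA.quot (g4 G)) (C3_quot (g4 G) le_rfl)
    (gen_quot_pair hxy (g4 G)) (by
      rw [← map_commutatorElement, ← map_pow, ← map_g3 π hs]
      exact ⟨_, hu, rfl⟩) (π c) (by
      rw [← map_comm π hs]
      exact ⟨c, hc, rfl⟩)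
  rw [← map_pow] at h1
  exact (QuotientGroup.eq_one_iff _).mp h1

theorem g4_bot [Finite G] (hG : IsPGroup 2 G) (hA : Att G 2) {x y : G}
    (hxy : Subgroup.closure {x, y} = ⊤) (hu : ⁅x, y⁆ ^ 2 ∈ g3 G) : g4 G = ⊥ := by
  by_contra hne
  have : Fact (Nat.Prime 2) := ⟨Nat.prime_two⟩
  have hsq := sq_g4 hG hA hxy hu
  let L : Subgroup G := ⁅g4 G, (⊤ : Subgroup G)⁆
  have hLle : L ≤ g4 G := Subgroup.commutator_le_left _ _
  have hex : ∃ g ∈ g4 G, g ∉ L := by
    by_contra hcon
    push Not at hcon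
    apply hne
    have h1 := le_of_le_sup_comm hG.isNilpotent (g4 G) ⊥ (by
      rw [bot_sup_eq]; exact hcon)
    exact le_bot_iff.mp h1
  obtain ⟨g, hg, hgL⟩ := hex
  have hcen : ∀ h ∈ g4 G, ∀ k : G, ⁅h, k⁆ ∈ L := fun h hh k =>
    Subgroup.commutator_mem_commutator hh (Subgroup.mem_top _)
  have hexp : ∀ h ∈ g4 G, h ^ 2 ∈ L := by
    let π := QuotientGroup.mk' L
    have hπ : ∀ a : G, π a = 1 ↔ a ∈ L := fun a => QuotientGroup.eq_one_iff a
    intro h hh
    rw [← hπ, map_pow]
    have hcomm : ∀ a ∈ g4 G, ∀ b : G, Commute (π a) (π b) := by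
      intro a ha b
      rw [← commutatorElement_eq_one_iff_commute, ← map_commutatorElement]
      exact (hπ _).mpr (hcen a ha b)
    let K : Subgroup G :=
      { carrier := {a | a ∈ g4 G ∧ π a ^ 2 = 1}
        one_mem' := ⟨one_mem _, by rw [map_one, one_pow]⟩
        mul_mem' := fun {a b} ha hb => ⟨mul_mem ha.1 hb.1, by
          rw [map_mul, (hcomm a ha.1 b).mul_pow, ha.2, hb.2, one_mul]⟩
        inv_mem' := fun {a} ha => ⟨inv_mem ha.1, by
          rw [map_inv, inv_pow, ha.2, inv_one]⟩ }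
    have hK : g4 G ≤ K := by
      rw [g4, Subgroup.commutator_le]
      intro d hd k _
      refine ⟨mem_g4 hd k, ?_⟩
      have h1 : ⁅d ^ 2, k⁆ ∈ L := hcen _ (hsq d (g3_le hd)) k
      have e1 : ⁅d ^ 2, k⁆ = ⁅d, ⁅d, k⁆⁆ * ⁅d, k⁆ ^ 2 := by
        simp only [commutatorElement_def, pow_two]; group
      have h2 : ⁅d, ⁅d, k⁆⁆ ∈ L := by
        rw [← commutatorElement_inv]
        exact inv_mem (hcen _ (mem_g4 hd k) d)
      rw [← map_pow, hπ]
      have h3 : ⁅d, k⁆ ^ 2 = ⁅d, ⁅d, k⁆⁆⁻¹ * ⁅d ^ 2, k⁆ := by rw [e1]; group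
      rw [h3]
      exact mul_mem (inv_mem h2) h1
    exact (hK hh).2
  obtain ⟨N, hN, hLN, hNH, hgN, hgen⟩ := exists_max L (g4 G) hLle hcen hexp g hg hgL
  let π := QuotientGroup.mk' N
  have hs : Function.Surjective π := QuotientGroup.mk'_surjective N
  have hπ : ∀ a : G, π a = 1 ↔ a ∈ N := fun a => QuotientGroup.eq_one_iff a
  have hw2 : π g * π g = 1 := by
    rw [← map_mul, hπ, ← pow_two]
    exact hLN (hexp g hg)
  have hpow : ∀ i : ℤ, (π g) ^ i = 1 ∨ (π g) ^ i = π g := by
    intro i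
    have h2 : (π g) ^ (2 : ℤ) = 1 := by
      rw [zpow_two]; exact hw2
    rcases Int.even_or_odd' i with ⟨k, rfl | rfl⟩
    · left; rw [zpow_mul, h2, one_zpow]
    · right; rw [zpow_add, zpow_mul, h2, one_zpow, one_mul, zpow_one]
  have hg4 : ∀ a ∈ g4 G, π a = 1 ∨ π a = π g := by
    intro a ha
    obtain ⟨i, hi⟩ := hgen a ha
    have h1 := (hπ _).mpr hi
    rw [map_mul, map_zpow] at h1
    have h2 : π a = (π g) ^ (-i) := by
      rw [zpow_neg]; exact eq_inv_of_mul_eq_one_left h1
    rw [h2]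
    exact hpow _
  have F : Four (G ⧸ N) (π g) :=
    { wc := by
        rw [Subgroup.mem_center_iff]
        intro q
        obtain ⟨q, rfl⟩ := hs q
        have h1 := (hπ _).mpr (hLN (hcen g hg q))
        rw [map_commutatorElement, commutatorElement_eq_one_iff_mul_comm] at h1
        exact h1.symm
      w1 := fun h => hgN ((hπ g).mp h)
      w2 := hw2
      sq := by
        intro c hc
        rw [← map_comm π hs] at hc
        obtain ⟨c, hc, rfl⟩ := hc
        rw [← map_mul, ← pow_two]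
        exact hg4 _ (hsq c hc)
      h4 := by
        intro d hd q
        rw [← map_g3 π hs] at hd
        obtain ⟨d, hd, rfl⟩ := hd
        obtain ⟨q, rfl⟩ := hs q
        rw [← map_commutatorElement]
        exact hg4 _ (mem_g4' hd q)
      nc := by
        intro hC
        have h1 : g4 (G ⧸ N) = ⊥ := by
          rw [eq_bot_iff, g4, Subgroup.commutator_le]
          intro d hd k _
          have h2 := g3_cen hC hd
          rw [Subgroup.mem_center_iff] at h2
          rw [Subgroup.mem_bot, commutatorElement_eq_one_iff_mul_comm]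
          exact (h2 k).symm
        have h2 : π g ∈ g4 (G ⧸ N) := by
          rw [← map_g4 π hs]
          exact ⟨g, hg, rfl⟩
        rw [h1, Subgroup.mem_bot, hπ] at h2
        exact hgN h2 }
  exact F.false (hG.to_quotient N) (hA.quot N)

end Pool.Agent.W372.AC
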