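import Mathlib
import Pool.Agent.W372.AC.NecD

/-!
Necessity: assembly.
-/

set_option autoImplicit false

open scoped commutatorElement

namespace Pool.Agent.W372.AC

open Pool.Agent.Helper832.AutC

variable {G : Type} [Group G]

lemma comm_le_frattini {p : ℕ} [Fact p.Prime] [Finite G] (hG : IsPGroup p G) :
    commutator G ≤ frattini G := by
  obtain ⟨h1, -⟩ := frattini_facts hG
  rw [commutator_def, Subgroup.commutator_le]
  intro a _ b _
  exact h1 a b

/-- elements outside the Frattini subgroup have an exponent prime to `p` -/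
lemma exists_not_dvd {p : ℕ} [Fact p.Prime] [Finite G] (hG : IsPGroup p G) {d : ℕ}
    (x : Fin d → G) {g : G} (hg : g ∉ frattini G) (a : Fin d → ℤ)
    (ha : Abelianization.of g = ∏ i, (Abelianization.of (x i)) ^ a i) :
    ∃ i, ¬ (p : ℤ) ∣ a i := by
  by_contra hcon
  push Not at hcon
  choose b hb using hcon
  apply hg
  obtain ⟨h1, h2⟩ := frattini_facts hG
  obtain ⟨k, hk'⟩ : ∃ k : G, Abelianization.of k = ∏ i, (Abelianization.of (x i)) ^ b i :=
    QuotientGroup.mk'_surjective (commutator G) _
  have h3 : Abelianization.of (g * (k ^ p)⁻¹) = 1 := by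
    rw [map_mul, map_inv, map_pow, hk', ha, ← Finset.prod_pow, mul_inv_eq_one]
    refine Finset.prod_congr rfl fun i _ => ?_
    rw [hb i, mul_comm, zpow_mul, zpow_natCast]
  have h4 : g * (k ^ p)⁻¹ ∈ (Abelianization.of : G →* Abelianization G).ker := h3
  rw [Abelianization.ker_of] at h4
  have h5 : g = (g * (k ^ p)⁻¹) * k ^ p := by group
  rw [h5]
  exact mul_mem (comm_le_frattini hG h4) (h2 k)

/-- exchange lemma -/
theorem exchange {p : ℕ} [Fact p.Prime] [Finite G] (hG : IsPGroup p G) {d : ℕ}
    (x : Fin d → G) (hx : Subgroup.closure (Set.range x) = ⊤) {g : G} (hg : g ∉ frattini G) :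
    ∃ (x' : Fin d → G) (i : Fin d), Subgroup.closure (Set.range x') = ⊤ ∧ x' i = g := by
  classical
  obtain ⟨a, ha⟩ := exists_exponents x hx g
  obtain ⟨i, hi⟩ := exists_not_dvd hG x hg a ha
  refine ⟨Function.update x i g, i, ?_, Function.update_self ..⟩
  let K := Subgroup.closure (Set.range (Function.update x i g))
  have hKg : g ∈ K := Subgroup.subset_closure ⟨i, Function.update_self ..⟩
  have hKx : ∀ j, j ≠ i → x j ∈ K := fun j hj =>
    Subgroup.subset_closure ⟨j, Function.update_of_ne hj ..⟩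
  have h1 : x i ^ a i ∈ K ⊔ commutator G := by
    have e1 := Finset.mul_prod_erase Finset.univ
      (fun j => (Abelianization.of (x j)) ^ a j) (Finset.mem_univ i)
    rw [← ha] at e1
    have h2 : (Abelianization.of (x i)) ^ a i ∈ K.map Abelianization.of := by
      have e2 : (Abelianization.of (x i)) ^ a i = Abelianization.of g *
          (∏ j ∈ Finset.univ.erase i, (Abelianization.of (x j)) ^ a j)⁻¹ := by
        rw [← e1, mul_inv_cancel_right]
      rw [e2]
      refine mul_mem ⟨g, hKg, rfl⟩ (inv_mem ?_)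
      refine prod_mem fun j hj => ?_
      have hj' : Abelianization.of (x j) ∈ K.map Abelianization.of :=
        ⟨x j, hKx j (Finset.ne_of_mem_erase hj), rfl⟩
      exact zpow_mem hj' _
    obtain ⟨k, hk, hk2⟩ := h2
    have h3 : x i ^ a i * k⁻¹ ∈ (Abelianization.of : G →* Abelianization G).ker := by
      rw [MonoidHom.mem_ker, map_mul, map_inv, hk2, map_zpow, mul_inv_cancel]
    rw [Abelianization.ker_of] at h3
    have h4 : x i ^ a i = (x i ^ a i * k⁻¹) * k := by group
    rw [h4]
    exact mul_mem (Subgroup.mem_sup_right h3) (Subgroup.mem_sup_left hk)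
  have h2 := mem_of_zpow_mem hG _ _ _ hi h1
  have h3 : K ⊔ commutator G = ⊤ := by
    rw [eq_top_iff, ← hx, Subgroup.closure_le]
    rintro _ ⟨j, rfl⟩
    by_cases hj : j = i
    · rw [hj]; exact h2
    · exact Subgroup.mem_sup_left (hKx j hj)
  apply frattini_nongenerating
  rw [eq_top_iff, ← h3]
  exact sup_le_sup le_rfl (comm_le_frattini hG)

/-- the family of generators given by the rank -/
lemma exists_gen [Finite G] : ∃ x : Fin (Group.rank G) → G,
    Subgroup.closure (Set.range x) = ⊤ := by
  obtain ⟨S, hS, hS2⟩ := Group.rank_spec G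
  let e := (Finset.equivFinOfCardEq hS).symm
  refine ⟨fun i => (e i : G), ?_⟩
  rw [← hS2]
  congr 1
  ext q
  constructor
  · rintro ⟨i, rfl⟩
    exact (e i).2
  · intro hq
    exact ⟨e.symm ⟨q, hq⟩, by simp⟩

lemma abel_of_le_one {d : ℕ} (hd : d ≤ 1) (x : Fin d → G)
    (hx : Subgroup.closure (Set.range x) = ⊤) : ∀ a b : G, a * b = b * a := by
  have hsub : ∀ i j, x i = x j := by
    intro i j
    have : i = j := by
      apply Fin.ext
      have h1 := i.2
      have h2 := j.2
      omega
    rw [this]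
  have h1 : ∀ g : G, ∀ i, Commute g (x i) := by
    intro g i
    have : g ∈ Subgroup.closure (Set.range x) := by rw [hx]; trivial
    induction this using Subgroup.closure_induction with
    | mem u hu => obtain ⟨j, rfl⟩ := hu; rw [hsub j i]
    | one => exact Commute.one_left _
    | mul a b _ _ ha hb => exact ha.mul_left hb
    | inv a _ ha => exact ha.inv_left
  intro a b
  have : b ∈ Subgroup.closure (Set.range x) := by rw [hx]; trivial
  induction this using Subgroup.closure_induction with
  | mem u hu => obtain ⟨j, rfl⟩ := hu; exact h1 a j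
  | one => rw [mul_one, one_mul]
  | mul u v _ _ hu hv => rw [← mul_assoc, hu, mul_assoc, hv, mul_assoc]
  | inv u _ hu => exact (Commute.inv_right (show Commute a u from hu))

/-- the three families -/
def Cond (p : ℕ) (G : Type) [Group G] [Finite G] : Prop :=
  (commutator G ≤ Subgroup.center G ∧
      ∀ x : G, x ∉ frattini G → ∀ c ∈ commutator G, ∃ g : G, ⁅x, g⁆ = c) ∨
    (Group.rank G = 2 ∧ IsCyclic (commutator G) ∧
      (p = 2 → ∀ c ∈ commutator G, ∀ g : G, ∃ b ∈ commutator G, ⁅c, g⁆ = b ^ 4)) ∨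
    (p = 2 ∧ Group.rank G = 2 ∧ (∀ a b c d : G, ⁅⁅⁅a, b⁆, c⁆, d⁆ = 1) ∧
      ∀ c ∈ commutator G, c ^ 2 = 1)

theorem necessity {p : ℕ} (hp : p.Prime) [Finite G] (hG : IsPGroup p G)
    (h : Nat.card (AutC G) = Nat.card (commutator G) ^ Group.rank G) : Cond p G := by
  have : Fact p.Prime := ⟨hp⟩
  obtain ⟨x, hx⟩ := exists_gen (G := G)
  have hA : Att G (Group.rank G) := ⟨h, x, hx⟩
  by_cases hc : commutator G ≤ Subgroup.center G
  · -- class at most two
    left
    refine ⟨hc, ?_⟩
    intro g hg c hcc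
    obtain ⟨x', i, hx', hi⟩ := exchange hG x hx hg
    obtain ⟨k, hk⟩ := (hA.full x' hx').surj i c⁻¹ (inv_mem hcc)
    refine ⟨k, ?_⟩
    rw [← commutatorElement_inv, ← hi, hk, inv_inv]
  · right
    -- the quotient by `γ₄`
    have hne : ∃ c ∈ commutator (G ⧸ g4 G), ∃ g : G ⧸ g4 G, ⁅c, g⁆ ≠ 1 := by
      by_contra hcon
      push Not at hcon
      let π := QuotientGroup.mk' (g4 G)
      have hs : Function.Surjective π := QuotientGroup.mk'_surjective _
      have h1 : g3 G ≤ g4 G := by
        rw [g3, Subgroup.commutator_le]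
        intro c hc g _
        have h2 := hcon (π c) (by rw [← map_comm π hs]; exact ⟨c, hc, rfl⟩) (π g)
        rw [← map_commutatorElement] at h2
        exact (QuotientGroup.eq_one_iff _).mp h2
      have h3 := le_of_le_sup_comm hG.isNilpotent (g3 G) ⊥ (by rw [bot_sup_eq]; exact h1)
      apply hc
      intro c hcc
      rw [Subgroup.mem_center_iff]
      intro g
      have h4 : ⁅c, g⁆ = 1 := (Subgroup.mem_bot).mp (h3 (mem_g3 hcc g))
      exact (commutatorElement_eq_one_iff_mul_comm.mp h4).symm
    have hle := le_two_of_C3 (C3_quot (g4 G) le_rfl) (hA.quot (g4 G)) hne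
    have hge : ¬ Group.rank G ≤ 1 := by
      intro h1
      apply hc
      intro c _
      rw [Subgroup.mem_center_iff]
      intro g
      exact abel_of_le_one h1 x hx g c
    have hr : Group.rank G = 2 := by omega
    have hA2 : Att G 2 := by rw [← hr]; exact hA
    obtain ⟨a, b, hab⟩ := hA2.pair
    by_cases hcase : p ≠ 2 ∨ ⁅a, b⁆ ^ 2 ∉ g3 G
    · left
      have h1 := nec_cyclic hG hA2 hab hcase
      refine ⟨hr, ?_, ?_⟩
      · rw [h1]; infer_instance
      · intro _
        exact nec_four hA2 _ h1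
    · right
      push Not at hcase
      obtain ⟨rfl, hu⟩ := hcase
      have h4 := g4_bot hG hA2 hab hu
      have hC : C3 G := by
        intro c hcc g
        rw [Subgroup.mem_center_iff]
        intro k
        have h5 : ⁅⁅c, g⁆, k⁆ ∈ g4 G := mem_g4 (mem_g3 hcc g) k
        rw [h4, Subgroup.mem_bot, commutatorElement_eq_one_iff_mul_comm] at h5
        exact h5.symm
      refine ⟨rfl, hr, ?_, nec_exp2 hG hA2 hC hab hu⟩
      intro a b c d
      have h5 : ⁅⁅⁅a, b⁆, c⁆, d⁆ ∈ g4 G := mem_g4 (mem_g3 (comm_mem a b) c) d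
      rwa [h4, Subgroup.mem_bot] at h5

end Pool.Agent.W372.AC
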