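import Mathlib
import Pool.Agent.W372.AC.NecE

/-!
Sufficiency: class two.
-/

set_option autoImplicit false

open scoped commutatorElement

namespace Pool.Agent.W372.AC

open Pool.Agent.Helper832.AutC

variable {G : Type} [Group G]

/-- words with an exponent prime to `p` in a smallest generating family avoid the Frattini
subgroup -/
lemma not_frattini {p : ℕ} [Fact p.Prime] [Finite G] (hG : IsPGroup p G) {d : ℕ}
    (x : Fin d → G) (hx : Subgroup.closure (Set.range x) = ⊤) (hd : Group.rank G = d)
    (b : Fin d → ℤ) (j : Fin d) (hj : ¬ (p : ℤ) ∣ b j) (y : G)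
    (hy : Abelianization.of y = ∏ i, (Abelianization.of (x i)) ^ b i) : y ∉ frattini G := by
  classical
  intro hyF
  let S : Finset G := (Finset.univ.erase j).image x
  let K := Subgroup.closure (S : Set G)
  have hKx : ∀ i, i ≠ j → x i ∈ K := fun i hi =>
    Subgroup.subset_closure (Finset.mem_coe.mpr (Finset.mem_image_of_mem x
      (Finset.mem_erase.mpr ⟨hi, Finset.mem_univ i⟩)))
  have h1 : x j ^ b j ∈ K ⊔ frattini G := by
    have e1 := Finset.mul_prod_erase Finset.univ
      (fun i => (Abelianization.of (x i)) ^ b i) (Finset.mem_univ j)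
    rw [← hy] at e1
    have h2 : (∏ i ∈ Finset.univ.erase j, (Abelianization.of (x i)) ^ b i)⁻¹
        ∈ K.map Abelianization.of := by
      refine inv_mem (prod_mem fun i hi => ?_)
      have hi' : Abelianization.of (x i) ∈ K.map Abelianization.of :=
        ⟨x i, hKx i (Finset.ne_of_mem_erase hi), rfl⟩
      exact zpow_mem hi' _
    obtain ⟨k, hk, hk2⟩ := h2
    have h3 : x j ^ b j * (y * k)⁻¹ ∈ (Abelianization.of : G →* Abelianization G).ker := by
      rw [MonoidHom.mem_ker, map_mul, map_inv, map_mul, hk2, map_zpow, ← e1,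
        mul_inv_cancel_right, mul_inv_cancel]
    rw [Abelianization.ker_of] at h3
    have h4 : x j ^ b j = (x j ^ b j * (y * k)⁻¹) * (y * k) := by group
    rw [h4]
    exact mul_mem (Subgroup.mem_sup_right (comm_le_frattini hG h3))
      (mul_mem (Subgroup.mem_sup_right hyF) (Subgroup.mem_sup_left hk))
  have h2 := mem_of_zpow_mem hG _ _ _ hj h1
  have h3 : K = ⊤ := by
    apply frattini_nongenerating
    rw [eq_top_iff, ← hx, Subgroup.closure_le]
    rintro _ ⟨i, rfl⟩
    by_cases hi : i = j
    · rw [hi]; exact h2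
    · exact Subgroup.mem_sup_left (hKx i hi)
  have h4 := Group.rank_le h3
  have h5 : S.card ≤ (Finset.univ.erase j).card := Finset.card_image_le
  rw [Finset.card_erase_of_mem (Finset.mem_univ j), Finset.card_univ, Fintype.card_fin] at h5
  have h6 := j.pos
  omega

theorem suf_one {p : ℕ} (hp : p.Prime) [Finite G] (hG : IsPGroup p G)
    (hc : commutator G ≤ Subgroup.center G)
    (h : ∀ x : G, x ∉ frattini G → ∀ c ∈ commutator G, ∃ g : G, ⁅x, g⁆ = c) :
    Nat.card (AutC G) = Nat.card (commutator G) ^ Group.rank G := by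
  classical
  have : Fact p.Prime := ⟨hp⟩
  obtain ⟨x, hx⟩ := exists_gen (G := G)
  have hc' : ∀ a b c : G, ⁅⁅a, b⁆, c⁆ = 1 := fun a b c =>
    commutatorElement_eq_one_iff_mul_comm.mpr (cen_comm (hc (comm_mem a b)) c)
  have hwd : ∀ b : Fin (Group.rank G) → ℤ, ∀ j, ¬ (p : ℤ) ∣ b j → wd x b ∉ frattini G := by
    intro b j hj
    exact not_frattini hG x hx rfl b j hj _ (hom_wd Abelianization.of x b)
  have hxF : ∀ i, x i ∉ frattini G := by
    intro i
    refine not_frattini hG x hx rfl (Pi.single i 1) i ?_ _ ?_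
    · rw [Pi.single_eq_same]
      intro h1
      have h2 := Int.le_of_dvd one_pos h1
      have h3 := hp.two_le
      omega
    · rw [Finset.prod_eq_single i]
      · rw [Pi.single_eq_same, zpow_one]
      · intro j _ hj
        rw [Pi.single_eq_of_ne hj, zpow_zero]
      · intro hi
        exact absurd (Finset.mem_univ i) hi
  have hcrit : CritC x := by
    intro N _ a ha i g
    by_cases h0 : a i = 0
    · rw [h0, zpow_zero, commutatorElement_one_left]
      exact one_mem _
    -- the largest power of `p` dividing all exponents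
    have hex : ∃ k : ℕ, ¬ ∀ j, ((p : ℤ) ^ (k + 1)) ∣ a j := by
      refine ⟨(a i).natAbs, fun hcon => ?_⟩
      have h1 := Int.natAbs_dvd_natAbs.mpr (hcon i)
      rw [Int.natAbs_pow, Int.natAbs_natCast] at h1
      have h2 := Nat.le_of_dvd (Int.natAbs_pos.mpr h0) h1
      have h3 : (a i).natAbs + 1 < p ^ ((a i).natAbs + 1) := Nat.lt_pow_self hp.one_lt
      omega
    obtain ⟨k, hk, hkmin⟩ : ∃ k : ℕ, (¬ ∀ j, ((p : ℤ) ^ (k + 1)) ∣ a j) ∧
        ∀ j, ((p : ℤ) ^ k) ∣ a j := by
      refine ⟨Nat.find hex, Nat.find_spec hex, ?_⟩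
      rcases Nat.eq_zero_or_pos (Nat.find hex) with h1 | h1
      · rw [h1]; intro j; rw [pow_zero]; exact one_dvd _
      · have h2 := Nat.find_min hex (Nat.sub_lt h1 one_pos)
        have h3 : Nat.find hex - 1 + 1 = Nat.find hex := by omega
        rw [not_not, h3] at h2
        exact h2
    choose b hb using hkmin
    push Not at hk
    obtain ⟨j, hj⟩ := hk
    have hbj : ¬ (p : ℤ) ∣ b j := by
      intro h1
      apply hj
      rw [hb j, pow_succ]
      exact mul_dvd_mul_left _ h1
    have hy := hwd b j hbj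
    -- `γ₂^{p^k} ≤ N`
    have hpk : ∀ c ∈ commutator G, c ^ ((p : ℤ) ^ k) ∈ N := by
      intro c hcc
      obtain ⟨l, hl⟩ := h _ hy c hcc
      have h1 := ha l
      have h2 : pr hc' (wd x a) l = (pr hc' (wd x b) l) ^ ((p : ℤ) ^ k) := by
        rw [pr_wd, pr_wd, ← Finset.prod_zpow]
        refine Finset.prod_congr rfl fun i _ => ?_
        rw [hb i, mul_comm, zpow_mul]
      have h3 := congrArg Subtype.val h2
      rw [pr_coe, Subgroup.coe_zpow, pr_coe, hl] at h3
      rw [← h3]
      exact h1
    have h1 := pr_zpow hc' (x i) g (a i)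
    have h2 := congrArg Subtype.val h1
    rw [pr_coe, Subgroup.coe_zpow, pr_coe] at h2
    rw [h2, hb i, mul_comm, zpow_mul]
    exact hpk _ (zpow_mem (comm_mem _ _) _)
  have hS : SurjP x := (attains_iff x hx).mp ((attains_iff_critC hc' x hx).mpr hcrit)
  rw [card_iff x hx]
  intro c hcm
  have hconj : ∀ i, IsConj (x i) (c i * x i) := by
    intro i
    obtain ⟨g, hg⟩ := h (x i) (hxF i) (c i)⁻¹ (inv_mem (hcm i))
    rw [isConj_iff]
    refine ⟨g, ?_⟩
    rw [conj_eq, ← commutatorElement_inv, hg, inv_inv]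
  exact hS _ hconj

end Pool.Agent.W372.AC
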