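import Mathlib
import Pool.Agent.W372.AC.NecE

/-!
Sufficiency: cyclic commutator subgroup.
-/

set_option autoImplicit false

open scoped commutatorElement

namespace Pool.Agent.W372.AC

open Pool.Agent.Helper832.AutC

section

variable {G : Type} [Group G]

lemma conj_pow_sum (x y u : G) (r : ℤ) (hu : x * y * x⁻¹ = u * y) (hr : x * u * x⁻¹ = u ^ r)
    (n : ℕ) : x ^ n * y * (x ^ n)⁻¹ = u ^ (∑ i ∈ Finset.range n, r ^ i) * y := by
  induction n with
  | zero => simp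
  | succ n ih =>
    have e1 : x ^ (n + 1) * y * (x ^ (n + 1))⁻¹ = x * (x ^ n * y * (x ^ n)⁻¹) * x⁻¹ := by
      rw [pow_succ']; group
    have e2 : ∑ i ∈ Finset.range (n + 1), r ^ i = r * (∑ i ∈ Finset.range n, r ^ i) + 1 := by
      rw [Finset.sum_range_succ', Finset.mul_sum, pow_zero]
      congr 1
      exact Finset.sum_congr rfl fun i _ => pow_succ' r i
    have e3 : x * (u ^ (∑ i ∈ Finset.range n, r ^ i) * y) * x⁻¹
        = (x * u ^ (∑ i ∈ Finset.range n, r ^ i) * x⁻¹) * (x * y * x⁻¹) := by group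
    rw [e1, ih, e2, e3, ← conj_zpow, hr, hu, ← zpow_mul, zpow_add, zpow_one, mul_assoc]

lemma geom_aux (a : ℤ) (i : ℕ) : ∃ t : ℤ, (1 + a) ^ i = 1 + i * a + a ^ 2 * t := by
  induction i with
  | zero => exact ⟨0, by simp⟩
  | succ i ih =>
    obtain ⟨t, ht⟩ := ih
    refine ⟨t + i + a * t, ?_⟩
    rw [pow_succ, ht]
    push_cast
    ring

lemma geom_int {p : ℕ} (hp : p.Prime) (q k : ℤ) (hq : p ≠ 2 ∧ q = p ∨ p = 2 ∧ q = 4) :
    ∃ m : ℤ, ∑ i ∈ Finset.range p, (1 + q * k) ^ i = p * (1 + p * m) := by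
  rcases hq with ⟨hp2, rfl⟩ | ⟨rfl, rfl⟩
  · have h1 : ∀ n : ℕ, ∃ T : ℤ, ∑ i ∈ Finset.range n, (1 + (p : ℤ) * k) ^ i
        = n + ((∑ i ∈ Finset.range n, i : ℕ) : ℤ) * (p * k) + (p * k) ^ 2 * T := by
      intro n
      induction n with
      | zero => exact ⟨0, by simp⟩
      | succ n ih =>
        obtain ⟨T, hT⟩ := ih
        obtain ⟨t, ht⟩ := geom_aux ((p : ℤ) * k) n
        refine ⟨T + t, ?_⟩
        rw [Finset.sum_range_succ, hT, ht, Finset.sum_range_succ]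
        push_cast
        ring
    obtain ⟨T, hT⟩ := h1 p
    obtain ⟨m0, hm0⟩ : ∃ m0 : ℕ, p = 2 * m0 + 1 := hp.odd_of_ne_two hp2
    have h2 : ∑ i ∈ Finset.range p, i = p * m0 := by
      have h3 := Finset.sum_range_id_mul_two p
      have h4 : p - 1 = m0 * 2 := by omega
      rw [h4, ← mul_assoc] at h3
      exact Nat.eq_of_mul_eq_mul_right two_pos h3
    refine ⟨k * m0 + k ^ 2 * T, ?_⟩
    rw [hT, h2]
    push_cast
    ring
  · refine ⟨k, ?_⟩
    rw [Finset.sum_range_succ, Finset.sum_range_one]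
    push_cast
    ring

lemma pow_comm_form {p : ℕ} (hp : p.Prime) (q : ℤ) (hq : p ≠ 2 ∧ q = p ∨ p = 2 ∧ q = 4)
    (x y u : G) (k : ℤ) (hu : x * y * x⁻¹ = u * y) (hr : x * u * x⁻¹ = u ^ (1 + q * k)) (n : ℕ) :
    ∃ m : ℤ, x ^ (p ^ n) * y * (x ^ (p ^ n))⁻¹ = u ^ ((p : ℤ) ^ n * (1 + p * m)) * y := by
  have h1 : ∀ j : ℕ, ∃ k' : ℤ, x ^ j * u * (x ^ j)⁻¹ = u ^ (1 + q * k') := by
    intro j
    induction j with
    | zero => exact ⟨0, by simp⟩
    | succ j ih =>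
      obtain ⟨k', hk'⟩ := ih
      refine ⟨k + k' + q * k * k', ?_⟩
      have e1 : x ^ (j + 1) * u * (x ^ (j + 1))⁻¹ = x * (x ^ j * u * (x ^ j)⁻¹) * x⁻¹ := by
        rw [pow_succ']; group
      rw [e1, hk', ← conj_zpow, hr, ← zpow_mul]
      congr 1
      ring
  induction n with
  | zero => exact ⟨0, by simpa using hu⟩
  | succ n ih =>
    obtain ⟨m, hm⟩ := ih
    obtain ⟨k', hk'⟩ := h1 (p ^ n)
    have h2 : x ^ (p ^ n) * u ^ ((p : ℤ) ^ n * (1 + p * m)) * (x ^ (p ^ n))⁻¹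
        = (u ^ ((p : ℤ) ^ n * (1 + p * m))) ^ (1 + q * k') := by
      rw [← conj_zpow, hk', ← zpow_mul, ← zpow_mul, mul_comm]
    have h3 := conj_pow_sum _ _ _ _ hm h2 p
    obtain ⟨m', hm'⟩ := geom_int hp q k' hq
    refine ⟨m + m' + p * m * m', ?_⟩
    rw [pow_succ p n, pow_mul, h3, hm', ← zpow_mul]
    congr 2
    ring

lemma conj_zpow_central (Y x ζ : G) (hζ : ζ ∈ Subgroup.center G) (h : Y * x * Y⁻¹ = ζ * x)
    (b : ℤ) : Y ^ b * x * (Y ^ b)⁻¹ = ζ ^ b * x := by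
  have h1 : x * Y * x⁻¹ = ζ⁻¹ * Y := by
    have e1 : Y * x = ζ * x * Y := by rw [← h]; group
    rw [mul_assoc ζ] at e1
    have e2 : x * Y = ζ⁻¹ * (Y * x) := by rw [e1]; group
    rw [e2]; group
  have h2 : Commute ζ⁻¹ Y := cen_comm (inv_mem hζ) Y
  have h3 : x * Y ^ b * x⁻¹ = ζ⁻¹ ^ b * Y ^ b := by
    rw [← conj_zpow, h1, h2.mul_zpow]
  have h4 : x * Y ^ b = (ζ ^ b)⁻¹ * Y ^ b * x := by
    rw [← inv_zpow, ← h3]; group
  have h5 : Commute (ζ ^ b) (x * Y ^ b) := cen_comm (zpow_mem hζ b) _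
  have h6 : Y ^ b * x = ζ ^ b * (x * Y ^ b) := by rw [h4]; group
  rw [h6]; group

end

theorem suf_two_aux {p : ℕ} (hp : p.Prime) (q : ℤ) (hq : p ≠ 2 ∧ q = p ∨ p = 2 ∧ q = 4) :
    ∀ (n : ℕ) (G : Type) [Group G] [Finite G] (x y : G), Subgroup.closure {x, y} = ⊤ →
      commutator G = Subgroup.zpowers ⁅x, y⁆ → ⁅x, y⁆ ^ (p ^ n) = 1 →
      (∃ k : ℤ, x * ⁅x, y⁆ * x⁻¹ = ⁅x, y⁆ ^ (1 + q * k)) →
      (∃ k : ℤ, y * ⁅x, y⁆ * y⁻¹ = ⁅x, y⁆ ^ (1 + q * k)) →
      ∀ c ∈ commutator G, ∀ e ∈ commutator G, ∃ g : G, ⁅g, x⁆ = c ∧ ⁅g, y⁆ = e := by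
  intro n
  induction n with
  | zero =>
    intro G _ _ x y _ hD hu _ _ c hc e he
    rw [pow_zero, pow_one] at hu
    rw [hD, hu, Subgroup.zpowers_one_eq_bot, Subgroup.mem_bot] at hc he
    exact ⟨1, by rw [hc, commutatorElement_one_left], by rw [he, commutatorElement_one_left]⟩
  | succ n ih =>
    intro G _ _ x y hxy hD hu hx hy c hc e he
    obtain ⟨k, hk⟩ := hx
    obtain ⟨l, hl⟩ := hy
    have hq' : ∃ q' : ℤ, q = p * q' := by
      rcases hq with ⟨_, rfl⟩ | ⟨rfl, rfl⟩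
      · exact ⟨1, by ring⟩
      · exact ⟨2, by norm_num⟩
    obtain ⟨q', hq'⟩ := hq'
    let u := ⁅x, y⁆
    have hu' : u ^ ((p : ℤ) ^ (n + 1)) = 1 := by
      have : u ^ (p ^ (n + 1)) = 1 := hu
      rw [← this, ← zpow_natCast]
      push_cast
      rfl
    let z := u ^ ((p : ℤ) ^ n)
    have hzcc : ∀ (g : G) (k : ℤ), g * u * g⁻¹ = u ^ (1 + q * k) → Commute g z := by
      intro g k hk
      have h1 : g * z * g⁻¹ = z := by
        show g * u ^ ((p : ℤ) ^ n) * g⁻¹ = u ^ ((p : ℤ) ^ n)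
        rw [← conj_zpow, hk, ← zpow_mul]
        have e1 : (1 + q * k) * (p : ℤ) ^ n = (p : ℤ) ^ n + (p : ℤ) ^ (n + 1) * (q' * k) := by
          rw [hq']; ring
        rw [e1, zpow_add, zpow_mul, hu', one_zpow, mul_one]
      exact mul_inv_eq_iff_eq_mul.mp h1
    have hz : z ∈ Subgroup.center G := central_of_gen hxy (hzcc x k hk) (hzcc y l hl)
    let N := Subgroup.zpowers z
    have hN : N.Normal := by
      refine ⟨fun a ha g => ?_⟩
      obtain ⟨i, rfl⟩ := Subgroup.mem_zpowers_iff.mp ha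
      have h1 : z ^ i ∈ Subgroup.center G := zpow_mem hz i
      rw [← cen_comm h1 g, mul_inv_cancel_right]
      exact ha
    let π := QuotientGroup.mk' N
    have hs : Function.Surjective π := QuotientGroup.mk'_surjective N
    have hπ : ∀ a : G, π a = 1 ↔ a ∈ N := fun a => QuotientGroup.eq_one_iff a
    have hD' : commutator (G ⧸ N) = Subgroup.zpowers ⁅π x, π y⁆ := by
      rw [← map_comm π hs, hD, MonoidHom.map_zpowers, map_commutatorElement]
    obtain ⟨g, hg1, hg2⟩ := ih (G ⧸ N) (π x) (π y) (gen_quot_pair hxy N) hD' (by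
      rw [← map_commutatorElement, ← map_pow, hπ]
      refine Subgroup.mem_zpowers_iff.mpr ⟨1, ?_⟩
      show (u ^ ((p : ℤ) ^ n)) ^ (1 : ℤ) = u ^ (p ^ n)
      rw [zpow_one, ← zpow_natCast]
      push_cast
      rfl) ⟨k, by
        rw [← map_commutatorElement, ← map_inv, ← map_mul, ← map_mul, ← map_zpow, hk]⟩
      ⟨l, by
        rw [← map_commutatorElement, ← map_inv, ← map_mul, ← map_mul, ← map_zpow, hl]⟩
      (π c) (by rw [← map_comm π hs]; exact ⟨c, hc, rfl⟩)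
      (π e) (by rw [← map_comm π hs]; exact ⟨e, he, rfl⟩)
    obtain ⟨g, rfl⟩ := hs g
    have key : ∀ (a b : G), ⁅π g, π a⁆ = π b → ∃ i : ℤ, ⁅g, a⁆ = b * z ^ i := by
      intro a b hab
      rw [← map_commutatorElement] at hab
      have h1 : b⁻¹ * ⁅g, a⁆ ∈ N := by
        rw [← hπ, map_mul, map_inv, hab, inv_mul_cancel]
      obtain ⟨i, hi⟩ := Subgroup.mem_zpowers_iff.mp h1
      exact ⟨i, by rw [hi, mul_inv_cancel_left]⟩
    obtain ⟨i, hi⟩ := key x c hg1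
    obtain ⟨j, hj⟩ := key y e hg2
    -- the correcting elements
    have hzp : ∀ m : ℤ, u ^ ((p : ℤ) ^ n * (1 + p * m)) = z := by
      intro m
      have e1 : (p : ℤ) ^ n * (1 + p * m) = (p : ℤ) ^ n + (p : ℤ) ^ (n + 1) * m := by ring
      rw [e1, zpow_add, zpow_mul, hu', one_zpow, mul_one]
    have hX : x ^ (p ^ n) * y * (x ^ (p ^ n))⁻¹ = z * y := by
      obtain ⟨m, hm⟩ := pow_comm_form hp q hq x y u k (conj_eq x y) hk n
      rw [hm, hzp]
    have hY : y ^ (p ^ n) * x * (y ^ (p ^ n))⁻¹ = z⁻¹ * x := by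
      obtain ⟨m, hm⟩ := pow_comm_form hp q hq y x u⁻¹ l (by
        show y * x * y⁻¹ = ⁅x, y⁆⁻¹ * x
        rw [commutatorElement_inv]; exact conj_eq y x) (by
        show y * u⁻¹ * y⁻¹ = u⁻¹ ^ (1 + q * l)
        have : y * u⁻¹ * y⁻¹ = (y * u * y⁻¹)⁻¹ := by group
        rw [this, hl, inv_zpow]) n
      rw [hm, inv_zpow, hzp]
    let X := x ^ (p ^ n)
    let Y := y ^ (p ^ n)
    have hXx : Commute X x := (Commute.refl x).pow_left _
    have hYy : Commute Y y := (Commute.refl y).pow_left _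
    have hX' := conj_zpow_central X y z hz hX (-j)
    have hY' := conj_zpow_central Y x z⁻¹ (inv_mem hz) hY i
    refine ⟨g * (X ^ (-j) * Y ^ i), ?_, ?_⟩
    · have h1 : (g * (X ^ (-j) * Y ^ i)) * x * (g * (X ^ (-j) * Y ^ i))⁻¹ = c * x := by
        have e1 : (g * (X ^ (-j) * Y ^ i)) * x * (g * (X ^ (-j) * Y ^ i))⁻¹
            = g * (X ^ (-j) * (Y ^ i * x * (Y ^ i)⁻¹) * (X ^ (-j))⁻¹) * g⁻¹ := by group
        have e2 : X ^ (-j) * (z⁻¹ ^ i * x) * (X ^ (-j))⁻¹ = z⁻¹ ^ i * x := by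
          have h2 : Commute (X ^ (-j)) (z⁻¹ ^ i * x) := by
            have h3 : Commute (z⁻¹ ^ i) (X ^ (-j)) :=
              cen_comm (zpow_mem (inv_mem hz) i) _
            exact h3.symm.mul_right (hXx.zpow_left _)
          rw [h2.eq, mul_inv_cancel_right]
        have e3 : g * (z⁻¹ ^ i * x) * g⁻¹ = z⁻¹ ^ i * (g * x * g⁻¹) := by
          have h3 : Commute (z⁻¹ ^ i) g := cen_comm (zpow_mem (inv_mem hz) i) _
          rw [← mul_assoc, ← mul_assoc, ← h3.eq]; group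
        have h4 : Commute (z ^ i) c := cen_comm (zpow_mem hz i) c
        rw [e1, hY', e2, e3, conj_eq g x, hi, inv_zpow, ← h4.eq]; group
      rw [commutatorElement_def, h1, mul_inv_cancel_right]
    · have h1 : (g * (X ^ (-j) * Y ^ i)) * y * (g * (X ^ (-j) * Y ^ i))⁻¹ = e * y := by
        have e1 : (g * (X ^ (-j) * Y ^ i)) * y * (g * (X ^ (-j) * Y ^ i))⁻¹
            = g * (X ^ (-j) * (Y ^ i * y * (Y ^ i)⁻¹) * (X ^ (-j))⁻¹) * g⁻¹ := by group
        have e2 : Y ^ i * y * (Y ^ i)⁻¹ = y := by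
          rw [(hYy.zpow_left i).eq, mul_inv_cancel_right]
        have e3 : g * (z ^ (-j) * y) * g⁻¹ = z ^ (-j) * (g * y * g⁻¹) := by
          have h3 : Commute (z ^ (-j)) g := cen_comm (zpow_mem hz _) _
          rw [← mul_assoc, ← mul_assoc, ← h3.eq]; group
        have h4 : Commute (z ^ j) e := cen_comm (zpow_mem hz j) e
        rw [e1, e2, hX', e3, conj_eq g y, hj, ← h4.eq]; group
      rw [commutatorElement_def, h1, mul_inv_cancel_right]

theorem suf_two {G : Type} [Group G] {p : ℕ} (hp : p.Prime) [Finite G] (hG : IsPGroup p G)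
    (hr : Group.rank G = 2) (hcyc : IsCyclic (commutator G))
    (h4 : p = 2 → ∀ c ∈ commutator G, ∀ g : G, ∃ b ∈ commutator G, ⁅c, g⁆ = b ^ 4) :
    Nat.card (AutC G) = Nat.card (commutator G) ^ Group.rank G := by
  classical
  have : Fact p.Prime := ⟨hp⟩
  obtain ⟨x, hx⟩ : ∃ x : Fin 2 → G, Subgroup.closure (Set.range x) = ⊤ :=
    hr ▸ exists_gen (G := G)
  have hxy : Subgroup.closure {x 0, x 1} = ⊤ := by
    rw [← hx]
    congr 1
    ext w
    constructor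
    · rintro (h | h)
      · exact ⟨0, h.symm⟩
      · exact ⟨1, (Set.mem_singleton_iff.mp h).symm⟩
    · rintro ⟨i, rfl⟩
      fin_cases i
      · exact Or.inl rfl
      · exact Or.inr rfl
  have hB : ∀ v : G, commutator G = Subgroup.zpowers v → ∀ c ∈ commutator G, ∀ g : G,
      ∃ j : ℤ, ⁅c, g⁆ = v ^ ((p : ℤ) * j) := by
    intro v hv c hc g
    have hvD : v ∈ commutator G := by rw [hv]; exact Subgroup.mem_zpowers v
    have hgv : g * v * g⁻¹ ∈ commutator G := Subgroup.Normal.conj_mem inferInstance _ hvD g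
    rw [hv] at hgv
    obtain ⟨r, hr'⟩ := Subgroup.mem_zpowers_iff.mp hgv
    have hcc := hc
    rw [hv] at hcc
    obtain ⟨i, rfl⟩ := Subgroup.mem_zpowers_iff.mp hcc
    have e1 : ∀ i : ℤ, ⁅v ^ i, g⁆ = v ^ ((1 - r) * i) := by
      intro i
      rw [commutatorElement_def]
      have : v ^ i * g * (v ^ i)⁻¹ * g⁻¹ = v ^ i * (g * v * g⁻¹) ^ (-i) := by
        rw [conj_zpow]; group
      rw [this, ← hr', ← zpow_mul, ← zpow_add]
      congr 1
      ring
    by_cases hd : (p : ℤ) ∣ 1 - r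
    · obtain ⟨j, hj⟩ := hd
      exact ⟨j * i, by rw [e1, hj, mul_assoc]⟩
    · have h1 : v ∈ g3 G := by
        apply mem_of_zpow_mem hG _ _ _ hd
        have h2 := e1 1
        rw [zpow_one, mul_one] at h2
        rw [← h2]
        exact mem_g3 hvD g
      have h2 : commutator G ≤ g3 G := by
        rw [hv, Subgroup.zpowers_le]; exact h1
      have h3 := le_of_le_sup_comm hG.isNilpotent (commutator G) ⊥ (by
        rw [bot_sup_eq]; exact h2)
      have h4 : v = 1 := (Subgroup.mem_bot).mp (h3 hvD)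
      exact ⟨0, by rw [h4, one_zpow, commutatorElement_one_left, one_zpow]⟩
  -- `⁅x 0, x 1⁆` generates
  have hD : commutator G = Subgroup.zpowers ⁅x 0, x 1⁆ := by
    obtain ⟨⟨v, hv⟩, hgen⟩ := hcyc.exists_generator
    have hv' : commutator G = Subgroup.zpowers v := by
      apply le_antisymm
      · intro c hc
        obtain ⟨i, hi⟩ := Subgroup.mem_zpowers_iff.mp (hgen ⟨c, hc⟩)
        exact Subgroup.mem_zpowers_iff.mpr ⟨i, congrArg Subtype.val hi⟩
      · rw [Subgroup.zpowers_le]; exact hv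
    have hg3 : g3 G ≤ Subgroup.zpowers (v ^ (p : ℤ)) := by
      rw [g3, Subgroup.commutator_le]
      intro c hc g _
      obtain ⟨j, hj⟩ := hB v hv' c hc g
      exact Subgroup.mem_zpowers_iff.mpr ⟨j, by rw [hj, zpow_mul]⟩
    have huD := comm_mem (x 0) (x 1)
    rw [hv'] at huD
    obtain ⟨i, hi⟩ := Subgroup.mem_zpowers_iff.mp huD
    apply le_antisymm
    · rw [hv', Subgroup.zpowers_le]
      by_cases hd : (p : ℤ) ∣ i
      · obtain ⟨i', rfl⟩ := hd
        obtain ⟨j, h, hh, hvj⟩ := comm_form (x 0) (x 1) hxy v hv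
        obtain ⟨k, hk⟩ := Subgroup.mem_zpowers_iff.mp (hg3 hh)
        rw [← hi, ← hk, ← zpow_mul, ← zpow_mul, ← zpow_add] at hvj
        have h1 : v ^ (1 - ((p : ℤ) * i' * j + p * k)) = 1 := by
          rw [zpow_sub, zpow_one, ← hvj, mul_inv_cancel]
        have h2 : v ∈ (⊥ : Subgroup G) := by
          apply mem_of_zpow_mem hG _ _ (1 - ((p : ℤ) * i' * j + p * k))
          · intro hd
            have h3 : (p : ℤ) ∣ 1 := by
              have h4 : (1 : ℤ) = (1 - ((p : ℤ) * i' * j + p * k)) + p * (i' * j + k) := by ring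
              rw [h4]
              exact dvd_add hd (dvd_mul_right _ _)
            have h5 := Int.le_of_dvd one_pos h3
            have h6 := hp.two_le
            omega
          · rw [h1]; exact one_mem _
        rw [Subgroup.mem_bot] at h2
        rw [h2]; exact one_mem _
      · apply mem_of_zpow_mem hG _ _ _ hd
        rw [hi]; exact Subgroup.mem_zpowers _
    · rw [Subgroup.zpowers_le]; exact comm_mem _ _
  have hinv : ∀ (q k : ℤ) (g : G), ⁅⁅x 0, x 1⁆, g⁆ = ⁅x 0, x 1⁆ ^ (q * k) →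
      g * ⁅x 0, x 1⁆ * g⁻¹ = ⁅x 0, x 1⁆ ^ (1 + q * (-k)) := by
    intro q k g h
    generalize ⁅x 0, x 1⁆ = u at *
    have e1 : g * u * g⁻¹ = ⁅u, g⁆⁻¹ * u := by rw [commutatorElement_def]; group
    rw [e1, h, ← zpow_neg, ← zpow_add_one]
    congr 1
    ring
  obtain ⟨n, hn⟩ := hG ⁅x 0, x 1⁆
  have hall : ∀ c ∈ commutator G, ∀ e ∈ commutator G, ∃ g : G, ⁅g, x 0⁆ = c ∧ ⁅g, x 1⁆ = e := by
    by_cases hp2 : p = 2
    · have h5 : ∀ g : G, ∃ k : ℤ, g * ⁅x 0, x 1⁆ * g⁻¹ = ⁅x 0, x 1⁆ ^ (1 + 4 * k) := by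
        intro g
        obtain ⟨b, hb, hbe⟩ := h4 hp2 _ (comm_mem (x 0) (x 1)) g
        rw [hD] at hb
        obtain ⟨i, rfl⟩ := Subgroup.mem_zpowers_iff.mp hb
        refine ⟨-i, hinv 4 i g ?_⟩
        rw [hbe, ← zpow_natCast, ← zpow_mul, mul_comm]
        rfl
      exact suf_two_aux hp 4 (Or.inr ⟨hp2, rfl⟩) n G (x 0) (x 1) hxy hD hn (h5 _) (h5 _)
    · have h5 : ∀ g : G, ∃ k : ℤ, g * ⁅x 0, x 1⁆ * g⁻¹ = ⁅x 0, x 1⁆ ^ (1 + (p : ℤ) * k) := by
        intro g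
        obtain ⟨j, hj⟩ := hB _ hD _ (comm_mem (x 0) (x 1)) g
        exact ⟨-j, hinv _ _ _ hj⟩
      exact suf_two_aux hp p (Or.inl ⟨hp2, rfl⟩) n G (x 0) (x 1) hxy hD hn (h5 _) (h5 _)
  rw [hr, card_iff x hx]
  intro c hc
  obtain ⟨g, h0, h1⟩ := hall (c 0) (hc 0) (c 1) (hc 1)
  refine ⟨MulAut.conj g, fun w => isConj_iff.mpr ⟨g, rfl⟩, ?_⟩
  intro i
  rw [MulAut.conj_apply, conj_eq]
  fin_cases i
  · exact congrArg (· * x 0) h0
  · exact congrArg (· * x 1) h1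

end Pool.Agent.W372.AC
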