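import Mathlib
import Pool.Agent.W372.AC.NecE

/-!
Sufficiency: `p = 2`, two generators, class at most three, `γ₂` elementary abelian.
-/

set_option autoImplicit false

open scoped commutatorElement Pointwise

namespace Pool.Agent.W372.AC

open Pool.Agent.Helper832.AutC

variable {G : Type} [Group G]

lemma C3_of (h3 : ∀ a b c d : G, ⁅⁅⁅a, b⁆, c⁆, d⁆ = 1) : C3 G := by
  let K : Subgroup G :=
    { carrier := {c | ∀ g : G, ⁅c, g⁆ ∈ Subgroup.center G}
      one_mem' := fun g => by rw [commutatorElement_one_left]; exact one_mem _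
      mul_mem' := fun {a b} ha hb g => by
        have h1 : ⁅a * b, g⁆ = (a * ⁅b, g⁆ * a⁻¹) * ⁅a, g⁆ := by
          simp only [commutatorElement_def]; group
        rw [h1, ← cen_comm (hb g) a, mul_inv_cancel_right]
        exact mul_mem (hb g) (ha g)
      inv_mem' := fun {a} ha g => by
        have h1 : ⁅a⁻¹, g⁆ = a⁻¹ * ⁅a, g⁆⁻¹ * a := by
          simp only [commutatorElement_def]; group
        rw [h1, mul_assoc, cen_comm (inv_mem (ha g)) a, inv_mul_cancel_left]
        exact inv_mem (ha g) }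
  have hK : commutator G ≤ K := by
    rw [commutator_def, Subgroup.commutator_le]
    intro a _ b _ g
    rw [Subgroup.mem_center_iff]
    intro k
    exact (commutatorElement_eq_one_iff_mul_comm.mp (h3 a b g k)).symm
  exact fun c hc => hK hc

/-- the coset `γ₃ g` lies in the class of `g` when `g` is a generator -/
lemma coset_class (hC : C3 G) (h2 : ∀ c ∈ commutator G, c ^ 2 = 1) {g h : G}
    (hgh : Subgroup.closure {g, h} = ⊤) : ∀ c ∈ g3 G, ∃ k, k * g * k⁻¹ = c * g := by
  let R : Subgroup G :=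
    { carrier := {c | c ∈ Subgroup.center G ∧ ∃ k, k * g * k⁻¹ = c * g}
      one_mem' := ⟨one_mem _, 1, by group⟩
      mul_mem' := by
        rintro a b ⟨ha, k, hk⟩ ⟨hb, l, hl⟩
        refine ⟨mul_mem ha hb, k * l, ?_⟩
        have e1 : k * l * g * (k * l)⁻¹ = k * (l * g * l⁻¹) * k⁻¹ := by group
        have e2 : k * (b * g) * k⁻¹ = b * (k * g * k⁻¹) := by
          rw [← mul_assoc k, ← cen_comm hb k]; group
        rw [e1, hl, e2, hk, ← mul_assoc, cen_comm hb a]
      inv_mem' := by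
        rintro a ⟨ha, k, hk⟩
        refine ⟨inv_mem ha, k⁻¹, ?_⟩
        have e1 : g = k⁻¹ * (a * g) * k := by rw [← hk]; group
        have e2 : g = a * (k⁻¹ * g * k) := by
          have : k⁻¹ * (a * g) * k = a * (k⁻¹ * g * k) := by
            rw [← mul_assoc k⁻¹, ← cen_comm ha k⁻¹]; group
          rw [← this]; exact e1
        have e3 : k⁻¹ * g * k = a⁻¹ * g := eq_inv_mul_of_mul_eq e2.symm
        rw [inv_inv]; exact e3 }
  have hu := comm_mem g h
  have hR1 : ⁅⁅g, h⁆, g⁆ ∈ R := ⟨hC _ hu g, ⁅g, h⁆, conj_eq _ _⟩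
  have hR2 : ⁅⁅g, h⁆, h⁆ ∈ R := by
    have h1 : ⁅h, ⁅g, h⁆⁆ ∈ R := by
      refine ⟨g3_cen hC (mem_g3' hu h), h ^ 2, ?_⟩
      have e1 : h * g * h⁻¹ = ⁅g, h⁆ * g := by
        have h3 : ⁅g, h⁆⁻¹ = ⁅g, h⁆ := by
          have h4 := h2 _ hu
          rw [pow_two] at h4
          exact inv_eq_of_mul_eq_one_left h4
        rw [conj_eq, ← commutatorElement_inv, h3]
      have e2 : h ^ 2 * g * (h ^ 2)⁻¹ = h * (h * g * h⁻¹) * h⁻¹ := by
        rw [pow_two]; group
      have e3 : h * (⁅g, h⁆ * g) * h⁻¹ = (h * ⁅g, h⁆ * h⁻¹) * (h * g * h⁻¹) := by group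
      have h4 := h2 _ hu
      rw [pow_two] at h4
      rw [e2, e1, e3, e1, conj_eq h ⁅g, h⁆, mul_assoc, ← mul_assoc ⁅g, h⁆ ⁅g, h⁆, h4, one_mul]
    rw [← commutatorElement_inv]
    exact inv_mem h1
  have hR3 : ∀ k : G, ⁅⁅g, h⁆, k⁆ ∈ R := by
    intro k
    have hk : k ∈ Subgroup.closure {g, h} := by rw [hgh]; trivial
    induction hk using Subgroup.closure_induction with
    | mem v hv =>
      rcases hv with hv | hv
      · rw [hv]; exact hR1
      · rw [Set.mem_singleton_iff.mp hv]; exact hR2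
    | one => rw [commutatorElement_one_right]; exact one_mem _
    | mul a b _ _ ha hb => rw [br_mul_right hC hu]; exact mul_mem ha hb
    | inv a _ ha => rw [br_inv_right hC hu]; exact inv_mem ha
  have hR : g3 G ≤ R := by
    rw [g3, Subgroup.commutator_le]
    intro c hc k _
    let K : Subgroup G :=
      { carrier := {c | c ∈ commutator G ∧ ∀ k, ⁅c, k⁆ ∈ R}
        one_mem' := ⟨one_mem _, fun k => by rw [commutatorElement_one_left]; exact one_mem _⟩
        mul_mem' := fun {a b} ha hb => ⟨mul_mem ha.1 hb.1, fun k => by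
          rw [br_mul_left hC hb.1]; exact mul_mem (ha.2 k) (hb.2 k)⟩
        inv_mem' := fun {a} ha => ⟨inv_mem ha.1, fun k => by
          rw [br_inv_left hC ha.1]; exact inv_mem (ha.2 k)⟩ }
    have : K.Normal := by
      refine ⟨fun a ha l => ⟨Subgroup.Normal.conj_mem inferInstance _ ha.1 l, fun k => ?_⟩⟩
      rw [br_conj_left hC ha.1]
      exact ha.2 k
    exact (comm_le_of_normal g h hgh K ⟨hu, hR3⟩ hc).2 k
  intro c hc
  exact (hR hc).2

lemma coatom_mul [Finite G] (hG : IsPGroup 2 G) (M : Subgroup G) (hM : IsCoatom M)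
    {a b : G} (ha : a ∉ M) (hb : b ∉ M) : a * b ∈ M := by
  have : Fact (Nat.Prime 2) := ⟨Nat.prime_two⟩
  obtain ⟨h1, h2⟩ := coatom_facts hG M hM
  have hN : M.Normal := ⟨fun m hm g => by
    rw [conj_eq]; exact mul_mem (h1 g m) hm⟩
  have h3 : Subgroup.zpowers a ⊔ M = ⊤ := by
    apply hM.2
    refine lt_of_le_of_ne le_sup_right ?_
    intro h
    apply ha
    rw [h]
    exact Subgroup.mem_sup_left (Subgroup.mem_zpowers a)
  have h4 : b ∈ ((Subgroup.zpowers a : Subgroup G) : Set G) * (M : Set G) := by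
    rw [← Subgroup.mul_normal, h3]; trivial
  obtain ⟨_, ⟨i, rfl⟩, m, hm, hbm⟩ := Set.mem_mul.mp h4
  change a ^ i * m = b at hbm
  have h5 : a ^ (2 : ℤ) ∈ M := by exact_mod_cast h2 a
  rcases Int.even_or_odd' i with ⟨k, rfl | rfl⟩
  · exfalso
    apply hb
    rw [← hbm, zpow_mul]
    exact mul_mem (zpow_mem h5 k) hm
  · rw [← hbm, ← mul_assoc]
    refine mul_mem ?_ hm
    have : a * a ^ (2 * k + 1) = (a ^ (2 : ℤ)) ^ (k + 1) := by
      rw [← zpow_mul, ← zpow_one_add]; congr 1; ring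
    rw [this]
    exact zpow_mem h5 _

/-- the central automorphism attached to a maximal subgroup and an element of `γ₃` -/
theorem central_aut [Finite G] (hG : IsPGroup 2 G) (hr : Group.rank G = 2) (hC : C3 G)
    (h2 : ∀ c ∈ commutator G, c ^ 2 = 1) (M : Subgroup G) (hM : IsCoatom M) (c : G)
    (hc : c ∈ g3 G) : ∃ α ∈ AutC G, (∀ g ∈ M, α g = g) ∧ ∀ g, g ∉ M → α g = c * g := by
  classical
  have : Fact (Nat.Prime 2) := ⟨Nat.prime_two⟩
  obtain ⟨hM1, hM2⟩ := coatom_facts hG M hM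
  have hcc : c ∈ Subgroup.center G := g3_cen hC hc
  have hcM : c ∈ M := by
    have h1 : commutator G ≤ M := by
      rw [commutator_def, Subgroup.commutator_le]
      intro a _ b _
      exact hM1 a b
    exact h1 (g3_le hc)
  have hc2 : c * c = 1 := by rw [← pow_two]; exact h2 c (g3_le hc)
  let f : G → G := fun g => if g ∈ M then 1 else c
  have fM : ∀ g, g ∈ M → f g = 1 := fun g hg => if_pos hg
  have fN : ∀ g, g ∉ M → f g = c := fun g hg => if_neg hg
  have ff : ∀ g, f g ∈ M := by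
    intro g
    by_cases hg : g ∈ M
    · rw [fM g hg]; exact one_mem _
    · rw [fN g hg]; exact hcM
  have fcen : ∀ g k, f g * k = k * f g := by
    intro g k
    by_cases hg : g ∈ M
    · rw [fM g hg, one_mul, mul_one]
    · rw [fN g hg]; exact cen_comm hcc k
  have fmul : ∀ g k, f (g * k) = f g * f k := by
    intro g k
    by_cases hg : g ∈ M <;> by_cases hk : k ∈ M
    · rw [fM g hg, fM k hk, fM _ (mul_mem hg hk), one_mul]
    · rw [fM g hg, fN k hk, fN _ (fun h => hk ((M.mul_mem_cancel_left hg).mp h)), one_mul]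
    · rw [fN g hg, fM k hk, fN _ (fun h => hg ((M.mul_mem_cancel_right hk).mp h)), mul_one]
    · rw [fN g hg, fN k hk, fM _ (coatom_mul hG M hM hg hk), hc2]
  have fsq : ∀ g, f g * f g = 1 := by
    intro g
    by_cases hg : g ∈ M
    · rw [fM g hg, one_mul]
    · rw [fN g hg, hc2]
  have finv : ∀ g, f (f g * g) * (f g * g) = g := by
    intro g
    rw [fmul, fM _ (ff g), one_mul, ← mul_assoc, fsq, one_mul]
  let α : MulAut G :=
    { toFun := fun g => f g * g
      invFun := fun g => f g * g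
      left_inv := finv
      right_inv := finv
      map_mul' := fun g k => by
        show f (g * k) * (g * k) = f g * g * (f k * k)
        rw [fmul, mul_assoc, mul_assoc, ← mul_assoc (f k) g k, fcen k g, mul_assoc] }
  have hα : ∀ g, α g = f g * g := fun g => rfl
  refine ⟨α, ?_, ?_, ?_⟩
  · intro g
    by_cases hg : g ∈ M
    · rw [hα, fM g hg, one_mul]
    · rw [hα, fN g hg]
      have hgF : g ∉ frattini G := fun h => hg (frattini_le_coatom hM h)
      obtain ⟨x, hx⟩ : ∃ x : Fin 2 → G, Subgroup.closure (Set.range x) = ⊤ :=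
        hr ▸ exists_gen (G := G)
      obtain ⟨x', i, hx', hi⟩ := exchange hG x hx hgF
      have hgh : ∃ h, Subgroup.closure {g, h} = ⊤ := by
        have hrange : Set.range x' = {x' 0, x' 1} := by
          ext w
          constructor
          · rintro ⟨i, rfl⟩
            fin_cases i
            · exact Or.inl rfl
            · exact Or.inr rfl
          · rintro (h | h)
            · exact ⟨0, h.symm⟩
            · exact ⟨1, (Set.mem_singleton_iff.mp h).symm⟩
        rw [hrange] at hx'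
        fin_cases i
        · exact ⟨x' 1, by rw [← hi]; exact hx'⟩
        · exact ⟨x' 0, by rw [← hi, Set.pair_comm]; exact hx'⟩
      obtain ⟨h, hgh⟩ := hgh
      obtain ⟨k, hk⟩ := coset_class hC h2 hgh c hc
      exact isConj_iff.mpr ⟨k, hk⟩
  · intro g hg
    rw [hα, fM g hg, one_mul]
  · intro g hg
    rw [hα, fN g hg]

theorem suf_three [Finite G] (hG : IsPGroup 2 G) (hr : Group.rank G = 2)
    (h3 : ∀ a b c d : G, ⁅⁅⁅a, b⁆, c⁆, d⁆ = 1) (h2 : ∀ c ∈ commutator G, c ^ 2 = 1) :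
    Nat.card (AutC G) = Nat.card (commutator G) ^ Group.rank G := by
  classical
  have hC := C3_of h3
  obtain ⟨x, hx⟩ : ∃ x : Fin 2 → G, Subgroup.closure (Set.range x) = ⊤ :=
    hr ▸ exists_gen (G := G)
  have hrange : Set.range x = {x 0, x 1} := by
    ext w
    constructor
    · rintro ⟨i, rfl⟩
      fin_cases i
      · exact Or.inl rfl
      · exact Or.inr rfl
    · rintro (h | h)
      · exact ⟨0, h.symm⟩
      · exact ⟨1, (Set.mem_singleton_iff.mp h).symm⟩
  have hxy : Subgroup.closure {x 0, x 1} = ⊤ := by rw [← hrange]; exact hx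
  -- maximal subgroups
  have hmax : ∀ a b : G, Subgroup.closure {a, b} = ⊤ → ∃ M : Subgroup G, IsCoatom M ∧ b ∈ M ∧
      a ∉ M := by
    intro a b hab
    rcases eq_top_or_exists_le_coatom (Subgroup.zpowers b) with h | ⟨M, hM, hle⟩
    · exfalso
      have h1 : Subgroup.closure (({b} : Finset G) : Set G) = ⊤ := by
        rw [Finset.coe_singleton, ← Subgroup.zpowers_eq_closure]; exact h
      have h2 := Group.rank_le h1
      rw [hr, Finset.card_singleton] at h2
      omega
    · refine ⟨M, hM, hle (Subgroup.mem_zpowers b), fun ha => hM.1 ?_⟩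
      rw [eq_top_iff, ← hab, Subgroup.closure_le]
      rintro w (hw | hw)
      · rw [hw]; exact ha
      · rw [Set.mem_singleton_iff.mp hw]; exact hle (Subgroup.mem_zpowers b)
  have hcadj : ∀ c ∈ g3 G, ∀ e ∈ g3 G, ∃ α ∈ AutC G, α (x 0) = c * x 0 ∧ α (x 1) = e * x 1 := by
    intro c hc e he
    obtain ⟨M, hM, hM1, hM0⟩ := hmax (x 0) (x 1) hxy
    obtain ⟨M', hM', hM'1, hM'0⟩ := hmax (x 1) (x 0) (gen_swap hxy)
    obtain ⟨α, hα, hα1, hα2⟩ := central_aut hG hr hC h2 M hM c hc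
    obtain ⟨β, hβ, hβ1, hβ2⟩ := central_aut hG hr hC h2 M' hM' e he
    refine ⟨α * β, mul_mem hα hβ, ?_, ?_⟩
    · rw [MulAut.mul_apply, hβ1 _ hM'1, hα2 _ hM0]
    · rw [MulAut.mul_apply, hβ2 _ hM'0, map_mul, hα1 _ hM1]
      have h4 : α e = e := by
        obtain ⟨k, hk⟩ := isConj_iff.mp (hα e)
        rw [← hk, ← cen_comm (g3_cen hC he) k, mul_inv_cancel_right]
      rw [h4]
  have hu := comm_mem (x 0) (x 1)
  have hinner : ∀ c ∈ commutator G, ∀ e ∈ commutator G,
      ∃ g : G, ⁅g, x 0⁆⁻¹ * c ∈ g3 G ∧ ⁅g, x 1⁆⁻¹ * e ∈ g3 G := by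
    have hpar : ∀ c ∈ commutator G, c ∈ g3 G ∨ ⁅x 0, x 1⁆ * c ∈ g3 G := by
      intro c hc
      obtain ⟨i, d, hd, rfl⟩ := comm_form (x 0) (x 1) hxy c hc
      have h5 : ⁅x 0, x 1⁆ ^ (2 : ℤ) = 1 := by exact_mod_cast h2 _ hu
      rcases Int.even_or_odd' i with ⟨k, rfl | rfl⟩
      · left
        rw [zpow_mul, h5, one_zpow, one_mul]; exact hd
      · right
        have : ⁅x 0, x 1⁆ * (⁅x 0, x 1⁆ ^ (2 * k + 1) * d) = d := by
          rw [← mul_assoc, ← zpow_one_add]
          have e1 : 1 + (2 * k + 1) = 2 * (k + 1) := by ring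
          rw [e1, zpow_mul, h5, one_zpow, one_mul]
        rw [this]; exact hd
    have h10 : ⁅x 1, x 0⁆⁻¹ = ⁅x 0, x 1⁆ := commutatorElement_inv _ _
    have hinv : ⁅x 0, x 1⁆⁻¹ = ⁅x 0, x 1⁆ := by
      have h4 := h2 _ hu
      rw [pow_two] at h4
      exact inv_eq_of_mul_eq_one_left h4
    intro c hc e he
    rcases hpar c hc with h | h <;> rcases hpar e he with h' | h'
    · refine ⟨1, ?_, ?_⟩
      · rw [commutatorElement_one_left, inv_one, one_mul]; exact h
      · rw [commutatorElement_one_left, inv_one, one_mul]; exact h'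
    · refine ⟨x 0, ?_, ?_⟩
      · rw [commutatorElement_self, inv_one, one_mul]; exact h
      · rw [hinv]; exact h'
    · refine ⟨x 1, ?_, ?_⟩
      · rw [h10]; exact h
      · rw [commutatorElement_self, inv_one, one_mul]; exact h'
    · refine ⟨x 1 * x 0, ?_, ?_⟩
      · have e1 : ⁅x 1 * x 0, x 0⁆ = ⁅x 1, x 0⁆ := by
          simp only [commutatorElement_def]; group
        rw [e1, h10]; exact h
      · have e0 : ∀ a b : G, ⁅b * a, b⁆⁻¹ * e = ⁅b, ⁅a, b⁆⁻¹⁆ * (⁅a, b⁆⁻¹ * e) := by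
          intro a b
          simp only [commutatorElement_def, mul_inv_rev, inv_inv, mul_assoc,
            inv_mul_cancel_left, mul_inv_cancel_left]
        rw [e0]
        refine mul_mem (mem_g3' (inv_mem hu) _) ?_
        rw [hinv]; exact h'
  rw [hr, card_iff x hx]
  intro c hc
  obtain ⟨g, h0, h1⟩ := hinner (c 0) (hc 0) (c 1) (hc 1)
  obtain ⟨β, hβ, hb0, hb1⟩ := hcadj _ h0 _ h1
  have hconj : ∀ (w c' : G), ⁅g, w⁆⁻¹ * c' ∈ g3 G →
      g * (⁅g, w⁆⁻¹ * c' * w) * g⁻¹ = c' * w := by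
    intro w c' hw
    have h4 := cen_comm (g3_cen hC hw)
    have e1 : g * (⁅g, w⁆⁻¹ * c' * w) * g⁻¹ = (⁅g, w⁆⁻¹ * c') * (g * w * g⁻¹) := by
      rw [← mul_assoc g, ← h4 g]; group
    rw [e1, conj_eq, ← mul_assoc, h4 ⁅g, w⁆, mul_inv_cancel_left]
  refine ⟨MulAut.conj g * β, mul_mem (fun w => isConj_iff.mpr ⟨g, rfl⟩) hβ, ?_⟩
  intro i
  rw [MulAut.mul_apply, MulAut.conj_apply]
  fin_cases i
  · show g * β (x 0) * g⁻¹ = c 0 * x 0
    rw [hb0]; exact hconj _ _ h0
  · show g * β (x 1) * g⁻¹ = c 1 * x 1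
    rw [hb1]; exact hconj _ _ h1

end Pool.Agent.W372.AC
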